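import Pool.Agent.H212.SN.Stm

set_option autoImplicit false

open Complex Set Filter Topology MeasureTheory
open scoped ComplexConjugate

namespace Pool.Agent.H212.SN

theorem UNIV_re {x ζ : ℂ} (hx : ‖x‖ = 1) (hζ : ‖ζ‖ < 1) : 0 < (1 - conj x * ζ).re := by
  have h1 : ‖conj x * ζ‖ < 1 := by
    rw [norm_mul, RCLike.norm_conj, hx, one_mul]
    exact hζ
  have h2 := (Complex.abs_re_le_norm (conj x * ζ)).trans_lt h1
  rw [abs_lt] at h2
  rw [sub_re, one_re]
  linarith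

theorem UNIV_der {α b : ℝ} {x ζ : ℂ} (hα1 : α < 1) (hx : ‖x‖ = 1) (hζ : ‖ζ‖ < 1) :
    HasDerivAt (fb α b x) ((1 - conj x * ζ) ^ (pb α b)) ζ := by
  have hc0 : (((1 - α : ℝ) : ℂ) + (b : ℂ) * I) ≠ 0 := by
    intro h
    have := congrArg Complex.re h
    simp at this
    linarith
  have hx0 : conj x ≠ 0 := by
    intro h
    have h1 : ‖conj x‖ = 1 := by rw [RCLike.norm_conj, hx]
    rw [h, norm_zero] at h1
    exact zero_ne_one h1
  have hre := UNIV_re hx hζ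
  have hsl : (1 - conj x * ζ) ∈ slitPlane := Or.inl hre
  have h1 : HasDerivAt (fun ζ : ℂ => 1 - conj x * ζ) (-conj x) ζ := by
    simpa using ((hasDerivAt_id ζ).const_mul (conj x)).const_sub 1
  have h2 := h1.cpow_const (c := -(((1 - α : ℝ) : ℂ) + (b : ℂ) * I)) hsl
  have h3 := (h2.sub_const 1).div_const ((((1 - α : ℝ) : ℂ) + (b : ℂ) * I) * conj x)
  refine h3.congr_deriv ?_
  have e : pb α b = -(((1 - α : ℝ) : ℂ) + (b : ℂ) * I) - 1 := by
    unfold pb
    push_cast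
    ring
  rw [e]
  field_simp

theorem UNIV_inj {α b : ℝ} {x : ℂ} (hα1 : α < 1) (hb2 : b ^ 2 ≤ 1 - α ^ 2)
    (hx : ‖x‖ = 1) : Set.InjOn (fb α b x) (Metric.ball 0 1) := by
  intro ζ1 h1 ζ2 h2 h
  rw [mem_ball_zero_iff] at h1 h2
  have hc0 : (((1 - α : ℝ) : ℂ) + (b : ℂ) * I) ≠ 0 := by
    intro h
    have := congrArg Complex.re h
    simp at this
    linarith
  have hx0 : conj x ≠ 0 := by
    intro h
    have h1 : ‖conj x‖ = 1 := by rw [RCLike.norm_conj, hx]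
    rw [h, norm_zero] at h1
    exact zero_ne_one h1
  have r1 := UNIV_re hx h1
  have r2 := UNIV_re hx h2
  obtain ⟨w1, hw1⟩ : ∃ w : ℂ, w = 1 - conj x * ζ1 := ⟨_, rfl⟩
  obtain ⟨w2, hw2⟩ : ∃ w : ℂ, w = 1 - conj x * ζ2 := ⟨_, rfl⟩
  unfold fb at h
  rw [← hw1, ← hw2] at h
  rw [← hw1] at r1
  rw [← hw2] at r2
  have hw10 : w1 ≠ 0 := by
    rintro rfl
    simp at r1
  have hw20 : w2 ≠ 0 := by
    rintro rfl
    simp at r2
  have h3 : w1 ^ (-(((1 - α : ℝ) : ℂ) + (b : ℂ) * I)) =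
      w2 ^ (-(((1 - α : ℝ) : ℂ) + (b : ℂ) * I)) := by
    rw [div_left_inj' (mul_ne_zero hc0 hx0)] at h
    exact sub_left_injective h
  rw [cpow_def_of_ne_zero hw10, cpow_def_of_ne_zero hw20, Complex.exp_eq_exp_iff_exists_int] at h3
  obtain ⟨n, hn⟩ := h3
  have a1 : |arg w1| < Real.pi / 2 := Complex.abs_arg_lt_pi_div_two_iff.2 (Or.inl r1)
  have a2 : |arg w2| < Real.pi / 2 := Complex.abs_arg_lt_pi_div_two_iff.2 (Or.inl r2)
  rw [← log_im, abs_lt] at a1 a2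
  obtain ⟨l1, hl1⟩ : ∃ l : ℂ, l = log w1 := ⟨_, rfl⟩
  obtain ⟨l2, hl2⟩ : ∃ l : ℂ, l = log w2 := ⟨_, rfl⟩
  rw [← hl1] at a1
  rw [← hl2] at a2
  rw [← hl1, ← hl2] at hn
  have e1 := congrArg Complex.re hn
  have e2 := congrArg Complex.im hn
  simp only [mul_re, mul_im, neg_re, neg_im, add_re, add_im, ofReal_re, ofReal_im, I_re, I_im,
    mul_zero, mul_one, sub_zero, add_zero, zero_add, zero_mul, intCast_re, intCast_im,
    re_ofNat, im_ofNat] at e1 e2
  have hp : 0 < 1 - α := by linarith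
  have e1' : (1 - α) * (l2.re - l1.re) = b * (l2.im - l1.im) := by linarith
  have e2' : (1 - α) * (l2.im - l1.im) + b * (l2.re - l1.re) = n * (2 * Real.pi) := by linarith
  have e3 : ((1 - α) ^ 2 + b ^ 2) * (l2.im - l1.im) = (1 - α) * (n * (2 * Real.pi)) := by
    rw [← e2']
    linear_combination (-b) * e1'
  have hsq : (1 - α) ^ 2 + b ^ 2 ≤ 2 * (1 - α) := by nlinarith
  have hsq0 : 0 < (1 - α) ^ 2 + b ^ 2 := by positivity
  have hv : |l2.im - l1.im| < Real.pi := by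
    rw [abs_lt]
    constructor <;> linarith
  have hn0 : n = 0 := by
    by_contra hne
    have h5 : (1 : ℝ) ≤ |(n : ℝ)| := by exact_mod_cast Int.one_le_abs hne
    have h6 : ((1 - α) ^ 2 + b ^ 2) * |l2.im - l1.im| = (1 - α) * (|(n : ℝ)| * (2 * Real.pi)) := by
      have := congrArg abs e3
      rwa [abs_mul, abs_of_pos hsq0, abs_mul (1 - α), abs_of_pos hp, abs_mul, abs_of_pos
        (show (0 : ℝ) < 2 * Real.pi by positivity)] at this
    have h7 : ((1 - α) ^ 2 + b ^ 2) * |l2.im - l1.im| < 2 * (1 - α) * Real.pi := by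
      calc ((1 - α) ^ 2 + b ^ 2) * |l2.im - l1.im| < ((1 - α) ^ 2 + b ^ 2) * Real.pi :=
            mul_lt_mul_of_pos_left hv hsq0
        _ ≤ 2 * (1 - α) * Real.pi := mul_le_mul_of_nonneg_right hsq Real.pi_pos.le
    have h8 : (1 - α) * (2 * Real.pi) ≤ (1 - α) * (|(n : ℝ)| * (2 * Real.pi)) := by
      refine mul_le_mul_of_nonneg_left ?_ hp.le
      have : (0 : ℝ) < 2 * Real.pi := by positivity
      nlinarith
    linarith
  rw [hn0] at e3
  have hv0 : l2.im - l1.im = 0 := by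
    have : ((1 - α) ^ 2 + b ^ 2) * (l2.im - l1.im) = 0 := by
      rw [e3]
      simp
    rcases mul_eq_zero.1 this with h | h
    · exact absurd h hsq0.ne'
    · exact h
  have hu0 : l2.re - l1.re = 0 := by
    rw [hv0, mul_zero] at e1'
    rcases mul_eq_zero.1 e1' with h | h
    · exact absurd h hp.ne'
    · exact h
  have hl : l1 = l2 := Complex.ext (by linarith) (by linarith)
  have hw : w1 = w2 := by
    rw [← Complex.exp_log hw10, ← Complex.exp_log hw20, ← hl1, ← hl2, hl]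
  rw [hw1, hw2] at hw
  have h9 : conj x * ζ1 = conj x * ζ2 := by linear_combination -hw
  exact mul_left_cancel₀ hx0 h9

theorem t_UNIV : S_UNIV := by
  intro α b x _ hα1 _ hb2 hx
  have hd : ∀ ζ ∈ Metric.ball (0 : ℂ) 1,
      deriv (fb α b x) ζ = (1 - conj x * ζ) ^ (pb α b) := fun ζ hζ =>
    (UNIV_der hα1 hx (mem_ball_zero_iff.1 hζ)).deriv
  refine ⟨⟨fun ζ hζ => (UNIV_der hα1 hx
    (mem_ball_zero_iff.1 hζ)).differentiableAt.differentiableWithinAt, UNIV_inj hα1 hb2 hx, ?_, ?_⟩,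
    hd⟩
  · unfold fb
    rw [mul_zero, sub_zero, one_cpow, sub_self, zero_div]
  · rw [hd 0 (Metric.mem_ball_self one_pos), mul_zero, sub_zero, one_cpow]

end Pool.Agent.H212.SN
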