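import Pool.Agent.H212.SN.Stm

/-! SN ANN (helper570): `N(0, ·)` is holomorphic on the right half plane. -/

open Complex Set Filter Topology MeasureTheory
open scoped ComplexConjugate

namespace Pool.Agent.H212.SN

theorem ANN_re (α : ℝ) : (pb α 0).re = α - 2 := by
  simp [pb]

theorem ANN_im (α : ℝ) : (pb α 0).im = 0 := by
  simp [pb]

theorem ANN_norm {α v : ℝ} (h1 : α < 1) {c : ℝ} (hc : 0 < c) {ξ : ℂ} (h : c ≤ v + ξ.re) :
    ‖((v : ℂ) + ξ) ^ (pb α 0 - 1)‖ ≤ c ^ (α - 3) := by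
  have hre : ((v : ℂ) + ξ).re = v + ξ.re := by simp
  have hn : c ≤ ‖(v : ℂ) + ξ‖ := by
    have := Complex.re_le_norm ((v : ℂ) + ξ)
    rw [hre] at this
    linarith
  have hne : (v : ℂ) + ξ ≠ 0 := by
    intro h0
    rw [h0, norm_zero] at hn
    linarith
  rw [norm_cpow_of_ne_zero hne]
  have e1 : (pb α 0 - 1).im = 0 := by simp [ANN_im]
  have e2 : (pb α 0 - 1).re = α - 3 := by
    rw [sub_re, ANN_re, one_re]
    ring
  rw [e1, e2, mul_zero, Real.exp_zero, div_one]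
  exact Real.rpow_le_rpow_of_nonpos hc hn (by linarith)

theorem ANN_pn {α : ℝ} (h0 : 0 < α) (h1 : α < 1) : ‖pb α 0‖ ≤ 2 := by
  have : pb α 0 = ((α - 2 : ℝ) : ℂ) := by
    apply Complex.ext
    · rw [ANN_re, ofReal_re]
    · rw [ANN_im, ofReal_im]
  rw [this, norm_real, Real.norm_eq_abs, abs_le]
  constructor <;> linarith

theorem ANN_der {α v : ℝ} {ξ : ℂ} (h : 0 < v + ξ.re) (c : ℂ) :
    HasDerivAt (fun ξ : ℂ => c * ((v : ℂ) + ξ) ^ (pb α 0))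
      (c * (pb α 0 * ((v : ℂ) + ξ) ^ (pb α 0 - 1))) ξ := by
  have h1 : HasDerivAt (fun ξ : ℂ => (v : ℂ) + ξ) 1 ξ := (hasDerivAt_id ξ).const_add _
  have h2 : (v : ℂ) + ξ ∈ slitPlane := by
    left
    simpa using h
  have h3 := (h1.cpow_const (c := pb α 0) h2).const_mul c
  simpa using h3

theorem ANN_cont {α : ℝ} (h1 : α < 1) (s : Set ℝ) (hs0 : ∀ v ∈ s, 0 < v) (p ξ : ℂ)
    (hξ : 0 ≤ ξ.re) :
    ContinuousOn (fun v : ℝ => ((v ^ (1 - α) : ℝ) : ℂ) * ((v : ℂ) + ξ) ^ p) s := by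
  have c1 : Continuous fun v : ℝ => ((v ^ (1 - α) : ℝ) : ℂ) :=
    continuous_ofReal.comp (Real.continuous_rpow_const (by linarith))
  have c2 : Continuous fun v : ℝ => (v : ℂ) + ξ := continuous_ofReal.add continuous_const
  refine c1.continuousOn.mul (c2.continuousOn.cpow continuousOn_const fun v hv => ?_)
  left
  have := hs0 v hv
  simp only [add_re, ofReal_re]
  linarith

theorem ANN_aux {α : ℝ} (h0 : 0 < α) (h1 : α < 1) (s : Set ℝ) (hs : MeasurableSet s)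
    (hs0 : ∀ v ∈ s, 0 < v) (G : ℝ → ℂ) (hG : ContinuousOn G s) (ξ₀ : ℂ) (hξ : 0 < ξ₀.re)
    (bound : ℝ → ℝ) (hb : IntegrableOn bound s)
    (hbd : ∀ v ∈ s, ∀ ξ : ℂ, ξ₀.re / 2 < ξ.re →
      ‖((v ^ (1 - α) : ℝ) : ℂ) * (pb α 0 * ((v : ℂ) + ξ) ^ (pb α 0 - 1))‖ ≤ bound v)
    (hint : IntegrableOn (fun v : ℝ => ((v ^ (1 - α) : ℝ) : ℂ) * ((v : ℂ) + ξ₀) ^ (pb α 0) - G v) s) :
    DifferentiableAt ℂ
      (fun ξ : ℂ => ∫ v in s, (((v ^ (1 - α) : ℝ) : ℂ) * ((v : ℂ) + ξ) ^ (pb α 0) - G v)) ξ₀ := by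
  have hball : ∀ ξ ∈ Metric.ball ξ₀ (ξ₀.re / 2), ξ₀.re / 2 < ξ.re := by
    intro ξ hξ'
    rw [Metric.mem_ball, dist_eq_norm] at hξ'
    have h2 := Complex.abs_re_le_norm (ξ - ξ₀)
    have h3 := neg_abs_le (ξ - ξ₀).re
    rw [sub_re] at h2 h3
    linarith
  have hmeas : ∀ ξ : ℂ, 0 < ξ.re → AEStronglyMeasurable
      (fun v : ℝ => ((v ^ (1 - α) : ℝ) : ℂ) * ((v : ℂ) + ξ) ^ (pb α 0) - G v)
      (volume.restrict s) := fun ξ hξ' =>
    ((ANN_cont h1 s hs0 _ ξ hξ'.le).sub hG).aestronglyMeasurable hs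
  have hnb : Metric.ball ξ₀ (ξ₀.re / 2) ∈ 𝓝 ξ₀ := Metric.ball_mem_nhds _ (by linarith)
  have key := hasDerivAt_integral_of_dominated_loc_of_deriv_le (𝕜 := ℂ) (μ := volume.restrict s)
    (F := fun ξ v => ((v ^ (1 - α) : ℝ) : ℂ) * ((v : ℂ) + ξ) ^ (pb α 0) - G v)
    (F' := fun ξ v => ((v ^ (1 - α) : ℝ) : ℂ) * (pb α 0 * ((v : ℂ) + ξ) ^ (pb α 0 - 1)))
    (bound := bound) (x₀ := ξ₀) hnb
    (by
      filter_upwards [hnb] with ξ hξ'
      exact hmeas ξ (by linarith [hball ξ hξ']))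
    hint
    (by
      have c := (ANN_cont h1 s hs0 (pb α 0 - 1) ξ₀ hξ.le).const_smul (pb α 0)
      refine ContinuousOn.aestronglyMeasurable (c.congr fun v _ => ?_) hs
      simp only [smul_eq_mul, Pi.smul_apply]
      ring)
    (by
      rw [ae_restrict_iff' hs]
      exact ae_of_all _ fun v hv ξ hξ' => hbd v hv ξ (hball ξ hξ'))
    hb
    (by
      rw [ae_restrict_iff' hs]
      refine ae_of_all _ fun v hv ξ hξ' => ?_
      exact (ANN_der (by linarith [hs0 v hv, hball ξ hξ']) _).sub_const _)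
  exact key.2.differentiableAt

theorem t_ANN : S_ANN := by
  intro α h0 h1 ξ₀ hξ
  have hξ' : 0 < ξ₀.re := hξ
  refine DifferentiableAt.differentiableWithinAt ?_
  have e : Nc α 0 = fun ξ : ℂ =>
      (∫ v in Ioc (0 : ℝ) 1, (((v ^ (1 - α) : ℝ) : ℂ) * ((v : ℂ) + ξ) ^ (pb α 0) - 0)) +
      ∫ v in Set.Ioi (1 : ℝ), (((v ^ (1 - α) : ℝ) : ℂ) * ((v : ℂ) + ξ) ^ (pb α 0) -
        (v : ℂ) ^ (-1 - ((0 : ℝ) : ℂ) * I)) := by
    funext ξ
    unfold Nc
    rw [intervalIntegral.integral_of_le zero_le_one]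
    simp only [sub_zero]
  rw [e]
  have hp := ANN_pn h0 h1
  refine DifferentiableAt.add ?_ ?_
  · refine ANN_aux h0 h1 (Ioc 0 1) measurableSet_Ioc (fun v hv => hv.1) (fun _ => 0)
      continuousOn_const ξ₀ hξ' (fun _ => 2 * (ξ₀.re / 2) ^ (α - 3)) ?_ ?_ ?_
    · exact integrableOn_const (by simp) enorm_ne_top
    · intro v hv ξ hξ1
      rw [norm_mul, norm_mul, norm_real, Real.norm_of_nonneg (Real.rpow_nonneg hv.1.le _)]
      have h2 : v ^ (1 - α) ≤ 1 := Real.rpow_le_one hv.1.le hv.2 (by linarith)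
      have h3 := ANN_norm (v := v) (ξ := ξ) h1 (c := ξ₀.re / 2) (by linarith) (by linarith [hv.1])
      have h4 : 0 ≤ v ^ (1 - α) := Real.rpow_nonneg hv.1.le _
      have h5 : ‖pb α 0‖ * ‖((v : ℂ) + ξ) ^ (pb α 0 - 1)‖ ≤ 2 * (ξ₀.re / 2) ^ (α - 3) :=
        mul_le_mul hp h3 (norm_nonneg _) (by norm_num)
      have h6 : 0 ≤ ‖pb α 0‖ * ‖((v : ℂ) + ξ) ^ (pb α 0 - 1)‖ := by positivity
      calc v ^ (1 - α) * (‖pb α 0‖ * ‖((v : ℂ) + ξ) ^ (pb α 0 - 1)‖)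
          ≤ 1 * (‖pb α 0‖ * ‖((v : ℂ) + ξ) ^ (pb α 0 - 1)‖) := mul_le_mul_of_nonneg_right h2 h6
        _ ≤ _ := by rw [one_mul]; exact h5
    · have c : ContinuousOn (fun v : ℝ => ((v ^ (1 - α) : ℝ) : ℂ) * ((v : ℂ) + ξ₀) ^ (pb α 0) - 0)
          (Icc 0 1) := by
        simp only [sub_zero]
        have c1 : Continuous fun v : ℝ => ((v ^ (1 - α) : ℝ) : ℂ) :=
          continuous_ofReal.comp (Real.continuous_rpow_const (by linarith))
        have c2 : Continuous fun v : ℝ => (v : ℂ) + ξ₀ := continuous_ofReal.add continuous_const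
        refine c1.continuousOn.mul (c2.continuousOn.cpow continuousOn_const fun v hv => ?_)
        left
        simp only [add_re, ofReal_re]
        linarith [hv.1]
      exact (c.integrableOn_compact isCompact_Icc).mono_set Ioc_subset_Icc_self
  · have hbd : ∀ v ∈ Ioi (1 : ℝ), ∀ ξ : ℂ, 0 ≤ ξ.re →
        ‖((v ^ (1 - α) : ℝ) : ℂ) * (pb α 0 * ((v : ℂ) + ξ) ^ (pb α 0 - 1))‖ ≤ 2 * v ^ (-2 : ℝ) := by
      intro v hv ξ hξ1
      have hv0 : (0 : ℝ) < v := lt_trans zero_lt_one hv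
      rw [norm_mul, norm_mul, norm_real, Real.norm_of_nonneg (Real.rpow_nonneg hv0.le _)]
      have h3 := ANN_norm (v := v) (ξ := ξ) h1 (c := v) hv0 (by linarith)
      have h4 : 0 ≤ v ^ (1 - α) := Real.rpow_nonneg hv0.le _
      have h5 : ‖pb α 0‖ * ‖((v : ℂ) + ξ) ^ (pb α 0 - 1)‖ ≤ 2 * v ^ (α - 3) :=
        mul_le_mul hp h3 (norm_nonneg _) (by norm_num)
      calc v ^ (1 - α) * (‖pb α 0‖ * ‖((v : ℂ) + ξ) ^ (pb α 0 - 1)‖)
          ≤ v ^ (1 - α) * (2 * v ^ (α - 3)) := mul_le_mul_of_nonneg_left h5 h4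
        _ = 2 * (v ^ (1 - α) * v ^ (α - 3)) := by ring
        _ = 2 * v ^ (-2 : ℝ) := by
            rw [← Real.rpow_add hv0]
            congr 2
            ring
    have hbint : IntegrableOn (fun v : ℝ => 2 * v ^ (-2 : ℝ)) (Ioi 1) :=
      (integrableOn_Ioi_rpow_of_lt (by norm_num) zero_lt_one).const_mul 2
    have hG : ContinuousOn (fun v : ℝ => (v : ℂ) ^ (-1 - ((0 : ℝ) : ℂ) * I)) (Ioi 1) := by
      refine continuous_ofReal.continuousOn.cpow continuousOn_const fun v hv => ?_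
      left
      have hv1 : (1 : ℝ) < v := hv
      rw [ofReal_re]
      linarith
    refine ANN_aux h0 h1 (Ioi 1) measurableSet_Ioi (fun v hv => lt_trans zero_lt_one hv) _
      hG ξ₀ hξ' (fun v => 2 * v ^ (-2 : ℝ)) hbint
      (fun v hv ξ hξ1 => hbd v hv ξ (by linarith)) ?_
    refine (hbint.const_mul ‖ξ₀‖).mono' ?_ ?_
    · exact ((ANN_cont h1 (Ioi 1) (fun v hv => lt_trans zero_lt_one hv) _ ξ₀ hξ'.le).sub
        hG).aestronglyMeasurable measurableSet_Ioi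
    · rw [ae_restrict_iff' measurableSet_Ioi]
      refine ae_of_all _ fun v hv => ?_
      have hv0 : (0 : ℝ) < v := lt_trans zero_lt_one hv
      have hmv := (convex_halfSpace_re_ge 0).norm_image_sub_le_of_norm_hasDerivWithin_le
        (f := fun ξ : ℂ => ((v ^ (1 - α) : ℝ) : ℂ) * ((v : ℂ) + ξ) ^ (pb α 0))
        (f' := fun ξ : ℂ => ((v ^ (1 - α) : ℝ) : ℂ) * (pb α 0 * ((v : ℂ) + ξ) ^ (pb α 0 - 1)))
        (C := 2 * v ^ (-2 : ℝ)) (x := 0) (y := ξ₀)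
        (fun ξ hξ1 => (ANN_der (by
          have : (0 : ℝ) ≤ ξ.re := hξ1
          linarith) _).hasDerivWithinAt)
        (fun ξ hξ1 => hbd v hv ξ hξ1) (by
          show (0 : ℝ) ≤ (0 : ℂ).re
          exact le_of_eq Complex.zero_re.symm) (by
          show (0 : ℝ) ≤ ξ₀.re
          exact hξ'.le)
      have e0 : ((v ^ (1 - α) : ℝ) : ℂ) * ((v : ℂ) + 0) ^ (pb α 0) =
          (v : ℂ) ^ (-1 - ((0 : ℝ) : ℂ) * I) := by
        rw [add_zero, ofReal_cpow hv0.le, ← cpow_add _ _ (ofReal_ne_zero.2 hv0.ne')]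
        congr 1
        unfold pb
        push_cast
        ring
      rw [e0, sub_zero] at hmv
      calc _ ≤ _ := hmv
        _ = _ := by ring

end Pool.Agent.H212.SN
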