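import Pool.Agent.H212.SN.Stm

set_option autoImplicit false

open Complex Set Filter Topology MeasureTheory
open scoped ComplexConjugate

namespace Pool.Agent.H212.SN

theorem ANP_wt {α : ℝ} (h0 : 0 < α) (h1 : α < 1) :
    IntervalIntegrable (fun u : ℝ => wt α (1 - u)) volume 0 1 := by
  unfold wt
  have e1 : IntervalIntegrable (fun u : ℝ => (1 - u) ^ (α - 1)) volume 0 1 := by
    have h := (intervalIntegral.intervalIntegrable_rpow' (a := 0) (b := 1) (r := α - 1)
      (by linarith)).comp_sub_left 1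
    simpa using h.symm
  refine e1.mul_continuousOn (Continuous.continuousOn ?_)
  exact (Real.continuous_rpow_const (by linarith)).comp (by fun_prop)

theorem ANP_slit {x : ℂ} (hx : 0 < x.re) {u : ℝ} (hu : 0 ≤ u) : (u : ℂ) + x ∈ slitPlane := by
  left
  simp only [add_re, ofReal_re]
  linarith

theorem ANP_int {α : ℝ} (h0 : 0 < α) (h1 : α < 1) (q : ℂ) {x : ℂ} (hx : 0 < x.re) :
    IntervalIntegrable (fun u : ℝ => ((wt α (1 - u) : ℝ) : ℂ) * ((u : ℂ) + x) ^ q) volume 0 1 := by
  have hw : IntervalIntegrable (fun u : ℝ => ((wt α (1 - u) : ℝ) : ℂ)) volume 0 1 :=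
    ⟨Integrable.ofReal (ANP_wt h0 h1).1, Integrable.ofReal (ANP_wt h0 h1).2⟩
  refine hw.mul_continuousOn ?_
  rw [Set.uIcc_of_le zero_le_one]
  intro u hu
  refine ContinuousAt.continuousWithinAt ?_
  have h : ContinuousAt (fun u : ℝ => (u : ℂ) + x) u := by fun_prop
  exact h.cpow continuousAt_const (ANP_slit hx hu.1)

theorem ANP_bound (q : ℂ) {r R : ℝ} (hr : 0 < r) : ∃ C : ℝ, ∀ z : ℂ, r ≤ z.re → ‖z‖ ≤ R → ‖z ^ q‖ ≤ C := by
  have hK : IsCompact ({z : ℂ | r ≤ z.re} ∩ Metric.closedBall 0 R) :=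
    (isCompact_closedBall (0 : ℂ) R).inter_left (isClosed_le continuous_const continuous_re)
  have hc : ContinuousOn (fun z : ℂ => z ^ q) ({z : ℂ | r ≤ z.re} ∩ Metric.closedBall 0 R) := by
    intro z hz
    refine ContinuousAt.continuousWithinAt ?_
    have h : ContinuousAt (fun z : ℂ => z) z := continuousAt_id
    exact h.cpow continuousAt_const (Or.inl (lt_of_lt_of_le hr hz.1))
  obtain ⟨C, hC⟩ := hK.exists_bound_of_continuousOn hc
  exact ⟨C, fun z h1 h2 => hC z ⟨h1, by simpa using h2⟩⟩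

theorem t_ANP : S_ANP := by
  intro α b h0 h1 _ _ η hη
  have hη' : 0 < η.re := hη
  refine DifferentiableAt.differentiableWithinAt ?_
  obtain ⟨C, hC⟩ := ANP_bound (pb α b - 1) (r := η.re / 2) (R := 1 + (‖η‖ + η.re / 2)) (by linarith)
  have hre : ∀ x ∈ Metric.ball η (η.re / 2), η.re / 2 ≤ x.re := by
    intro x hx
    rw [Metric.mem_ball, dist_eq_norm] at hx
    have := (abs_re_le_norm (x - η)).trans hx.le
    rw [sub_re, abs_le] at this
    linarith [this.1]
  have hre0 : ∀ x ∈ Metric.ball η (η.re / 2), 0 < x.re := fun x hx => by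
    have := hre x hx
    linarith
  have hmain := intervalIntegral.hasDerivAt_integral_of_dominated_loc_of_deriv_le (𝕜 := ℂ)
    (μ := volume) (a := 0) (b := 1) (E := ℂ)
    (F := fun x u => ((wt α (1 - u) : ℝ) : ℂ) * ((u : ℂ) + x) ^ (pb α b))
    (F' := fun x u => ((wt α (1 - u) : ℝ) : ℂ) * (pb α b * ((u : ℂ) + x) ^ (pb α b - 1)))
    (x₀ := η) (s := Metric.ball η (η.re / 2)) (bound := fun u => |wt α (1 - u)| * (‖pb α b‖ * C))
    (Metric.ball_mem_nhds η (by linarith)) ?_ ?_ ?_ ?_ ?_ ?_
  · exact hmain.2.differentiableAt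
  · filter_upwards [Metric.ball_mem_nhds η (show (0 : ℝ) < η.re / 2 by linarith)] with x hx
    exact (intervalIntegrable_iff.1 (ANP_int h0 h1 (pb α b) (hre0 x hx))).aestronglyMeasurable
  · exact ANP_int h0 h1 (pb α b) hη'
  · have h := (ANP_int h0 h1 (pb α b - 1) hη').const_mul (pb α b)
    have h2 := (intervalIntegrable_iff.1 h).aestronglyMeasurable
    refine h2.congr (Eventually.of_forall fun u => ?_)
    simp only
    ring
  · refine Eventually.of_forall fun u hu x hx => ?_
    rw [Set.uIoc_of_le zero_le_one] at hu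
    rw [norm_mul, norm_mul, Complex.norm_real, Real.norm_eq_abs]
    refine mul_le_mul_of_nonneg_left (mul_le_mul_of_nonneg_left (hC _ ?_ ?_) (norm_nonneg _))
      (abs_nonneg _)
    · have := hre x hx
      simp only [add_re, ofReal_re]
      linarith [hu.1]
    · rw [Metric.mem_ball, dist_eq_norm] at hx
      have e1 : ‖x‖ ≤ ‖η‖ + η.re / 2 := by
        have := norm_add_le η (x - η)
        rw [add_sub_cancel] at this
        linarith
      have e2 : ‖(u : ℂ)‖ ≤ 1 := by
        rw [Complex.norm_real, Real.norm_eq_abs, abs_le]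
        constructor <;> linarith [hu.1, hu.2]
      exact (norm_add_le _ _).trans (add_le_add e2 e1)
  · exact (ANP_wt h0 h1).abs.mul_const _
  · refine Eventually.of_forall fun u hu x hx => ?_
    rw [Set.uIoc_of_le zero_le_one] at hu
    have h := ((hasDerivAt_id x).const_add (u : ℂ)).cpow_const (c := pb α b)
      (ANP_slit (hre0 x hx) hu.1.le)
    have h2 := h.const_mul (((wt α (1 - u) : ℝ) : ℂ))
    simpa using h2

end Pool.Agent.H212.SN

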