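import Pool.Agent.H212.SN.Stm

/-!
# Project SN (helper212), BC: integrability of the weight (helper82)
-/

set_option autoImplicit false

open Complex Set Filter Topology MeasureTheory
open scoped ComplexConjugate

namespace Pool.Agent.H212.SN

theorem BC_int (α : ℝ) (h0 : 0 < α) (h1 : α < 1) : IntervalIntegrable (wt α) volume 0 1 := by
  have h : IntervalIntegrable (fun s : ℝ => s ^ (α - 1)) volume 0 1 :=
    intervalIntegral.intervalIntegrable_rpow' (by linarith)
  have hc : Continuous fun s : ℝ => (1 - s) ^ (1 - α) :=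
    (continuous_const.sub continuous_id).rpow_const fun _ => Or.inr (by linarith)
  exact h.mul_continuousOn hc.continuousOn

theorem BC_pos (α : ℝ) (h0 : 0 < α) (h1 : α < 1) : 0 < Bc α := by
  refine intervalIntegral.intervalIntegral_pos_of_pos_on (BC_int α h0 h1) (fun s hs => ?_) one_pos
  exact mul_pos (Real.rpow_pos_of_pos hs.1 _) (Real.rpow_pos_of_pos (sub_pos.2 hs.2) _)

theorem t_BC : S_BC := fun α h0 h1 => ⟨BC_int α h0 h1, BC_pos α h0 h1⟩

end Pool.Agent.H212.SN
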