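import Pool.Agent.H212.SN.Stm

/-! Project SN, part BM (helper385). -/

set_option autoImplicit false

open Complex Set Filter Topology MeasureTheory
open scoped ComplexConjugate

namespace Pool.Agent.H212.SN

theorem BM_w {α u : ℝ} (h0 : 0 < α) (h1 : α < 1) (hu0 : 0 < u) (hu1 : u < 1) :
    0 ≤ (1 - u) ^ (α - 1) - 1 ∧ ((1 - u) ^ (α - 1) - 1) * u⁻¹ ≤ (1 - u) ^ (α - 1) := by
  have hv : 0 < 1 - u := by linarith
  have e1 : (1 : ℝ) ≤ (1 - u) ^ (α - 1) :=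
    Real.one_le_rpow_of_pos_of_le_one_of_nonpos hv (by linarith) (by linarith)
  have e2 : (1 - u) ^ (α - 1) * (1 - u) ≤ 1 := by
    have e3 : (1 - u) ^ (α - 1) * (1 - u) = (1 - u) ^ α := by
      nth_rewrite 2 [← Real.rpow_one (1 - u)]
      rw [← Real.rpow_add hv]
      congr 1
      ring
    rw [e3]
    exact Real.rpow_le_one hv.le (by linarith) h0.le
  refine ⟨by linarith, ?_⟩
  rw [← div_eq_mul_inv, div_le_iff₀ hu0]
  nlinarith

theorem BM_norm (b : ℝ) {u : ℝ} (hu0 : 0 < u) : ‖(u : ℂ) ^ (-1 - (b : ℂ) * I)‖ = u⁻¹ := by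
  rw [Complex.norm_cpow_eq_rpow_re_of_pos hu0]
  have h : (-1 - (b : ℂ) * I).re = -1 := by simp
  rw [h, Real.rpow_neg_one]

theorem BM_diff (b : ℝ) {u : ℝ} (hb : 0 < b) (hu0 : 0 < u) :
    ‖(u : ℂ) ^ (-1 - (b : ℂ) * I) - (u : ℂ) ^ (-1 - ((0 : ℝ) : ℂ) * I)‖ ≤ u⁻¹ * (b * |Real.log u|) := by
  have hne : (u : ℂ) ≠ 0 := by exact_mod_cast hu0.ne'
  have e1 : (u : ℂ) ^ (-1 - (b : ℂ) * I) =
      (u : ℂ) ^ (-1 - ((0 : ℝ) : ℂ) * I) * Complex.exp (I * ((-(b * Real.log u) : ℝ) : ℂ)) := by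
    have e2 : (-1 - (b : ℂ) * I) = (-1 - ((0 : ℝ) : ℂ) * I) + -((b : ℂ) * I) := by
      push_cast
      ring
    rw [e2, Complex.cpow_add _ _ hne]
    congr 1
    rw [Complex.cpow_def_of_ne_zero hne, ← Complex.ofReal_log hu0.le]
    congr 1
    push_cast
    ring
  have e3 : (u : ℂ) ^ (-1 - (b : ℂ) * I) - (u : ℂ) ^ (-1 - ((0 : ℝ) : ℂ) * I) =
      (u : ℂ) ^ (-1 - ((0 : ℝ) : ℂ) * I) *
        (Complex.exp (I * ((-(b * Real.log u) : ℝ) : ℂ)) - 1) := by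
    rw [e1]
    ring
  rw [e3, norm_mul, BM_norm 0 hu0]
  refine mul_le_mul_of_nonneg_left ?_ (inv_nonneg.2 hu0.le)
  refine Real.norm_exp_I_mul_ofReal_sub_one_le.trans ?_
  rw [Real.norm_eq_abs, abs_neg, abs_mul, abs_of_pos hb]

theorem BM_int1 {α : ℝ} (h0 : 0 < α) :
    IntegrableOn (fun u : ℝ => (1 - u) ^ (α - 1)) (Ioo 0 1) := by
  rw [← intervalIntegrable_iff_integrableOn_Ioo_of_le zero_le_one]
  have h := (intervalIntegral.intervalIntegrable_rpow' (a := 1) (b := 0) (r := α - 1)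
    (by linarith)).comp_sub_left 1
  simpa using h

theorem BM_int2 : IntegrableOn (fun u : ℝ => 2 * |Real.log u|) (Ioo 0 1) := by
  rw [← intervalIntegrable_iff_integrableOn_Ioo_of_le zero_le_one]
  exact (intervalIntegral.intervalIntegrable_log' (a := 0) (b := 1)).abs.const_mul 2

theorem BM_int {α b : ℝ} (h0 : 0 < α) (h1 : α < 1) : IntegrableOn
    (fun u : ℝ => (((1 - u) ^ (α - 1) - 1 : ℝ) : ℂ) * (u : ℂ) ^ (-1 - (b : ℂ) * I)) (Ioo 0 1) := by
  refine Integrable.mono' (BM_int1 h0) ?_ ?_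
  · refine Measurable.aestronglyMeasurable ?_
    fun_prop
  · refine (ae_restrict_iff' measurableSet_Ioo).2 (ae_of_all _ fun u hu => ?_)
    obtain ⟨k1, k2⟩ := BM_w h0 h1 hu.1 hu.2
    rw [norm_mul, BM_norm b hu.1, Complex.norm_real, Real.norm_eq_abs, abs_of_nonneg k1]
    exact k2

theorem BM_bd {α u : ℝ} (h0 : 0 < α) (h1 : α < 1) (hu0 : 0 < u) (hu1 : u < 1) :
    (1 - u) ^ (α - 1) * |Real.log u| ≤ (1 - u) ^ (α - 1) + 2 * |Real.log u| := by
  have hv : 0 < 1 - u := by linarith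
  have hp : 0 < (1 - u) ^ (α - 1) := Real.rpow_pos_of_pos hv _
  have hl : 0 ≤ |Real.log u| := abs_nonneg _
  rcases le_total u (1 / 2) with h | h
  · have e1 : (1 - u) ^ (α - 1) ≤ 2 := by
      have e2 : (1 - u) ^ (α - 1) ≤ (1 / 2 : ℝ) ^ (α - 1) :=
        Real.rpow_le_rpow_of_nonpos (by norm_num) (by linarith) (by linarith)
      have e3 : (1 / 2 : ℝ) ^ (α - 1) ≤ (1 / 2 : ℝ) ^ (-1 : ℝ) :=
        Real.rpow_le_rpow_of_exponent_ge (by norm_num) (by norm_num) (by linarith)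
      have e4 : (1 / 2 : ℝ) ^ (-1 : ℝ) = 2 := by
        rw [Real.rpow_neg_one]
        norm_num
      linarith
    nlinarith
  · have e1 : |Real.log u| ≤ 1 := by
      rw [abs_of_nonpos (Real.log_nonpos hu0.le hu1.le)]
      have e2 : Real.log (1 / 2) ≤ Real.log u := Real.log_le_log (by norm_num) h
      have e3 : Real.log (1 / 2) = - Real.log 2 := by
        rw [one_div, Real.log_inv]
      have e4 : Real.log 2 ≤ 1 := by
        have := Real.log_two_lt_d9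
        linarith
      linarith
    nlinarith

theorem t_BM : S_BM := by
  intro α h0 h1
  have hG := (BM_int1 h0).add BM_int2
  refine ⟨(∫ u in Ioo (0 : ℝ) 1, ((1 - u) ^ (α - 1) + 2 * |Real.log u|)) + 1, ?_, ?_⟩
  · have : 0 ≤ ∫ u in Ioo (0 : ℝ) 1, ((1 - u) ^ (α - 1) + 2 * |Real.log u|) := by
      refine setIntegral_nonneg measurableSet_Ioo fun u hu => ?_
      have := Real.rpow_nonneg (by linarith [hu.2] : (0 : ℝ) ≤ 1 - u) (α - 1)
      have := abs_nonneg (Real.log u)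
      linarith
    linarith
  · intro b hb0 hb1
    unfold Mc
    rw [intervalIntegral.integral_of_le zero_le_one, intervalIntegral.integral_of_le zero_le_one,
      integral_Ioc_eq_integral_Ioo, integral_Ioc_eq_integral_Ioo,
      ← integral_sub (BM_int h0 h1) (BM_int h0 h1)]
    have hbd : ‖∫ u in Ioo (0 : ℝ) 1, ((((1 - u) ^ (α - 1) - 1 : ℝ) : ℂ) *
        (u : ℂ) ^ (-1 - (b : ℂ) * I) - (((1 - u) ^ (α - 1) - 1 : ℝ) : ℂ) *
        (u : ℂ) ^ (-1 - ((0 : ℝ) : ℂ) * I))‖ ≤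
        ∫ u in Ioo (0 : ℝ) 1, b * ((1 - u) ^ (α - 1) + 2 * |Real.log u|) := by
      refine norm_integral_le_of_norm_le (hG.const_mul b) ?_
      refine (ae_restrict_iff' measurableSet_Ioo).2 (ae_of_all _ fun u hu => ?_)
      obtain ⟨k1, k2⟩ := BM_w h0 h1 hu.1 hu.2
      rw [← mul_sub, norm_mul, Complex.norm_real, Real.norm_eq_abs, abs_of_nonneg k1]
      have k3 := BM_diff b hb0 hu.1
      have k4 := BM_bd h0 h1 hu.1 hu.2
      have k5 : 0 ≤ b * |Real.log u| := mul_nonneg hb0.le (abs_nonneg _)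
      calc ((1 - u) ^ (α - 1) - 1) * ‖(u : ℂ) ^ (-1 - (b : ℂ) * I) -
            (u : ℂ) ^ (-1 - ((0 : ℝ) : ℂ) * I)‖
          ≤ ((1 - u) ^ (α - 1) - 1) * (u⁻¹ * (b * |Real.log u|)) :=
            mul_le_mul_of_nonneg_left k3 k1
        _ = (((1 - u) ^ (α - 1) - 1) * u⁻¹) * (b * |Real.log u|) := by ring
        _ ≤ (1 - u) ^ (α - 1) * (b * |Real.log u|) := mul_le_mul_of_nonneg_right k2 k5
        _ = b * ((1 - u) ^ (α - 1) * |Real.log u|) := by ring
        _ ≤ b * ((1 - u) ^ (α - 1) + 2 * |Real.log u|) := mul_le_mul_of_nonneg_left k4 hb0.le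
    rw [integral_const_mul] at hbd
    refine hbd.trans ?_
    nlinarith

end Pool.Agent.H212.SN
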