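import Pool.Agent.H212.SN.Stm

set_option autoImplicit false

open Complex Set Filter Topology MeasureTheory
open scoped ComplexConjugate

namespace Pool.Agent.H212.SN

lemma BN_exp (R : ℝ) (x : ℂ) (hx : ‖x‖ ≤ R) : ‖Complex.exp x - 1‖ ≤ (Real.exp R + 2) * ‖x‖ := by
  have hR : 0 < Real.exp R := Real.exp_pos R
  rcases le_or_gt ‖x‖ 1 with h | h
  · have h1 := Complex.norm_exp_sub_one_le h
    nlinarith [norm_nonneg x]
  · have h1 : ‖Complex.exp x - 1‖ ≤ ‖Complex.exp x‖ + 1 := by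
      have := norm_sub_le (Complex.exp x) 1
      simpa using this
    have h2 : ‖Complex.exp x‖ ≤ Real.exp R := by
      rw [Complex.norm_exp]
      exact Real.exp_le_exp.2 ((Complex.re_le_norm x).trans hx)
    nlinarith

lemma BN_lognorm (w : ℂ) (h1 : 1 / 2 ≤ ‖w‖) (h2 : ‖w‖ ≤ 5 / 2) : ‖Complex.log w‖ ≤ 5 := by
  have hpos : 0 < ‖w‖ := by linarith
  have h3 : Real.log ‖w‖ ≤ 3 / 2 := by
    have := Real.log_le_sub_one_of_pos hpos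
    linarith
  have h4 : -1 ≤ Real.log ‖w‖ := by
    have h5 := Real.one_sub_inv_le_log_of_pos hpos
    have h6 : ‖w‖⁻¹ ≤ 2 := by
      rw [inv_le_comm₀ hpos (by norm_num)]
      linarith
    linarith
  have h7 : |Real.log ‖w‖| ≤ 3 / 2 := abs_le.2 ⟨by linarith, h3⟩
  have h8 := Complex.norm_le_abs_re_add_abs_im (Complex.log w)
  rw [Complex.log_re, Complex.log_im] at h8
  have h9 := Complex.abs_arg_le_pi w
  have h10 := Real.pi_lt_d2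
  linarith

lemma BN_log (z : ℂ) (hz : 0 ≤ z.re) (hz2 : ‖z‖ ≤ 3 / 2) : ‖Complex.log (1 + z)‖ ≤ 10 * ‖z‖ := by
  rcases le_or_gt ‖z‖ (1 / 2) with h | h
  · have := Complex.norm_log_one_add_half_le_self h
    nlinarith [norm_nonneg z]
  · have h1 : 1 ≤ ‖1 + z‖ := by
      have := Complex.re_le_norm (1 + z)
      simp only [Complex.add_re, Complex.one_re] at this
      linarith
    have h2 : ‖1 + z‖ ≤ 5 / 2 := by
      have := norm_add_le (1 : ℂ) z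
      rw [norm_one] at this
      linarith
    have := BN_lognorm (1 + z) (by linarith) h2
    linarith

lemma BN_split (α b : ℝ) (w : ℂ) (hw : w ≠ 0) :
    w ^ (pb α b) = w ^ (pb α 0) * Complex.exp (-((b : ℂ) * I) * Complex.log w) := by
  have e : pb α b = pb α 0 + (-((b : ℂ) * I)) := by
    unfold pb
    push_cast
    ring
  rw [e, Complex.cpow_add _ _ hw]
  congr 1
  rw [Complex.cpow_def_of_ne_zero hw]
  ring_nf

/-- difference of the powers -/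
lemma BN_diff (α b : ℝ) (w : ℂ) (hw : w ≠ 0) (hb : 0 ≤ b) (hb1 : b ≤ 1) (L : ℝ)
    (hL : ‖Complex.log w‖ ≤ L) (hL5 : L ≤ 15) :
    ‖w ^ (pb α b) - w ^ (pb α 0)‖ ≤ ‖w ^ (pb α 0)‖ * ((Real.exp 15 + 2) * (b * L)) := by
  rw [BN_split α b w hw]
  have e : w ^ (pb α 0) * Complex.exp (-((b : ℂ) * I) * Complex.log w) - w ^ (pb α 0)
      = w ^ (pb α 0) * (Complex.exp (-((b : ℂ) * I) * Complex.log w) - 1) := by ring
  rw [e, norm_mul]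
  refine mul_le_mul_of_nonneg_left ?_ (norm_nonneg _)
  have hn : ‖-((b : ℂ) * I) * Complex.log w‖ = b * ‖Complex.log w‖ := by
    rw [norm_mul, norm_neg, norm_mul, Complex.norm_I, mul_one, Complex.norm_real,
      Real.norm_of_nonneg hb]
  have h0 := norm_nonneg (Complex.log w)
  have hR : 0 < Real.exp 15 := Real.exp_pos 15
  have h1 : b * ‖Complex.log w‖ ≤ b * L := mul_le_mul_of_nonneg_left hL hb
  have h2 : b * ‖Complex.log w‖ ≤ 15 := by nlinarith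
  have h3 := BN_exp 15 (-((b : ℂ) * I) * Complex.log w) (by rw [hn]; exact h2)
  rw [hn] at h3
  refine h3.trans ?_
  exact mul_le_mul_of_nonneg_left h1 (by linarith)

lemma BN_re {ξ : ℂ} (hξ : ‖ξ - 1‖ ≤ 1 / 2) : 1 / 2 ≤ ξ.re ∧ ‖ξ‖ ≤ 3 / 2 := by
  constructor
  · have := Complex.abs_re_le_norm (ξ - 1)
    simp only [Complex.sub_re, Complex.one_re] at this
    have := abs_le.1 (this.trans hξ)
    linarith
  · have := norm_add_le (ξ - 1) 1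
    simp only [sub_add_cancel, norm_one] at this
    linarith

/-- the factorisation of the second integrand -/
lemma BN_fac (α b v : ℝ) (ξ : ℂ) (hv : 0 < v) (hξ : 0 ≤ ξ.re) :
    ((v ^ (1 - α) : ℝ) : ℂ) * ((v : ℂ) + ξ) ^ (pb α b) - (v : ℂ) ^ (-1 - (b : ℂ) * I)
      = (v : ℂ) ^ (-1 - (b : ℂ) * I) * ((1 + ξ / v) ^ (pb α b) - 1) := by
  have hvc : (v : ℂ) ≠ 0 := by exact_mod_cast hv.ne'
  have h1 : (v : ℂ) + ξ = (v : ℂ) * (1 + ξ / v) := by field_simp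
  have hre : 0 < (1 + ξ / (v : ℂ)).re := by
    have : (ξ / (v : ℂ)).re = ξ.re / v := by
      rw [Complex.div_ofReal_re]
    rw [Complex.add_re, Complex.one_re, this]
    have := div_nonneg hξ hv.le
    linarith
  have hne : (1 + ξ / (v : ℂ)) ≠ 0 := by
    intro h
    rw [h] at hre
    simp at hre
  have h2 : ((v : ℂ) * (1 + ξ / v)) ^ (pb α b) = (v : ℂ) ^ (pb α b) * (1 + ξ / v) ^ (pb α b) := by
    rw [Complex.cpow_def_of_ne_zero (mul_ne_zero hvc hne), Complex.cpow_def_of_ne_zero hvc,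
      Complex.cpow_def_of_ne_zero hne, Complex.log_ofReal_mul hv hne, Complex.ofReal_log hv.le,
      add_mul, Complex.exp_add]
  have h3 : ((v ^ (1 - α) : ℝ) : ℂ) = (v : ℂ) ^ (((1 - α : ℝ)) : ℂ) := by
    rw [Complex.ofReal_cpow hv.le]
  have h4 : (v : ℂ) ^ (((1 - α : ℝ)) : ℂ) * (v : ℂ) ^ (pb α b) = (v : ℂ) ^ (-1 - (b : ℂ) * I) := by
    rw [← Complex.cpow_add _ _ hvc]
    congr 1
    unfold pb
    push_cast
    ring
  rw [h1, h2, h3, ← mul_assoc, h4]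
  ring

lemma BN_vnorm (b v : ℝ) (hv : 0 < v) : ‖(v : ℂ) ^ (-1 - (b : ℂ) * I)‖ = v⁻¹ := by
  rw [Complex.norm_cpow_eq_rpow_re_of_pos hv]
  have : (-1 - (b : ℂ) * I).re = -1 := by simp
  rw [this, Real.rpow_neg_one]

lemma BN_vdiff (b v : ℝ) (hb : 0 ≤ b) (hv : 1 ≤ v) :
    ‖(v : ℂ) ^ (-1 - (b : ℂ) * I) - (v : ℂ) ^ (-1 - ((0 : ℝ) : ℂ) * I)‖ ≤ v⁻¹ * (b * Real.log v) := by
  have hv0 : 0 < v := by linarith
  have hvc : (v : ℂ) ≠ 0 := by exact_mod_cast hv0.ne'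
  have e : (v : ℂ) ^ (-1 - (b : ℂ) * I) = (v : ℂ) ^ (-1 - ((0 : ℝ) : ℂ) * I) *
      Complex.exp (I * ((-(b * Real.log v) : ℝ) : ℂ)) := by
    rw [Complex.cpow_def_of_ne_zero hvc, Complex.cpow_def_of_ne_zero hvc, ← Complex.exp_add,
      ← Complex.ofReal_log hv0.le]
    congr 1
    push_cast
    ring
  have e2 : (v : ℂ) ^ (-1 - (b : ℂ) * I) - (v : ℂ) ^ (-1 - ((0 : ℝ) : ℂ) * I)
      = (v : ℂ) ^ (-1 - ((0 : ℝ) : ℂ) * I) * (Complex.exp (I * ((-(b * Real.log v) : ℝ) : ℂ)) - 1) := by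
    rw [e]; ring
  rw [e2, norm_mul, BN_vnorm 0 v hv0]
  refine mul_le_mul_of_nonneg_left ?_ (by positivity)
  refine (Real.norm_exp_I_mul_ofReal_sub_one_le).trans ?_
  rw [norm_neg, Real.norm_of_nonneg (mul_nonneg hb (Real.log_nonneg hv))]

lemma BN_p0 (α : ℝ) (hα0 : 0 < α) (hα : α < 1) (w : ℂ) (hw : 1 / 2 ≤ ‖w‖) : ‖w ^ (pb α 0)‖ ≤ 4 := by
  have hpos : 0 < ‖w‖ := by linarith
  have hw0 : w ≠ 0 := norm_pos_iff.1 hpos
  have hre : (pb α 0).re = -(2 - α) := by simp [pb]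
  have him : (pb α 0).im = 0 := by simp [pb]
  rw [Complex.norm_cpow_of_ne_zero hw0, hre, him, mul_zero, Real.exp_zero, div_one]
  have h1 : ‖w‖ ^ (-(2 - α)) ≤ (1 / 2 : ℝ) ^ (-(2 - α)) :=
    Real.rpow_le_rpow_of_nonpos (by norm_num) hw (by linarith)
  have h2 : (1 / 2 : ℝ) ^ (-(2 - α)) ≤ (1 / 2 : ℝ) ^ (-2 : ℝ) :=
    Real.rpow_le_rpow_of_exponent_ge (by norm_num) (by norm_num) (by linarith)
  have h3 : (1 / 2 : ℝ) ^ (-2 : ℝ) = 4 := by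
    rw [Real.rpow_neg (by norm_num), Real.rpow_two]
    norm_num
  linarith

lemma BN_cont (α b : ℝ) (hα : α < 1) (ξ : ℂ) (hξ : 1 / 2 ≤ ξ.re) :
    ContinuousOn (fun v : ℝ => ((v ^ (1 - α) : ℝ) : ℂ) * ((v : ℂ) + ξ) ^ (pb α b)) (Ici 0) := by
  apply ContinuousOn.mul
  · exact Complex.continuous_ofReal.comp_continuousOn
      (continuousOn_id.rpow_const (fun x _ => Or.inr (by linarith)))
  · apply ContinuousOn.cpow_const
    · exact (Complex.continuous_ofReal.add continuous_const).continuousOn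
    · intro v hv
      left
      have : (0 : ℝ) ≤ v := hv
      simp only [Complex.add_re, Complex.ofReal_re]
      linarith

lemma BN_gcont (α b : ℝ) (hα : α < 1) (ξ : ℂ) (hξ : 1 / 2 ≤ ξ.re) :
    ContinuousOn (fun v : ℝ => ((v ^ (1 - α) : ℝ) : ℂ) * ((v : ℂ) + ξ) ^ (pb α b)
      - (v : ℂ) ^ (-1 - (b : ℂ) * I)) (Ioi 1) := by
  apply ContinuousOn.sub
  · exact (BN_cont α b hα ξ hξ).mono (fun v hv => (show (0:ℝ) ≤ v from by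
      have : (1:ℝ) < v := hv
      linarith))
  · apply ContinuousOn.cpow_const
    · exact Complex.continuous_ofReal.continuousOn
    · intro v hv
      left
      have : (1 : ℝ) < v := hv
      simp only [Complex.ofReal_re]
      linarith

lemma BN_z (ξ : ℂ) (hξ : 1 / 2 ≤ ξ.re) (hξ2 : ‖ξ‖ ≤ 3 / 2) (v : ℝ) (hv : 1 < v) :
    0 ≤ (ξ / (v : ℂ)).re ∧ ‖ξ / (v : ℂ)‖ ≤ 3 / 2 * v⁻¹ ∧ ‖ξ / (v : ℂ)‖ ≤ 3 / 2 ∧ 0 < v⁻¹ ∧ v⁻¹ ≤ 1 := by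
  have hv0 : 0 < v := by linarith
  have h4 : 0 < v⁻¹ := inv_pos.2 hv0
  have h5 : v⁻¹ ≤ 1 := inv_le_one_of_one_le₀ hv.le
  have h2 : ‖ξ / (v : ℂ)‖ = ‖ξ‖ * v⁻¹ := by
    rw [norm_div, Complex.norm_real, Real.norm_of_nonneg hv0.le, div_eq_mul_inv]
  have h3 : ‖ξ‖ * v⁻¹ ≤ 3 / 2 * v⁻¹ := mul_le_mul_of_nonneg_right hξ2 h4.le
  refine ⟨?_, by rw [h2]; exact h3, by rw [h2]; nlinarith, h4, h5⟩
  rw [Complex.div_ofReal_re]
  exact div_nonneg (by linarith) hv0.le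

lemma BN_pb (α b : ℝ) (hα0 : 0 < α) (hα : α < 1) (hb : 0 ≤ b) (hb1 : b ≤ 1) :
    -3 ≤ (pb α b).re ∧ (pb α b).re ≤ 0 ∧ |(pb α b).im| ≤ 1 := by
  have hre : (pb α b).re = -(2 - α) := by simp [pb]
  have him : (pb α b).im = -b := by simp [pb]
  rw [hre, him, abs_neg, abs_of_nonneg hb]
  exact ⟨by linarith, by linarith, hb1⟩

lemma BN_gint (hK : S_K) (α b : ℝ) (hα0 : 0 < α) (hα : α < 1) (hb : 0 ≤ b) (hb1 : b ≤ 1) (ξ : ℂ)
    (hξ : 1 / 2 ≤ ξ.re) (hξ2 : ‖ξ‖ ≤ 3 / 2) :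
    Integrable (fun v : ℝ => ((v ^ (1 - α) : ℝ) : ℂ) * ((v : ℂ) + ξ) ^ (pb α b)
      - (v : ℂ) ^ (-1 - (b : ℂ) * I)) (volume.restrict (Ioi 1)) := by
  have hg : Integrable (fun v : ℝ => 24 * v ^ (-2 : ℝ)) (volume.restrict (Ioi 1)) :=
    (integrableOn_Ioi_rpow_of_lt (by norm_num) one_pos).const_mul 24
  refine hg.mono' ((BN_gcont α b hα ξ hξ).aestronglyMeasurable measurableSet_Ioi) ?_
  refine (ae_restrict_iff' measurableSet_Ioi).2 (Eventually.of_forall fun v hv => ?_)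
  have hv1 : 1 < v := hv
  have hv0 : 0 < v := by linarith
  obtain ⟨z1, z2, z3, z4, z5⟩ := BN_z ξ hξ hξ2 v hv1
  obtain ⟨p1, p2, p3⟩ := BN_pb α b hα0 hα hb hb1
  rw [BN_fac α b v ξ hv0 (by linarith), norm_mul, BN_vnorm b v hv0]
  have h1 := (hK (pb α b) p1 p2 p3 (ξ / v) z1).2
  have h2 : v ^ (-2 : ℝ) = v⁻¹ * v⁻¹ := by
    rw [Real.rpow_neg hv0.le, Real.rpow_two, sq, mul_inv]
  rw [h2]
  have h3 : ‖(1 + ξ / (v : ℂ)) ^ (pb α b) - 1‖ ≤ 24 * v⁻¹ := by linarith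
  have h4 := mul_le_mul_of_nonneg_left h3 z4.le
  linarith

lemma BN_gdiff (hK : S_K) (α b : ℝ) (hα0 : 0 < α) (hα : α < 1) (hb : 0 ≤ b) (hb1 : b ≤ 1) (ξ : ℂ)
    (hξ : 1 / 2 ≤ ξ.re) (hξ2 : ‖ξ‖ ≤ 3 / 2) (v : ℝ) (hv : 1 < v) :
    ‖(((v ^ (1 - α) : ℝ) : ℂ) * ((v : ℂ) + ξ) ^ (pb α b) - (v : ℂ) ^ (-1 - (b : ℂ) * I))
      - (((v ^ (1 - α) : ℝ) : ℂ) * ((v : ℂ) + ξ) ^ (pb α 0) - (v : ℂ) ^ (-1 - ((0 : ℝ) : ℂ) * I))‖
      ≤ b * (75 * (Real.exp 15 + 2) + 48) * v ^ (-(3 / 2) : ℝ) := by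
  have hv0 : 0 < v := by linarith
  have hE : 0 < Real.exp 15 + 2 := by have := Real.exp_pos 15; linarith
  obtain ⟨z1, z2, z3, z4, z5⟩ := BN_z ξ hξ hξ2 v hv
  obtain ⟨p1, p2, p3⟩ := BN_pb α 0 hα0 hα le_rfl zero_le_one
  rw [BN_fac α b v ξ hv0 (by linarith), BN_fac α 0 v ξ hv0 (by linarith)]
  have hw : (1 + ξ / (v : ℂ)) ≠ 0 := by
    intro h
    have h' := congrArg Complex.re h
    simp only [Complex.add_re, Complex.one_re, Complex.zero_re] at h'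
    linarith
  have e : (v : ℂ) ^ (-1 - (b : ℂ) * I) * ((1 + ξ / (v : ℂ)) ^ (pb α b) - 1)
      - (v : ℂ) ^ (-1 - ((0 : ℝ) : ℂ) * I) * ((1 + ξ / (v : ℂ)) ^ (pb α 0) - 1)
      = (v : ℂ) ^ (-1 - (b : ℂ) * I) * ((1 + ξ / (v : ℂ)) ^ (pb α b) - (1 + ξ / (v : ℂ)) ^ (pb α 0))
        + ((v : ℂ) ^ (-1 - (b : ℂ) * I) - (v : ℂ) ^ (-1 - ((0 : ℝ) : ℂ) * I))
          * ((1 + ξ / (v : ℂ)) ^ (pb α 0) - 1) := by ring
  rw [e]
  have k := hK (pb α 0) p1 p2 p3 (ξ / v) z1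
  have hl : ‖Complex.log (1 + ξ / (v : ℂ))‖ ≤ 15 * v⁻¹ := by
    have := BN_log (ξ / v) z1 z3
    linarith
  have d := BN_diff α b (1 + ξ / (v : ℂ)) hw hb hb1 (15 * v⁻¹) hl (by linarith)
  have d2 : ‖(1 + ξ / (v : ℂ)) ^ (pb α b) - (1 + ξ / (v : ℂ)) ^ (pb α 0)‖
      ≤ 5 * ((Real.exp 15 + 2) * (b * (15 * v⁻¹))) :=
    d.trans (mul_le_mul_of_nonneg_right k.1 (by positivity))
  have d3 : ‖(1 + ξ / (v : ℂ)) ^ (pb α 0) - 1‖ ≤ 24 * v⁻¹ := by linarith [k.2]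
  have v1 := BN_vdiff b v hb hv.le
  have hlog : 0 ≤ Real.log v := Real.log_nonneg hv.le
  have t1 : ‖(v : ℂ) ^ (-1 - (b : ℂ) * I) * ((1 + ξ / (v : ℂ)) ^ (pb α b) - (1 + ξ / (v : ℂ)) ^ (pb α 0))‖
      ≤ v⁻¹ * (5 * ((Real.exp 15 + 2) * (b * (15 * v⁻¹)))) := by
    rw [norm_mul, BN_vnorm b v hv0]
    exact mul_le_mul_of_nonneg_left d2 z4.le
  have t2 : ‖((v : ℂ) ^ (-1 - (b : ℂ) * I) - (v : ℂ) ^ (-1 - ((0 : ℝ) : ℂ) * I))
      * ((1 + ξ / (v : ℂ)) ^ (pb α 0) - 1)‖ ≤ (v⁻¹ * (b * Real.log v)) * (24 * v⁻¹) := by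
    rw [norm_mul]
    exact mul_le_mul v1 d3 (norm_nonneg _) (by positivity)
  have hvl : Real.log v ≤ 2 * v ^ (1 / 2 : ℝ) := by
    have := Real.log_le_rpow_div hv0.le (show (0:ℝ) < 1 / 2 by norm_num)
    linarith
  have r1 : v⁻¹ * v⁻¹ = v ^ (-2 : ℝ) := by
    rw [Real.rpow_neg hv0.le, Real.rpow_two, sq, mul_inv]
  have r2 : v ^ (-2 : ℝ) * v ^ (1 / 2 : ℝ) = v ^ (-(3 / 2) : ℝ) := by
    rw [← Real.rpow_add hv0]
    norm_num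
  have r3 : v ^ (-2 : ℝ) ≤ v ^ (-(3 / 2) : ℝ) := Real.rpow_le_rpow_of_exponent_le hv.le (by norm_num)
  have r4 : 0 < v ^ (-2 : ℝ) := Real.rpow_pos_of_pos hv0 _
  have s1 : v⁻¹ * (5 * ((Real.exp 15 + 2) * (b * (15 * v⁻¹))))
      ≤ b * (75 * (Real.exp 15 + 2)) * v ^ (-(3 / 2) : ℝ) := by
    have : v⁻¹ * (5 * ((Real.exp 15 + 2) * (b * (15 * v⁻¹))))
        = b * (75 * (Real.exp 15 + 2)) * (v⁻¹ * v⁻¹) := by ring
    rw [this, r1]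
    exact mul_le_mul_of_nonneg_left r3 (by positivity)
  have s2 : (v⁻¹ * (b * Real.log v)) * (24 * v⁻¹) ≤ b * 48 * v ^ (-(3 / 2) : ℝ) := by
    have : (v⁻¹ * (b * Real.log v)) * (24 * v⁻¹) = (b * 24) * ((v⁻¹ * v⁻¹) * Real.log v) := by ring
    rw [this, r1]
    have h7 : v ^ (-2 : ℝ) * Real.log v ≤ v ^ (-2 : ℝ) * (2 * v ^ (1 / 2 : ℝ)) :=
      mul_le_mul_of_nonneg_left hvl r4.le
    have h8 : v ^ (-2 : ℝ) * (2 * v ^ (1 / 2 : ℝ)) = 2 * v ^ (-(3 / 2) : ℝ) := by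
      rw [← r2]; ring
    have h9 := mul_le_mul_of_nonneg_left (h7.trans_eq h8) (show 0 ≤ b * 24 by positivity)
    linarith
  have := norm_add_le ((v : ℂ) ^ (-1 - (b : ℂ) * I) * ((1 + ξ / (v : ℂ)) ^ (pb α b) - (1 + ξ / (v : ℂ)) ^ (pb α 0)))
    (((v : ℂ) ^ (-1 - (b : ℂ) * I) - (v : ℂ) ^ (-1 - ((0 : ℝ) : ℂ) * I)) * ((1 + ξ / (v : ℂ)) ^ (pb α 0) - 1))
  linarith

theorem t_BN (hK : S_K) : S_BN := by
  intro α hα0 hα
  have hE : 0 < Real.exp 15 + 2 := by have := Real.exp_pos 15; linarith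
  set E := Real.exp 15 + 2 with hEd
  set K : ℝ := ∫ v in Ioi (1 : ℝ), v ^ (-(3 / 2) : ℝ) with hKd
  have hK0 : 0 ≤ K := by
    apply setIntegral_nonneg measurableSet_Ioi
    intro v hv
    exact Real.rpow_nonneg (by have : (1:ℝ) < v := hv; linarith) _
  refine ⟨20 * E + (75 * E + 48) * K, by positivity, ?_⟩
  intro b hb hb1 ξ hξ
  obtain ⟨hξ1, hξ2⟩ := BN_re hξ
  have i1 : ∀ b : ℝ, IntervalIntegrable
      (fun v : ℝ => ((v ^ (1 - α) : ℝ) : ℂ) * ((v : ℂ) + ξ) ^ (pb α b)) volume 0 1 := by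
    intro b
    apply ContinuousOn.intervalIntegrable
    refine (BN_cont α b hα ξ hξ1).mono (fun v hv => ?_)
    rw [Set.uIcc_of_le zero_le_one] at hv
    exact hv.1
  have g1 := BN_gint hK α b hα0 hα hb.le hb1 ξ hξ1 hξ2
  have g0 := BN_gint hK α 0 hα0 hα le_rfl zero_le_one ξ hξ1 hξ2
  have A : ‖(∫ v in (0 : ℝ)..1, ((v ^ (1 - α) : ℝ) : ℂ) * ((v : ℂ) + ξ) ^ (pb α b))
      - ∫ v in (0 : ℝ)..1, ((v ^ (1 - α) : ℝ) : ℂ) * ((v : ℂ) + ξ) ^ (pb α 0)‖ ≤ 20 * E * b := by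
    rw [← intervalIntegral.integral_sub (i1 b) (i1 0)]
    have h := intervalIntegral.norm_integral_le_of_norm_le_const (a := 0) (b := 1) (C := 20 * E * b)
      (f := fun v : ℝ => ((v ^ (1 - α) : ℝ) : ℂ) * ((v : ℂ) + ξ) ^ (pb α b)
        - ((v ^ (1 - α) : ℝ) : ℂ) * ((v : ℂ) + ξ) ^ (pb α 0)) (by
      intro v hv
      rw [Set.uIoc_of_le zero_le_one] at hv
      rw [← mul_sub, norm_mul, Complex.norm_real, Real.norm_of_nonneg (Real.rpow_nonneg hv.1.le _)]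
      have hw1 : 1 / 2 ≤ ‖(v : ℂ) + ξ‖ := by
        have := Complex.re_le_norm ((v : ℂ) + ξ)
        simp only [Complex.add_re, Complex.ofReal_re] at this
        linarith [hv.1]
      have hw2 : ‖(v : ℂ) + ξ‖ ≤ 5 / 2 := by
        have := norm_add_le (v : ℂ) ξ
        rw [Complex.norm_real, Real.norm_of_nonneg hv.1.le] at this
        linarith [hv.2]
      have hw0 : (v : ℂ) + ξ ≠ 0 := norm_pos_iff.1 (by linarith)
      have d := BN_diff α b ((v : ℂ) + ξ) hw0 hb.le hb1 5 (BN_lognorm _ hw1 hw2) (by norm_num)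
      have d2 := d.trans (mul_le_mul_of_nonneg_right (BN_p0 α hα0 hα _ hw1) (by positivity))
      have r : v ^ (1 - α) ≤ 1 := Real.rpow_le_one hv.1.le hv.2 (by linarith)
      have r0 : 0 ≤ v ^ (1 - α) := Real.rpow_nonneg hv.1.le _
      calc v ^ (1 - α) * ‖((v : ℂ) + ξ) ^ (pb α b) - ((v : ℂ) + ξ) ^ (pb α 0)‖
          ≤ 1 * (4 * ((Real.exp 15 + 2) * (b * 5))) :=
            mul_le_mul r d2 (norm_nonneg _) zero_le_one
        _ = 20 * E * b := by rw [hEd]; ring)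
    simpa using h
  have B : ‖(∫ v in Set.Ioi (1 : ℝ), (((v ^ (1 - α) : ℝ) : ℂ) * ((v : ℂ) + ξ) ^ (pb α b) - (v : ℂ) ^ (-1 - (b : ℂ) * I)))
      - ∫ v in Set.Ioi (1 : ℝ), (((v ^ (1 - α) : ℝ) : ℂ) * ((v : ℂ) + ξ) ^ (pb α 0) - (v : ℂ) ^ (-1 - ((0 : ℝ) : ℂ) * I))‖
      ≤ b * (75 * E + 48) * K := by
    rw [← integral_sub g1 g0, hKd, ← integral_const_mul]
    apply norm_integral_le_of_norm_le
    · exact (integrableOn_Ioi_rpow_of_lt (by norm_num) one_pos).const_mul _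
    · refine (ae_restrict_iff' measurableSet_Ioi).2 (Eventually.of_forall fun v hv => ?_)
      exact BN_gdiff hK α b hα0 hα hb.le hb1 ξ hξ1 hξ2 v hv
  have e : Nc α b ξ - Nc α 0 ξ
      = ((∫ v in (0 : ℝ)..1, ((v ^ (1 - α) : ℝ) : ℂ) * ((v : ℂ) + ξ) ^ (pb α b))
      - ∫ v in (0 : ℝ)..1, ((v ^ (1 - α) : ℝ) : ℂ) * ((v : ℂ) + ξ) ^ (pb α 0))
      + ((∫ v in Set.Ioi (1 : ℝ), (((v ^ (1 - α) : ℝ) : ℂ) * ((v : ℂ) + ξ) ^ (pb α b) - (v : ℂ) ^ (-1 - (b : ℂ) * I)))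
      - ∫ v in Set.Ioi (1 : ℝ), (((v ^ (1 - α) : ℝ) : ℂ) * ((v : ℂ) + ξ) ^ (pb α 0) - (v : ℂ) ^ (-1 - ((0 : ℝ) : ℂ) * I))) := by
    unfold Nc
    ring
  rw [e]
  refine (norm_add_le _ _).trans ?_
  linarith

end Pool.Agent.H212.SN
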