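import Pool.Agent.H212.SN.Stm

/-!
# COEF: Taylor coefficients of the two-atom star-like functions
-/

open Complex Set Filter Topology MeasureTheory
open scoped ComplexConjugate

namespace Pool.Agent.H212.SN

theorem COEF_slit {x z : ℂ} (hx : ‖x‖ ≤ 1) (hz : ‖z‖ < 1) : 1 - x * z ∈ slitPlane := by
  left
  have h1 : (x * z).re ≤ ‖x * z‖ := Complex.re_le_norm _
  have h2 : ‖x * z‖ < 1 := by
    rw [norm_mul]
    calc ‖x‖ * ‖z‖ ≤ 1 * ‖z‖ := mul_le_mul_of_nonneg_right hx (norm_nonneg _)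
      _ < 1 := by linarith
  rw [Complex.sub_re, Complex.one_re]
  linarith

theorem COEF_diff (α : ℝ) {x y : ℂ} (hx : ‖x‖ ≤ 1) (hy : ‖y‖ ≤ 1) :
    DifferentiableOn ℂ (Ff α x y) (Metric.ball 0 1) := by
  intro z hz
  rw [mem_ball_zero_iff] at hz
  refine DifferentiableAt.differentiableWithinAt ?_
  unfold Ff
  have h1 : DifferentiableAt ℂ (fun z : ℂ => (1 - x * z) ^ (-(α : ℂ))) z :=
    DifferentiableAt.cpow_const (by fun_prop) (COEF_slit hx hz)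
  have h2 : DifferentiableAt ℂ (fun z : ℂ => (1 - y * z) ^ (-(2 - (α : ℂ)))) z :=
    DifferentiableAt.cpow_const (by fun_prop) (COEF_slit hy hz)
  exact (differentiableAt_id.mul h1).mul h2

theorem COEF_m {x y : ℂ} (hx : ‖x‖ ≤ 1) (hy : ‖y‖ ≤ 1) {s : ℝ} (h0 : 0 ≤ s) (h1 : s ≤ 1) :
    ‖(s : ℂ) * x + (1 - s) * y‖ ≤ 1 := by
  have e : (1 - (s : ℂ)) = ((1 - s : ℝ) : ℂ) := by push_cast; ring
  calc ‖(s : ℂ) * x + (1 - s) * y‖ ≤ ‖(s : ℂ) * x‖ + ‖(1 - (s : ℂ)) * y‖ := norm_add_le _ _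
    _ = s * ‖x‖ + (1 - s) * ‖y‖ := by
        rw [e, norm_mul, norm_mul, Complex.norm_real, Complex.norm_real, Real.norm_of_nonneg h0,
          Real.norm_of_nonneg (by linarith)]
    _ ≤ s * 1 + (1 - s) * 1 :=
        add_le_add (mul_le_mul_of_nonneg_left hx h0) (mul_le_mul_of_nonneg_left hy (by linarith))
    _ = 1 := by ring

theorem COEF_geo {w : ℂ} (hw : ‖w‖ < 1) :
    HasSum (fun n : ℕ => ((n + 1 : ℕ) : ℂ) * w ^ n) (1 / (1 - w) ^ 2) := by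
  have h := hasSum_choose_mul_geometric_of_norm_lt_one 1 hw
  simpa [Nat.choose_one_right] using h

theorem COEF_geoR {w : ℝ} (h0 : 0 ≤ w) (hw : w < 1) :
    Summable (fun n : ℕ => ((n + 1 : ℕ) : ℝ) * w ^ n) := by
  have h := hasSum_choose_mul_geometric_of_norm_lt_one 1 (r := w)
    (by rwa [Real.norm_of_nonneg h0])
  have h2 := h.summable
  simpa [Nat.choose_one_right] using h2

theorem COEF_int (hBC : S_BC) {α : ℝ} (hα : 0 < α) (hα1 : α < 1) {x y z : ℂ} (hx : ‖x‖ ≤ 1)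
    (hy : ‖y‖ ≤ 1) (hz : ‖z‖ < 1) :
    HasSum (fun n : ℕ => ∫ s in (0 : ℝ)..1, ((wt α s : ℝ) : ℂ) *
        (((n + 1 : ℕ) : ℂ) * (((s : ℂ) * x + (1 - s) * y) * z) ^ n))
      (∫ s in (0 : ℝ)..1, ((wt α s : ℝ) : ℂ) / (1 - ((s : ℂ) * x + (1 - s) * y) * z) ^ 2) := by
  have hint := (hBC α hα hα1).1
  have hmeas : AEStronglyMeasurable (fun s => ((wt α s : ℝ) : ℂ)) (volume.restrict (uIoc (0 : ℝ) 1)) :=
    Complex.continuous_ofReal.comp_aestronglyMeasurable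
      (intervalIntegrable_iff.1 hint).aestronglyMeasurable
  have hmz : ∀ s ∈ uIoc (0 : ℝ) 1, ‖((s : ℂ) * x + (1 - s) * y) * z‖ ≤ ‖z‖ := by
    intro s hs
    rw [uIoc_of_le zero_le_one] at hs
    rw [norm_mul]
    calc ‖(s : ℂ) * x + (1 - s) * y‖ * ‖z‖ ≤ 1 * ‖z‖ :=
          mul_le_mul_of_nonneg_right (COEF_m hx hy hs.1.le hs.2) (norm_nonneg _)
      _ = ‖z‖ := one_mul _
  refine intervalIntegral.hasSum_integral_of_dominated_convergence
    (fun n s => |wt α s| * (((n + 1 : ℕ) : ℝ) * ‖z‖ ^ n)) ?_ ?_ ?_ ?_ ?_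
  · intro n
    refine hmeas.mul ?_
    refine Continuous.aestronglyMeasurable ?_
    fun_prop
  · intro n
    refine Filter.Eventually.of_forall fun s hs => ?_
    rw [norm_mul, norm_mul, norm_pow, Complex.norm_real, Real.norm_eq_abs, Complex.norm_natCast]
    refine mul_le_mul_of_nonneg_left ?_ (abs_nonneg _)
    refine mul_le_mul_of_nonneg_left ?_ (Nat.cast_nonneg _)
    exact pow_le_pow_left₀ (norm_nonneg _) (hmz s hs) n
  · refine Filter.Eventually.of_forall fun s _ => ?_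
    exact (COEF_geoR (norm_nonneg z) hz).mul_left _
  · have e : (fun s => ∑' n : ℕ, |wt α s| * (((n + 1 : ℕ) : ℝ) * ‖z‖ ^ n)) =
        fun s => |wt α s| * ∑' n : ℕ, (((n + 1 : ℕ) : ℝ) * ‖z‖ ^ n) := by
      funext s
      exact tsum_mul_left
    rw [e]
    exact hint.abs.mul_const _
  · refine Filter.Eventually.of_forall fun s hs => ?_
    have h := (COEF_geo ((hmz s hs).trans_lt hz)).mul_left ((wt α s : ℝ) : ℂ)
    rw [mul_one_div] at h
    exact h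

/-- the coefficients -/
noncomputable def COEF_a (α : ℝ) (x y : ℂ) : ℕ → ℂ
  | 0 => 0
  | n + 1 => ((n + 1 : ℕ) : ℂ) / (Bc α : ℂ) *
      ∫ s in (0 : ℝ)..1, ((wt α s : ℝ) : ℂ) * ((s : ℂ) * x + (1 - s) * y) ^ n

theorem COEF_sum (hFEY : S_FEY) (hBC : S_BC) {α : ℝ} (hα : 0 < α) (hα1 : α < 1) {x y z : ℂ}
    (hx : ‖x‖ ≤ 1) (hy : ‖y‖ ≤ 1) (hz : ‖z‖ < 1) :
    HasSum (fun n : ℕ => z ^ n * COEF_a α x y n) (Ff α x y z) := by
  have hB : (Bc α : ℂ) ≠ 0 := Complex.ofReal_ne_zero.2 (hBC α hα hα1).2.ne'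
  have h1 := (COEF_int hBC hα hα1 hx hy hz).mul_left (z / (Bc α : ℂ))
  rw [hFEY α x y z hα hα1 hx hy hz] at h1
  have e1 : z / (Bc α : ℂ) * ((Bc α : ℂ) * (1 - x * z) ^ (-(α : ℂ)) * (1 - y * z) ^ (-(2 - (α : ℂ)))) =
      Ff α x y z := by
    unfold Ff
    calc z / (Bc α : ℂ) * ((Bc α : ℂ) * (1 - x * z) ^ (-(α : ℂ)) * (1 - y * z) ^ (-(2 - (α : ℂ))))
        = (z / (Bc α : ℂ) * (Bc α : ℂ)) * (1 - x * z) ^ (-(α : ℂ)) * (1 - y * z) ^ (-(2 - (α : ℂ))) := by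
          ring
      _ = _ := by rw [div_mul_cancel₀ _ hB]
  rw [e1] at h1
  have e2 : (fun n : ℕ => z / (Bc α : ℂ) * ∫ s in (0 : ℝ)..1, ((wt α s : ℝ) : ℂ) *
        (((n + 1 : ℕ) : ℂ) * (((s : ℂ) * x + (1 - s) * y) * z) ^ n)) =
      fun n : ℕ => z ^ (n + 1) * COEF_a α x y (n + 1) := by
    funext n
    have e3 : (fun s : ℝ => ((wt α s : ℝ) : ℂ) *
        (((n + 1 : ℕ) : ℂ) * (((s : ℂ) * x + (1 - s) * y) * z) ^ n)) =
        fun s : ℝ => (((n + 1 : ℕ) : ℂ) * z ^ n) *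
          (((wt α s : ℝ) : ℂ) * ((s : ℂ) * x + (1 - s) * y) ^ n) := by
      funext s
      rw [mul_pow]
      ring
    rw [e3, intervalIntegral.integral_const_mul]
    show _ = z ^ (n + 1) * (((n + 1 : ℕ) : ℂ) / (Bc α : ℂ) *
      ∫ s in (0 : ℝ)..1, ((wt α s : ℝ) : ℂ) * ((s : ℂ) * x + (1 - s) * y) ^ n)
    rw [pow_succ]
    ring
  rw [e2] at h1
  have h2 := (hasSum_nat_add_iff (f := fun n : ℕ => z ^ n * COEF_a α x y n) 1).1 h1
  rw [Finset.sum_range_one] at h2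
  have e4 : z ^ 0 * COEF_a α x y 0 = 0 := by
    show z ^ 0 * (0 : ℂ) = 0
    rw [mul_zero]
  rw [e4, add_zero] at h2
  exact h2

theorem t_COEF (hFEY : S_FEY) (hBC : S_BC) : S_COEF := by
  intro α x y hα hα1 hx hy
  have hd := COEF_diff α hx hy
  have han : AnalyticAt ℂ (Ff α x y) 0 := hd.analyticAt (Metric.ball_mem_nhds 0 one_pos)
  have hp1 := han.hasFPowerSeriesAt
  have hp2 : HasFPowerSeriesAt (Ff α x y) (FormalMultilinearSeries.ofScalars ℂ (COEF_a α x y)) 0 := by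
    rw [hasFPowerSeriesAt_iff]
    filter_upwards [Metric.ball_mem_nhds (0 : ℂ) one_pos] with z hz
    rw [mem_ball_zero_iff] at hz
    have h := COEF_sum hFEY hBC hα hα1 hx hy hz
    rw [zero_add]
    simpa only [FormalMultilinearSeries.coeff_ofScalars, smul_eq_mul] using h
  have heq := hp1.eq_formalMultilinearSeries hp2
  have hc : ∀ n, cf (Ff α x y) n = COEF_a α x y n := by
    intro n
    have h := congrArg (fun p => FormalMultilinearSeries.coeff p n) heq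
    simp only [FormalMultilinearSeries.coeff_ofScalars] at h
    exact h
  exact ⟨hd, hc 0, fun n => hc (n + 1)⟩

end Pool.Agent.H212.SN
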