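import Pool.Agent.H212.SN.Stm

set_option autoImplicit false

open Complex Set Filter Topology MeasureTheory
open scoped ComplexConjugate

namespace Pool.Agent.H212.SN

theorem CORE_circle (hRE : S_RE) (hANN : S_ANN) (α : ℝ) (h0 : 0 < α) (h1 : α < 1) (R : ℝ)
    (hR : 0 < R) : ∃ ρ δ : ℝ, 0 < ρ ∧ ρ ≤ R ∧ ρ ≤ 1 / 4 ∧ 0 < δ ∧
      ∀ ξ : ℂ, ‖ξ - 1‖ = ρ → δ ≤ ‖Nc α 0 ξ - Nc α 0 1‖ := by
  have hU : IsOpen {ξ : ℂ | 0 < ξ.re} := isOpen_lt continuous_const Complex.continuous_re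
  have hd : DifferentiableOn ℂ (fun ξ => Nc α 0 ξ - Nc α 0 1) {ξ : ℂ | 0 < ξ.re} :=
    (hANN α h0 h1).sub_const _
  have ha := hd.analyticOnNhd hU
  have hpre : IsPreconnected {ξ : ℂ | 0 < ξ.re} := (convex_halfSpace_re_gt 0).isPreconnected
  have h1U : (1 : ℂ) ∈ {ξ : ℂ | 0 < ξ.re} := by
    show (0 : ℝ) < (1 : ℂ).re
    rw [Complex.one_re]
    exact one_pos
  have hne : ∀ᶠ z in 𝓝[≠] (1 : ℂ), Nc α 0 z - Nc α 0 1 ≠ 0 := by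
    by_contra hc
    have hf : ∃ᶠ z in 𝓝[≠] (1 : ℂ), Nc α 0 z - Nc α 0 1 = 0 := hc
    have hz := ha.eqOn_zero_of_preconnected_of_frequently_eq_zero hpre h1U hf
    have h3 : ((3 / 2 : ℂ)) ∈ {ξ : ℂ | 0 < ξ.re} := by
      have e : (3 / 2 : ℂ) = ((3 / 2 : ℝ) : ℂ) := by push_cast; ring
      rw [e]
      show (0 : ℝ) < (((3 / 2 : ℝ) : ℂ)).re
      rw [Complex.ofReal_re]
      norm_num
    exact (hRE α h0 h1).2.2 (sub_eq_zero.1 (hz h3))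
  rw [eventually_nhdsWithin_iff, Metric.eventually_nhds_iff] at hne
  obtain ⟨r, hr, hball⟩ := hne
  have hρ : 0 < min (r / 2) (min R (1 / 4)) :=
    lt_min (by linarith) (lt_min hR (by norm_num))
  obtain ⟨ρ, hρe⟩ : ∃ ρ, ρ = min (r / 2) (min R (1 / 4)) := ⟨_, rfl⟩
  rw [← hρe] at hρ
  have a1 : ρ ≤ r / 2 := by rw [hρe]; exact min_le_left _ _
  have a2 : ρ ≤ R := by rw [hρe]; exact (min_le_right _ _).trans (min_le_left _ _)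
  have a3 : ρ ≤ 1 / 4 := by rw [hρe]; exact (min_le_right _ _).trans (min_le_right _ _)
  have hsub : Metric.sphere (1 : ℂ) ρ ⊆ {ξ : ℂ | 0 < ξ.re} := by
    intro ξ hξ
    rw [mem_sphere_iff_norm] at hξ
    have h := (Complex.abs_re_le_norm (ξ - 1))
    rw [hξ, Complex.sub_re, Complex.one_re, abs_le] at h
    show 0 < ξ.re
    linarith [h.1]
  have hcont : ContinuousOn (fun ξ => ‖Nc α 0 ξ - Nc α 0 1‖) (Metric.sphere (1 : ℂ) ρ) :=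
    (hd.continuousOn.mono hsub).norm
  have hnonempty : (Metric.sphere (1 : ℂ) ρ).Nonempty := by
    refine ⟨1 + (ρ : ℂ), ?_⟩
    rw [mem_sphere_iff_norm, add_sub_cancel_left, Complex.norm_real, Real.norm_eq_abs,
      abs_of_pos hρ]
  obtain ⟨ξ₀, hξ₀, hmin⟩ := (isCompact_sphere (1 : ℂ) ρ).exists_isMinOn hnonempty hcont
  refine ⟨ρ, ‖Nc α 0 ξ₀ - Nc α 0 1‖, hρ, a2, a3, ?_, ?_⟩
  · have h2 : dist ξ₀ 1 < r := by
      rw [Metric.mem_sphere] at hξ₀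
      rw [hξ₀]
      linarith
    have h3 : ξ₀ ∈ ({1}ᶜ : Set ℂ) := by
      intro h4
      have h5 : ξ₀ = 1 := h4
      rw [mem_sphere_iff_norm, h5, sub_self, norm_zero] at hξ₀
      linarith
    exact norm_pos_iff.2 (hball h2 h3)
  · intro ξ hξ
    exact hmin (mem_sphere_iff_norm.2 hξ)

theorem CORE_phi (b θ : ℝ) (hb : 0 < b) (hbθ : b * |θ| ≤ 1) (M M0 n : ℂ) (C : ℝ)
    (hM : ‖M - M0‖ ≤ C * b) (hn : (θ : ℂ) = n + M0) :
    ‖(exp ((b * θ : ℝ) * I) * (1 - (b : ℂ) * I * M) - 1) / ((b : ℂ) * I) - n‖ ≤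
      (θ ^ 2 + C + 2 * |θ| * ‖M0‖) * b := by
  have hbI : (b : ℂ) * I ≠ 0 := mul_ne_zero (Complex.ofReal_ne_zero.2 hb.ne') I_ne_zero
  have hx : ‖((b * θ : ℝ) : ℂ) * I‖ = b * |θ| := by
    rw [norm_mul, Complex.norm_I, mul_one, Complex.norm_real, Real.norm_eq_abs, abs_mul,
      abs_of_pos hb]
  have e1 : ‖exp (((b * θ : ℝ) : ℂ) * I) - 1 - ((b * θ : ℝ) : ℂ) * I‖ ≤ (b * |θ|) ^ 2 := by
    have h := Complex.norm_exp_sub_one_sub_id_le (x := ((b * θ : ℝ) : ℂ) * I) (by rw [hx]; exact hbθ)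
    rw [hx] at h
    exact h
  have e2 : ‖exp (((b * θ : ℝ) : ℂ) * I) - 1‖ ≤ 2 * (b * |θ|) := by
    have h := Complex.norm_exp_sub_one_le (x := ((b * θ : ℝ) : ℂ) * I) (by rw [hx]; exact hbθ)
    rw [hx] at h
    exact h
  have hE : ‖exp (((b * θ : ℝ) : ℂ) * I)‖ = 1 := Complex.norm_exp_ofReal_mul_I _
  have e3 : (exp (((b * θ : ℝ) : ℂ) * I) * (1 - (b : ℂ) * I * M) - 1) / ((b : ℂ) * I) - n =
      (exp (((b * θ : ℝ) : ℂ) * I) - 1 - ((b * θ : ℝ) : ℂ) * I) / ((b : ℂ) * I) -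
        exp (((b * θ : ℝ) : ℂ) * I) * (M - M0) - (exp (((b * θ : ℝ) : ℂ) * I) - 1) * M0 := by
    have hn' : n = (θ : ℂ) - M0 := by rw [hn]; ring
    rw [hn']
    have hb' : (b : ℂ) ≠ 0 := Complex.ofReal_ne_zero.2 hb.ne'
    have hI : I ≠ 0 := I_ne_zero
    push_cast
    field_simp
    ring
  rw [e3]
  have n1 : ‖(exp (((b * θ : ℝ) : ℂ) * I) - 1 - ((b * θ : ℝ) : ℂ) * I) / ((b : ℂ) * I)‖ ≤
      θ ^ 2 * b := by
    rw [norm_div, norm_mul, Complex.norm_I, mul_one, Complex.norm_real, Real.norm_eq_abs,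
      abs_of_pos hb, div_le_iff₀ hb]
    refine e1.trans (le_of_eq ?_)
    rw [mul_pow, sq_abs]
    ring
  have n2 : ‖exp (((b * θ : ℝ) : ℂ) * I) * (M - M0)‖ ≤ C * b := by
    rw [norm_mul, hE, one_mul]
    exact hM
  have n3 : ‖(exp (((b * θ : ℝ) : ℂ) * I) - 1) * M0‖ ≤ 2 * |θ| * ‖M0‖ * b := by
    rw [norm_mul]
    calc ‖exp (((b * θ : ℝ) : ℂ) * I) - 1‖ * ‖M0‖ ≤ 2 * (b * |θ|) * ‖M0‖ :=
        mul_le_mul_of_nonneg_right e2 (norm_nonneg _)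
      _ = 2 * |θ| * ‖M0‖ * b := by ring
  calc _ ≤ ‖(exp (((b * θ : ℝ) : ℂ) * I) - 1 - ((b * θ : ℝ) : ℂ) * I) / ((b : ℂ) * I) -
        exp (((b * θ : ℝ) : ℂ) * I) * (M - M0)‖ + ‖(exp (((b * θ : ℝ) : ℂ) * I) - 1) * M0‖ :=
        norm_sub_le _ _
    _ ≤ (‖(exp (((b * θ : ℝ) : ℂ) * I) - 1 - ((b * θ : ℝ) : ℂ) * I) / ((b : ℂ) * I)‖ +
        ‖exp (((b * θ : ℝ) : ℂ) * I) * (M - M0)‖) + ‖(exp (((b * θ : ℝ) : ℂ) * I) - 1) * M0‖ :=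
        add_le_add (norm_sub_le _ _) le_rfl
    _ ≤ (θ ^ 2 * b + C * b) + 2 * |θ| * ‖M0‖ * b := add_le_add (add_le_add n1 n2) n3
    _ = _ := by ring

/-- the times -/
theorem CORE_time (b θ t1 : ℝ) (hb : 0 < b) (ht1 : 0 < t1) : ∃ t : ℝ, 0 < t ∧ t < t1 ∧
    (t : ℂ) ^ (-((b : ℂ) * I)) = exp (-(((b * θ : ℝ) : ℂ) * I)) := by
  obtain ⟨k, hk⟩ := exists_nat_gt ((θ - Real.log t1) * b / (2 * Real.pi))
  have hπ : 0 < 2 * Real.pi := by positivity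
  refine ⟨Real.exp (θ - 2 * Real.pi * k / b), Real.exp_pos _, ?_, ?_⟩
  · rw [← Real.lt_log_iff_exp_lt ht1]
    rw [div_lt_iff₀ hπ] at hk
    have h2 : θ - Real.log t1 < 2 * Real.pi * k / b := by
      rw [lt_div_iff₀ hb]
      linarith
    linarith
  · have hne : ((Real.exp (θ - 2 * Real.pi * k / b) : ℝ) : ℂ) ≠ 0 :=
      Complex.ofReal_ne_zero.2 (Real.exp_pos _).ne'
    rw [Complex.cpow_def_of_ne_zero hne, ← Complex.ofReal_log (Real.exp_pos _).le, Real.log_exp]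
    have hb' : (b : ℂ) ≠ 0 := Complex.ofReal_ne_zero.2 hb.ne'
    have e : ((θ - 2 * Real.pi * k / b : ℝ) : ℂ) * -((b : ℂ) * I) =
        -(((b * θ : ℝ) : ℂ) * I) + (k : ℤ) * (2 * Real.pi * I) := by
      push_cast
      field_simp
      ring
    rw [e]
    exact (Complex.exp_periodic.int_mul (k : ℤ)) _

theorem CORE_alg (E M c : ℂ) (hc : c ≠ 0) :
    (E * (1 - c * M) - 1) / c = E * (1 / c - M) - 1 / c := by
  field_simp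

theorem t_CORE (hLT : S_LT) (hBM : S_BM) (hBN : S_BN) (hRE : S_RE) (hANN : S_ANN) (hANP : S_ANP)
    (hMM : S_MM) : S_CORE := by
  intro α h0 h1 ε hε
  obtain ⟨ρ, δ, hρ, hρR, hρ4, hδ, hcirc⟩ := CORE_circle hRE hANN α h0 h1 (ε / 8) (by linarith)
  obtain ⟨C₁, hC₁, hBM'⟩ := hBM α h0 h1
  obtain ⟨C₂, hC₂, hBN'⟩ := hBN α h0 h1
  obtain ⟨r1, r2, -⟩ := hRE α h0 h1
  set M0 := Mc α 0 with hM0
  set n1 := Nc α 0 1 with hn1
  obtain ⟨θ, hθ⟩ : ∃ θ : ℝ, (θ : ℂ) = n1 + M0 := by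
    refine ⟨n1.re + M0.re, ?_⟩
    apply Complex.ext
    · rw [Complex.ofReal_re, Complex.add_re]
    · rw [Complex.ofReal_im, Complex.add_im, r1, r2, add_zero]
  obtain ⟨K, hK⟩ : ∃ K : ℝ, K = C₂ + (θ ^ 2 + C₁ + 2 * |θ| * ‖M0‖) := ⟨_, rfl⟩
  have hKpos : 0 < K := by
    rw [hK]
    positivity
  obtain ⟨b, hb0, hbε, hb1, hbθ, hbK⟩ : ∃ b : ℝ, 0 < b ∧ b < ε ∧ b ≤ 1 ∧ b * |θ| ≤ 1 ∧
      K * b ≤ δ / 8 := by
    refine ⟨min (min (ε / 2) 1) (min (1 / (|θ| + 1)) (δ / (8 * K))), ?_, ?_, ?_, ?_, ?_⟩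
    · exact lt_min (lt_min (by linarith) one_pos) (lt_min (by positivity) (by positivity))
    · exact lt_of_le_of_lt ((min_le_left _ _).trans (min_le_left _ _)) (by linarith)
    · exact (min_le_left _ _).trans (min_le_right _ _)
    · have h : min (min (ε / 2) 1) (min (1 / (|θ| + 1)) (δ / (8 * K))) ≤ 1 / (|θ| + 1) :=
        (min_le_right _ _).trans (min_le_left _ _)
      calc _ ≤ 1 / (|θ| + 1) * |θ| := mul_le_mul_of_nonneg_right h (abs_nonneg _)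
        _ ≤ 1 := by
          rw [one_div, inv_mul_le_iff₀ (by positivity)]
          linarith
    · have h : min (min (ε / 2) 1) (min (1 / (|θ| + 1)) (δ / (8 * K))) ≤ δ / (8 * K) :=
        (min_le_right _ _).trans (min_le_right _ _)
      calc _ ≤ K * (δ / (8 * K)) := mul_le_mul_of_nonneg_left h hKpos.le
        _ = δ / 8 := by field_simp
  obtain ⟨φ, hφ⟩ : ∃ φ : ℂ, φ = (exp ((b * θ : ℝ) * I) * (1 - (b : ℂ) * I * Mc α b) - 1) /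
      ((b : ℂ) * I) := ⟨_, rfl⟩
  have hφ1 : ‖φ - n1‖ ≤ (θ ^ 2 + C₁ + 2 * |θ| * ‖M0‖) * b := by
    rw [hφ]
    exact CORE_phi b θ hb0 hbθ (Mc α b) M0 n1 C₁ (hBM' b hb0 hb1) hθ
  have hG : ∀ ξ : ℂ, ‖ξ - 1‖ ≤ 1 / 2 → ‖(Nc α b ξ - φ) - (Nc α 0 ξ - n1)‖ ≤ δ / 8 := by
    intro ξ hξ
    have e : (Nc α b ξ - φ) - (Nc α 0 ξ - n1) = (Nc α b ξ - Nc α 0 ξ) - (φ - n1) := by ring
    rw [e]
    refine (norm_sub_le _ _).trans (le_trans (add_le_add (hBN' b hb0 hb1 ξ hξ) hφ1) ?_)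
    refine le_trans (le_of_eq ?_) hbK
    rw [hK]
    ring
  obtain ⟨t0, ht0, hLT'⟩ := hLT α b h0 h1 hb0 hb1 (δ / 8) (by linarith)
  obtain ⟨t, ht, htt, htc⟩ := CORE_time b θ (min t0 (ε / 2)) hb0 (lt_min ht0 (by linarith))
  have htt0 : t < t0 := lt_of_lt_of_le htt (min_le_left _ _)
  have htε : t < ε / 2 := lt_of_lt_of_le htt (min_le_right _ _)
  have hbI : (b : ℂ) * I ≠ 0 := mul_ne_zero (Complex.ofReal_ne_zero.2 hb0.ne') I_ne_zero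
  have hid : ∀ ξ : ℂ, -1 / ((b : ℂ) * I) + Mc α b +
      (t : ℂ) ^ (-((b : ℂ) * I)) * (1 / ((b : ℂ) * I) + Nc α b ξ) =
      exp (-(((b * θ : ℝ) : ℂ) * I)) * (Nc α b ξ - φ) := by
    intro ξ
    have hee : exp (-(((b * θ : ℝ) : ℂ) * I)) * exp (((b * θ : ℝ) : ℂ) * I) = 1 := by
      rw [← Complex.exp_add, neg_add_cancel, Complex.exp_zero]
    rw [htc, hφ]
    rw [CORE_alg _ _ _ hbI]
    have hd2 : -1 / ((b : ℂ) * I) = -(1 / ((b : ℂ) * I)) := by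
      rw [neg_div]
    rw [hd2]
    linear_combination (1 / ((b : ℂ) * I) - Mc α b) * hee
  have hnE : ∀ w : ℂ, ‖exp (-(((b * θ : ℝ) : ℂ) * I)) * w‖ = ‖w‖ := by
    intro w
    have e : -(((b * θ : ℝ) : ℂ) * I) = ((-(b * θ) : ℝ) : ℂ) * I := by
      push_cast
      ring
    rw [norm_mul, e, Complex.norm_exp_ofReal_mul_I, one_mul]
  have hP : ∀ ξ : ℂ, ‖ξ - 1‖ ≤ 1 / 2 →
      ‖Psi α b ((t : ℂ) * ξ) - exp (-(((b * θ : ℝ) : ℂ) * I)) * (Nc α b ξ - φ)‖ ≤ δ / 8 := by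
    intro ξ hξ
    have h := hLT' t ht htt0 ξ hξ
    rw [hid ξ] at h
    exact h
  have hmap : ∀ ξ ∈ Metric.closedBall (1 : ℂ) ρ, 3 / 4 ≤ ξ.re := by
    intro ξ hξ
    rw [mem_closedBall_iff_norm] at hξ
    have h := (Complex.abs_re_le_norm (ξ - 1)).trans hξ
    rw [Complex.sub_re, Complex.one_re, abs_le] at h
    linarith [h.1]
  have hdiff : DifferentiableOn ℂ (fun ξ : ℂ => Psi α b ((t : ℂ) * ξ))
      (Metric.closedBall 1 ρ) := by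
    refine (hANP α b h0 h1 hb0 hb1).comp ((differentiable_id.const_mul (t : ℂ)).differentiableOn)
      ?_
    intro ξ hξ
    show 0 < ((t : ℂ) * ξ).re
    rw [Complex.re_ofReal_mul]
    have := hmap ξ hξ
    exact mul_pos ht (by linarith)
  obtain ⟨ξ, hξ, hz⟩ := hMM (fun ξ : ℂ => Psi α b ((t : ℂ) * ξ)) 1 ρ (3 * δ / 4) hρ hdiff (by
    intro ξ hξ
    have hξ' : ‖ξ - 1‖ ≤ 1 / 2 := by
      rw [hξ]
      linarith
    have q1 := hP ξ hξ'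
    have q2 := hG ξ hξ'
    have q3 := hcirc ξ hξ
    have q4 : ‖Nc α 0 ξ - n1‖ ≤ ‖Nc α b ξ - φ‖ + ‖(Nc α b ξ - φ) - (Nc α 0 ξ - n1)‖ := by
      have e : Nc α 0 ξ - n1 = (Nc α b ξ - φ) - ((Nc α b ξ - φ) - (Nc α 0 ξ - n1)) := by ring
      calc ‖Nc α 0 ξ - n1‖ = ‖(Nc α b ξ - φ) - ((Nc α b ξ - φ) - (Nc α 0 ξ - n1))‖ := by
            rw [← e]
        _ ≤ _ := norm_sub_le _ _
    have q5 : ‖exp (-(((b * θ : ℝ) : ℂ) * I)) * (Nc α b ξ - φ)‖ ≤ ‖Psi α b ((t : ℂ) * ξ)‖ +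
        ‖Psi α b ((t : ℂ) * ξ) - exp (-(((b * θ : ℝ) : ℂ) * I)) * (Nc α b ξ - φ)‖ := by
      have e : exp (-(((b * θ : ℝ) : ℂ) * I)) * (Nc α b ξ - φ) = Psi α b ((t : ℂ) * ξ) -
          (Psi α b ((t : ℂ) * ξ) - exp (-(((b * θ : ℝ) : ℂ) * I)) * (Nc α b ξ - φ)) := by ring
      calc ‖exp (-(((b * θ : ℝ) : ℂ) * I)) * (Nc α b ξ - φ)‖ = ‖Psi α b ((t : ℂ) * ξ) -
          (Psi α b ((t : ℂ) * ξ) - exp (-(((b * θ : ℝ) : ℂ) * I)) * (Nc α b ξ - φ))‖ := by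
            rw [← e]
        _ ≤ _ := norm_sub_le _ _
    rw [hnE] at q5
    linarith) (by
    have hξ' : ‖(1 : ℂ) - 1‖ ≤ 1 / 2 := by
      rw [sub_self, norm_zero]
      norm_num
    have q1 := hP 1 hξ'
    have q2 := hG 1 hξ'
    rw [← hn1, sub_self, sub_zero] at q2
    have q5 : ‖Psi α b ((t : ℂ) * 1)‖ ≤
        ‖Psi α b ((t : ℂ) * 1) - exp (-(((b * θ : ℝ) : ℂ) * I)) * (Nc α b 1 - φ)‖ +
        ‖exp (-(((b * θ : ℝ) : ℂ) * I)) * (Nc α b 1 - φ)‖ := by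
      have e : Psi α b ((t : ℂ) * 1) = (Psi α b ((t : ℂ) * 1) -
          exp (-(((b * θ : ℝ) : ℂ) * I)) * (Nc α b 1 - φ)) +
          exp (-(((b * θ : ℝ) : ℂ) * I)) * (Nc α b 1 - φ) := by ring
      calc ‖Psi α b ((t : ℂ) * 1)‖ = ‖(Psi α b ((t : ℂ) * 1) -
          exp (-(((b * θ : ℝ) : ℂ) * I)) * (Nc α b 1 - φ)) +
          exp (-(((b * θ : ℝ) : ℂ) * I)) * (Nc α b 1 - φ)‖ := by rw [← e]
        _ ≤ _ := norm_add_le _ _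
    rw [hnE] at q5
    show ‖Psi α b ((t : ℂ) * 1)‖ < 3 * δ / 4
    linarith)
  have hξc := hmap ξ (Metric.ball_subset_closedBall hξ)
  rw [mem_ball_iff_norm] at hξ
  refine ⟨b, (t : ℂ) * ξ, hb0, hbε, hb1, ?_, ?_, ?_, hz⟩
  · rw [Complex.re_ofReal_mul]
    exact mul_pos ht (by linarith)
  · rw [Complex.re_ofReal_mul, Complex.im_ofReal_mul, abs_mul, abs_of_pos ht]
    have h2 := (Complex.abs_im_le_norm (ξ - 1)).trans hξ.le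
    rw [Complex.sub_im, Complex.one_im, sub_zero] at h2
    have h3 : |ξ.im| ≤ ε * ξ.re := by nlinarith
    calc t * |ξ.im| ≤ t * (ε * ξ.re) := mul_le_mul_of_nonneg_left h3 ht.le
      _ = ε * (t * ξ.re) := by ring
  · rw [norm_mul, Complex.norm_real, Real.norm_eq_abs, abs_of_pos ht]
    have h2 : ‖ξ‖ ≤ 2 := by
      have e : ξ = (ξ - 1) + 1 := by ring
      calc ‖ξ‖ = ‖(ξ - 1) + 1‖ := by rw [← e]
        _ ≤ ‖ξ - 1‖ + ‖(1 : ℂ)‖ := norm_add_le _ _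
        _ ≤ 2 := by
          rw [norm_one]
          linarith
    nlinarith

end Pool.Agent.H212.SN
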