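import Pool.Agent.H212.SN.Stm

open Complex Set Filter Topology MeasureTheory
open scoped ComplexConjugate

namespace Pool.Agent.H212.SN

lemma FEY_w (α : ℝ) (h0 : 0 < α) (h1 : α < 1) : IntervalIntegrable (wt α) volume 0 1 := by
  have h2 : IntervalIntegrable (fun s : ℝ => s ^ (α - 1)) volume 0 1 :=
    intervalIntegral.intervalIntegrable_rpow' (by linarith)
  have h3 : Continuous fun s : ℝ => (1 - s) ^ (1 - α) :=
    (continuous_const.sub continuous_id).rpow_const fun s => Or.inr (by linarith)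
  exact h2.mul_continuousOn h3.continuousOn

lemma FEY_int (α : ℝ) (h0 : 0 < α) (h1 : α < 1) (g : ℝ → ℂ) (hg : ContinuousOn g (uIcc 0 1)) :
    IntervalIntegrable (fun s => ((wt α s : ℝ) : ℂ) * g s) volume 0 1 :=
  IntervalIntegrable.mul_continuousOn (f := fun s => ((wt α s : ℝ) : ℂ))
    ⟨(FEY_w α h0 h1).1.ofReal, (FEY_w α h0 h1).2.ofReal⟩ hg

noncomputable def FEY_D (x y z : ℂ) (s : ℝ) : ℂ := 1 - ((s : ℂ) * x + (1 - s) * y) * z

lemma FEY_m (x y : ℂ) (hx : ‖x‖ ≤ 1) (hy : ‖y‖ ≤ 1) (s : ℝ) (hs : s ∈ Icc (0:ℝ) 1) :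
    ‖(s : ℂ) * x + (1 - s) * y‖ ≤ 1 := by
  have h1 : ‖(s : ℂ)‖ = s := by rw [Complex.norm_real, Real.norm_eq_abs, abs_of_nonneg hs.1]
  have h2 : ‖(1 - s : ℂ)‖ = 1 - s := by
    rw [← Complex.ofReal_one, ← Complex.ofReal_sub, Complex.norm_real, Real.norm_eq_abs,
      abs_of_nonneg (by linarith [hs.2])]
  have hs1 := hs.1
  have hs2 := hs.2
  calc _ ≤ ‖(s : ℂ) * x‖ + ‖(1 - s : ℂ) * y‖ := norm_add_le _ _
    _ = s * ‖x‖ + (1 - s) * ‖y‖ := by rw [norm_mul, norm_mul, h1, h2]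
    _ ≤ 1 := by nlinarith

lemma FEY_Dlow (x y z : ℂ) (hx : ‖x‖ ≤ 1) (hy : ‖y‖ ≤ 1) (s : ℝ) (hs : s ∈ Icc (0:ℝ) 1) :
    1 - ‖z‖ ≤ ‖FEY_D x y z s‖ := by
  have h3 := norm_sub_norm_le (1 : ℂ) (((s : ℂ) * x + (1 - s) * y) * z)
  rw [norm_one, norm_mul] at h3
  have h := FEY_m x y hx hy s hs
  have h4 := mul_le_mul_of_nonneg_right h (norm_nonneg z)
  unfold FEY_D
  linarith

lemma FEY_Dne (x y z : ℂ) (hx : ‖x‖ ≤ 1) (hy : ‖y‖ ≤ 1) (hz : ‖z‖ < 1) (s : ℝ) (hs : s ∈ Icc (0:ℝ) 1) :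
    FEY_D x y z s ≠ 0 := by
  intro h
  have := FEY_Dlow x y z hx hy s hs
  rw [h, norm_zero] at this
  linarith

lemma FEY_Dc (x y z : ℂ) : Continuous (FEY_D x y z) := by
  unfold FEY_D
  fun_prop

lemma FEY_ibp (α : ℝ) (x y z : ℂ) (h0 : 0 < α) (h1 : α < 1) (hx : ‖x‖ ≤ 1) (hy : ‖y‖ ≤ 1) (hz : ‖z‖ < 1) :
    ∫ s in (0:ℝ)..1, ((wt α s : ℝ) : ℂ) *
      ((α * FEY_D x y z s - 2 * s * (1 - x * z)) / FEY_D x y z s ^ 3) = 0 := by
  have hne := FEY_Dne x y z hx hy hz
  have hcD := FEY_Dc x y z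
  have h := intervalIntegral.integral_eq_sub_of_hasDerivAt_of_le (a := 0) (b := 1) zero_le_one
    (f := fun s : ℝ => ((s ^ α * (1 - s) ^ (2 - α) : ℝ) : ℂ) * (FEY_D x y z s ^ 2)⁻¹)
    (f' := fun s => ((wt α s : ℝ) : ℂ) *
      ((α * FEY_D x y z s - 2 * s * (1 - x * z)) / FEY_D x y z s ^ 3)) ?_ ?_ ?_
  · rw [h]
    simp [Real.zero_rpow h0.ne', Real.zero_rpow (show 2 - α ≠ 0 by linarith)]
  · refine ContinuousOn.mul ?_ ?_
    · have c1 : Continuous fun s : ℝ => s ^ α := continuous_id.rpow_const fun s => Or.inr h0.le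
      have c2 : Continuous fun s : ℝ => (1 - s) ^ (2 - α) :=
        (continuous_const.sub continuous_id).rpow_const fun s => Or.inr (by linarith)
      exact (Complex.continuous_ofReal.comp (c1.mul c2)).continuousOn
    · exact ContinuousOn.inv₀ (hcD.pow 2).continuousOn fun s hs => pow_ne_zero _ (hne s hs)
  · intro s hs
    have hs0 : 0 < s := hs.1
    have hs1 : 0 < 1 - s := by linarith [hs.2]
    have d1 : HasDerivAt (fun s : ℝ => s ^ α) (α * s ^ (α - 1)) s := by
      simpa using Real.hasDerivAt_rpow_const (p := α) (Or.inl hs0.ne')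
    have d2 : HasDerivAt (fun s : ℝ => (1 - s) ^ (2 - α)) (-((2 - α) * (1 - s) ^ (1 - α))) s := by
      have := (((hasDerivAt_id s).const_sub 1).rpow_const (p := 2 - α) (Or.inl hs1.ne'))
      refine this.congr_deriv ?_
      simp only [id]
      rw [show (2 : ℝ) - α - 1 = 1 - α by ring]
      ring
    have d3 := (d1.mul d2).ofReal_comp
    have dD : HasDerivAt (FEY_D x y z) (-((x - y) * z)) s := by
      unfold FEY_D
      have e1 : HasDerivAt (fun s : ℝ => (s : ℂ)) 1 s := Complex.ofRealCLM.hasDerivAt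
      have := (((e1.mul_const x).add ((e1.const_sub 1).mul_const y)).mul_const z).const_sub 1
      refine this.congr_deriv ?_
      ring
    have d4 := (dD.pow 2).inv (pow_ne_zero _ (hne s ⟨hs0.le, hs.2.le⟩))
    refine (d3.mul d4).congr_deriv ?_
    have e1 : s ^ α = s * s ^ (α - 1) := by
      rw [← Real.rpow_one_add' hs0.le (by linarith)]
      congr 1; ring
    have e2 : (1 - s) ^ (2 - α) = (1 - s) * (1 - s) ^ (1 - α) := by
      rw [← Real.rpow_one_add' hs1.le (by linarith)]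
      congr 1; ring
    have hD := hne s ⟨hs0.le, hs.2.le⟩
    simp only [Pi.mul_apply, Pi.pow_apply, Pi.inv_apply, Function.comp_apply, wt]
    rw [e1, e2]
    set a := s ^ (α - 1)
    set c := (1 - s) ^ (1 - α)
    have hDe : FEY_D x y z s = 1 - ((s : ℂ) * x + (1 - s) * y) * z := rfl
    set D := FEY_D x y z s
    push_cast
    field_simp
    rw [hDe]
    ring
  · exact FEY_int α h0 h1 _ (by
      rw [uIcc_of_le zero_le_one]
      refine ContinuousOn.div (by fun_prop) (hcD.pow 3).continuousOn fun s hs => pow_ne_zero _ (hne s hs))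

lemma FEY_main (α : ℝ) (x y z : ℂ) (h0 : 0 < α) (h1 : α < 1) (hx : ‖x‖ ≤ 1) (hy : ‖y‖ ≤ 1) (hz : ‖z‖ < 1) :
    HasDerivAt (fun z => ∫ s in (0:ℝ)..1, ((wt α s : ℝ) : ℂ) / FEY_D x y z s ^ 2)
      ((α * x / (1 - x * z) + (2 - α) * y / (1 - y * z)) *
        ∫ s in (0:ℝ)..1, ((wt α s : ℝ) : ℂ) / FEY_D x y z s ^ 2) z := by
  have hne := FEY_Dne x y z hx hy hz
  have hcD := FEY_Dc x y z
  have hP : 1 - x * z ≠ 0 := by
    have := hne 1 ⟨zero_le_one, le_rfl⟩
    simpa [FEY_D] using this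
  have hQ : 1 - y * z ≠ 0 := by
    have := hne 0 ⟨le_rfl, zero_le_one⟩
    simpa [FEY_D] using this
  have hcont3 : ∀ g : ℝ → ℂ, Continuous g → ContinuousOn (fun s => g s / FEY_D x y z s ^ 3) (uIcc 0 1) := by
    intro g hg
    rw [uIcc_of_le zero_le_one]
    exact ContinuousOn.div hg.continuousOn (hcD.pow 3).continuousOn fun s hs => pow_ne_zero _ (hne s hs)
  have iA := FEY_int α h0 h1 (fun s => (s : ℂ) / FEY_D x y z s ^ 3) (hcont3 _ (by fun_prop))
  have iB := FEY_int α h0 h1 (fun s => (1 - s : ℂ) / FEY_D x y z s ^ 3) (hcont3 _ (by fun_prop))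
  set A := ∫ s in (0:ℝ)..1, ((wt α s : ℝ) : ℂ) * ((s : ℂ) / FEY_D x y z s ^ 3) with hA
  set B := ∫ s in (0:ℝ)..1, ((wt α s : ℝ) : ℂ) * ((1 - s : ℂ) / FEY_D x y z s ^ 3) with hB
  set L := ∫ s in (0:ℝ)..1, ((wt α s : ℝ) : ℂ) / FEY_D x y z s ^ 2 with hL
  have hDsum : ∀ s : ℝ, FEY_D x y z s = s * (1 - x * z) + (1 - s) * (1 - y * z) := by
    intro s; unfold FEY_D; ring
  have eL : L = (1 - x * z) * A + (1 - y * z) * B := by
    rw [hL, hA, hB, ← intervalIntegral.integral_const_mul, ← intervalIntegral.integral_const_mul,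
      ← intervalIntegral.integral_add (iA.const_mul _) (iB.const_mul _)]
    refine intervalIntegral.integral_congr fun s hs => ?_
    rw [uIcc_of_le zero_le_one] at hs
    have hD := hne s hs
    have h2 := hDsum s
    try simp only
    generalize FEY_D x y z s = D at hD h2 ⊢
    field_simp
    rw [h2]; ring
  have eA : (α : ℂ) * L = 2 * (1 - x * z) * A := by
    have h3 := FEY_ibp α x y z h0 h1 hx hy hz
    have h4 : (∫ s in (0:ℝ)..1, ((wt α s : ℝ) : ℂ) *
      ((α * FEY_D x y z s - 2 * s * (1 - x * z)) / FEY_D x y z s ^ 3)) =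
        ((α - 2) * (1 - x * z)) * A + (α * (1 - y * z)) * B := by
      rw [hA, hB, ← intervalIntegral.integral_const_mul, ← intervalIntegral.integral_const_mul,
      ← intervalIntegral.integral_add (iA.const_mul _) (iB.const_mul _)]
      refine intervalIntegral.integral_congr fun s hs => ?_
      try simp only
      rw [show (α : ℂ) * FEY_D x y z s = α * (s * (1 - x * z) + (1 - s) * (1 - y * z)) by rw [← hDsum s]]
      ring
    rw [h4] at h3
    rw [eL]
    linear_combination h3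
  have hz1 : 0 < 1 - ‖z‖ := by linarith
  set ε := (1 - ‖z‖) / 2 with hε
  have hε0 : 0 < ε := by positivity
  have hball : ∀ w ∈ Metric.ball z ε, ε ≤ 1 - ‖w‖ := by
    intro w hw
    rw [Metric.mem_ball, dist_eq_norm] at hw
    have : ‖w‖ ≤ ‖w - z‖ + ‖z‖ := by
      have := norm_add_le (w - z) z
      rwa [sub_add_cancel] at this
    linarith
  have key := intervalIntegral.hasDerivAt_integral_of_dominated_loc_of_deriv_le (𝕜 := ℂ) (μ := volume)
    (a := 0) (b := 1) (x₀ := z) (s := Metric.ball z ε)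
    (F := fun z s => ((wt α s : ℝ) : ℂ) / FEY_D x y z s ^ 2)
    (F' := fun z s => ((wt α s : ℝ) : ℂ) * ((2 * ((s : ℂ) * x + (1 - s) * y)) / FEY_D x y z s ^ 3))
    (bound := fun s => wt α s * (2 / ε ^ 3)) (Metric.ball_mem_nhds z hε0) ?_ ?_ ?_ ?_ ?_ ?_
  · refine key.2.congr_deriv ?_
    have e5 : (∫ s in (0:ℝ)..1, ((wt α s : ℝ) : ℂ) * ((2 * ((s : ℂ) * x + (1 - s) * y)) / FEY_D x y z s ^ 3)) =
        (2 * x) * A + (2 * y) * B := by
      rw [hA, hB, ← intervalIntegral.integral_const_mul, ← intervalIntegral.integral_const_mul,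
      ← intervalIntegral.integral_add (iA.const_mul _) (iB.const_mul _)]
      refine intervalIntegral.integral_congr fun s hs => ?_
      try simp only
      ring
    show (∫ s in (0:ℝ)..1, ((wt α s : ℝ) : ℂ) * ((2 * ((s : ℂ) * x + (1 - s) * y)) / FEY_D x y z s ^ 3)) = _
    rw [e5]
    have eB : (2 - (α : ℂ)) * L = 2 * (1 - y * z) * B := by linear_combination 2 * eL - eA
    have e6 : 2 * A = α * L / (1 - x * z) := by rw [eA]; field_simp
    have e7 : 2 * B = (2 - (α : ℂ)) * L / (1 - y * z) := by rw [eB]; field_simp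
    have e8 : (2 * x) * A + (2 * y) * B = x * (2 * A) + y * (2 * B) := by ring
    rw [e8, e6, e7]
    ring
  · filter_upwards [Metric.ball_mem_nhds z hε0] with w hw
    have hw1 : ‖w‖ < 1 := by linarith [hball w hw]
    have : IntervalIntegrable (fun s => ((wt α s : ℝ) : ℂ) * (1 / FEY_D x y w s ^ 2)) volume 0 1 := by
      refine FEY_int α h0 h1 _ ?_
      rw [uIcc_of_le zero_le_one]
      exact ContinuousOn.div continuousOn_const ((FEY_Dc x y w).pow 2).continuousOn
        fun s hs => pow_ne_zero _ (FEY_Dne x y w hx hy hw1 s hs)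
    have h3 := (intervalIntegrable_iff.mp this).aestronglyMeasurable
    refine h3.congr (Eventually.of_forall fun s => ?_)
    try simp only
    ring
  · have : IntervalIntegrable (fun s => ((wt α s : ℝ) : ℂ) * (1 / FEY_D x y z s ^ 2)) volume 0 1 := by
      refine FEY_int α h0 h1 _ ?_
      rw [uIcc_of_le zero_le_one]
      exact ContinuousOn.div continuousOn_const (hcD.pow 2).continuousOn
        fun s hs => pow_ne_zero _ (hne s hs)
    refine this.congr (fun s hs => ?_)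
    try simp only
    ring
  · exact (intervalIntegrable_iff.mp (FEY_int α h0 h1 _ (hcont3 (fun s => 2 * ((s : ℂ) * x + (1 - s) * y)) (by fun_prop)))).aestronglyMeasurable
  · refine Eventually.of_forall fun s hs w hw => ?_
    rw [uIoc_of_le zero_le_one] at hs
    have hs' : s ∈ Icc (0:ℝ) 1 := ⟨hs.1.le, hs.2⟩
    have h3 := (hball w hw).trans (FEY_Dlow x y w hx hy s hs')
    have hw0 : 0 ≤ wt α s := mul_nonneg (Real.rpow_nonneg hs.1.le _) (Real.rpow_nonneg (by linarith [hs.2]) _)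
    rw [norm_mul, Complex.norm_real, Real.norm_eq_abs, abs_of_nonneg hw0, norm_div, norm_mul, norm_pow]
    have h4 := FEY_m x y hx hy s hs'
    have h5 : ‖(2 : ℂ)‖ = 2 := by simp
    rw [h5]
    refine mul_le_mul_of_nonneg_left ?_ hw0
    have h6 : 2 * ‖(s : ℂ) * x + (1 - s) * y‖ ≤ 2 := by linarith
    gcongr
  · exact (FEY_w α h0 h1).mul_const _
  · refine Eventually.of_forall fun s hs w hw => ?_
    rw [uIoc_of_le zero_le_one] at hs
    have hs' : s ∈ Icc (0:ℝ) 1 := ⟨hs.1.le, hs.2⟩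
    have hw1 : ‖w‖ < 1 := by linarith [hball w hw]
    have hD := FEY_Dne x y w hx hy hw1 s hs'
    have d1 : HasDerivAt (fun w => FEY_D x y w s) (-((s : ℂ) * x + (1 - s) * y)) w := by
      unfold FEY_D
      simpa using ((hasDerivAt_id w).const_mul ((s : ℂ) * x + (1 - s) * y)).const_sub 1
    have d2 := (d1.pow 2).inv (pow_ne_zero _ hD)
    have d3 := d2.const_mul ((wt α s : ℝ) : ℂ)
    refine (d3.congr_deriv ?_)
    simp only [Pi.pow_apply]
    generalize FEY_D x y w s = D at hD ⊢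
    field_simp
    ring

theorem t_FEY : S_FEY := by
  intro α x y z h0 h1 hx hy hz
  set H : ℂ → ℂ := fun z => (∫ s in (0:ℝ)..1, ((wt α s : ℝ) : ℂ) / FEY_D x y z s ^ 2) *
    ((1 - x * z) ^ (α : ℂ) * (1 - y * z) ^ (2 - (α : ℂ))) with hH
  have hre : ∀ (u w : ℂ), ‖u‖ ≤ 1 → ‖w‖ < 1 → 0 < (1 - u * w).re := by
    intro u w hu hw
    have h3 : ‖u * w‖ < 1 := by
      rw [norm_mul]
      nlinarith [norm_nonneg u, norm_nonneg w]
    have h4 := (Complex.abs_re_le_norm (u * w)).trans_lt h3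
    have h5 := (abs_lt.mp h4).2
    simp only [Complex.sub_re, Complex.one_re]
    linarith
  have hne : ∀ (u w : ℂ), ‖u‖ ≤ 1 → ‖w‖ < 1 → 1 - u * w ≠ 0 := by
    intro u w hu hw h
    have := hre u w hu hw
    rw [h] at this
    simp at this
  have hder : ∀ w ∈ Metric.ball (0 : ℂ) 1, HasDerivAt H 0 w := by
    intro w hw
    have hw1 : ‖w‖ < 1 := by simpa using hw
    have k1 := FEY_main α x y w h0 h1 hx hy hw1
    have a1 : HasDerivAt (fun w => 1 - x * w) (-x) w := by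
      simpa using ((hasDerivAt_id w).const_mul x).const_sub 1
    have a2 : HasDerivAt (fun w => 1 - y * w) (-y) w := by
      simpa using ((hasDerivAt_id w).const_mul y).const_sub 1
    have b1 := a1.cpow_const (c := (α : ℂ)) (Or.inl (hre x w hx hw1))
    have b2 := a2.cpow_const (c := (2 - (α : ℂ))) (Or.inl (hre y w hy hw1))
    refine (k1.mul (b1.mul b2)).congr_deriv ?_
    have n1 := hne x w hx hw1
    have n2 := hne y w hy hw1
    simp only [Pi.mul_apply]
    rw [Complex.cpow_sub _ 1 n1, Complex.cpow_sub (2 - (α : ℂ)) 1 n2, Complex.cpow_one, Complex.cpow_one]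
    field_simp
    ring
  have hconst := Metric.isOpen_ball.is_const_of_deriv_eq_zero (𝕜 := ℂ) (s := Metric.ball (0 : ℂ) 1) (f := H)
    (convex_ball (0:ℂ) 1).isPreconnected
    (fun w hw => (hder w hw).differentiableAt.differentiableWithinAt)
    (fun w hw => (hder w hw).deriv)
    (show z ∈ Metric.ball (0 : ℂ) 1 by simpa using hz) (show (0 : ℂ) ∈ Metric.ball (0 : ℂ) 1 by simp)
  have hH0 : H 0 = (Bc α : ℂ) := by
    simp only [hH, FEY_D, mul_zero, sub_zero, one_pow, div_one, Complex.one_cpow, mul_one]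
    rw [Bc]
    exact intervalIntegral.integral_ofReal
  rw [hH0] at hconst
  have n1 := hne x z hx hz
  have n2 := hne y z hy hz
  have c1 : (1 - x * z) ^ (α : ℂ) ≠ 0 := by
    rw [Complex.cpow_def_of_ne_zero n1]; exact Complex.exp_ne_zero _
  have c2 : (1 - y * z) ^ (2 - (α : ℂ)) ≠ 0 := by
    rw [Complex.cpow_def_of_ne_zero n2]; exact Complex.exp_ne_zero _
  rw [← hconst, hH, Complex.cpow_neg, Complex.cpow_neg]
  try simp only
  rw [show (∫ s in (0 : ℝ)..1, ((wt α s : ℝ) : ℂ) / (1 - ((s : ℂ) * x + (1 - s) * y) * z) ^ 2) =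
    ∫ s in (0:ℝ)..1, ((wt α s : ℝ) : ℂ) / FEY_D x y z s ^ 2 from rfl]
  generalize (1 - x * z) ^ (α : ℂ) = a at c1 ⊢
  generalize (1 - y * z) ^ (2 - (α : ℂ)) = b at c2 ⊢
  field_simp

end Pool.Agent.H212.SN
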