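import Mathlib

/-!
# MP_e32d41_an (project SN, helper212): two-atom star-like functions without property (N)

THEOREM. `F(z) = z (1-xz)^{-α} (1-yz)^{-(2-α)}`, `|x| = |y| = 1`, `x ≠ y`, `0 < α < 2`, `α ≠ 1`: there are `f ∈ S` and `0 < |z| < 1`
with `(F * f)(z) = 0`.

Idea (`0 < α < 1`): `(F*f)(z) = (z/B) ∫_0^1 s^{α-1}(1-s)^{1-α} f'((sx+(1-s)y)z) ds`. Take the spiral function
`f(ζ) = ((1-conj x ζ)^{-c} - 1)/(c conj x)`, `c = 1-α+ib`, `b > 0` small. With `z = 1/(1+dη)`, `d = 1 - conj x y`, the integral is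
`(dz)^p Ψ_b(η)`, `Ψ_b(η) = ∫_0^1 (1-u)^{α-1}u^{1-α}(u+η)^p du`, `p = -(2-α)-ib`. As `t → 0+`:
`Ψ_b(tξ) = -1/(ib) + M(b) + t^{-ib}(1/(ib) + N(b,ξ)) + o(1)` uniformly for `|ξ-1| ≤ 1/2`, and `M(0), N(0,1)` are real. So `Ψ_b` has zeros
near the positive axis (Hurwitz / minimum modulus).
-/

open Complex Set Filter Topology MeasureTheory
open scoped ComplexConjugate

namespace Pool.Agent.H212.SN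

/-- The weight `s^{α-1} (1-s)^{1-α}`. -/
noncomputable def wt (α s : ℝ) : ℝ := s ^ (α - 1) * (1 - s) ^ (1 - α)

/-- Its integral. -/
noncomputable def Bc (α : ℝ) : ℝ := ∫ s in (0 : ℝ)..1, wt α s

/-- The two-atom star-like function. -/
noncomputable def Ff (α : ℝ) (x y z : ℂ) : ℂ := z * (1 - x * z) ^ (-(α : ℂ)) * (1 - y * z) ^ (-(2 - (α : ℂ)))

/-- Taylor coefficients at `0`. -/
noncomputable def cf (f : ℂ → ℂ) (n : ℕ) : ℂ := iteratedDeriv n f 0 / (n.factorial : ℂ)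

/-- Hadamard product. -/
noncomputable def had (F f : ℂ → ℂ) (z : ℂ) : ℂ := ∑' n, cf F n * cf f n * z ^ n

/-- The exponent `p = -(2-α) - ib`. -/
noncomputable def pb (α b : ℝ) : ℂ := -(2 - (α : ℂ)) - (b : ℂ) * I

/-- `Ψ_b(η) = ∫_0^1 (1-u)^{α-1} u^{1-α} (u+η)^p du` (note `wt α (1-u) = (1-u)^{α-1} u^{1-α}`). -/
noncomputable def Psi (α b : ℝ) (η : ℂ) : ℂ := ∫ u in (0 : ℝ)..1, ((wt α (1 - u) : ℝ) : ℂ) * ((u : ℂ) + η) ^ (pb α b)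

/-- `M(b) = ∫_0^1 ((1-u)^{α-1} - 1) u^{-1-ib} du`. -/
noncomputable def Mc (α b : ℝ) : ℂ := ∫ u in (0 : ℝ)..1, (((1 - u) ^ (α - 1) - 1 : ℝ) : ℂ) * (u : ℂ) ^ (-1 - (b : ℂ) * I)

/-- `N(b,ξ) = ∫_0^1 v^{1-α}(v+ξ)^p dv + ∫_1^∞ (v^{1-α}(v+ξ)^p - v^{-1-ib}) dv`. -/
noncomputable def Nc (α b : ℝ) (ξ : ℂ) : ℂ :=
  (∫ v in (0 : ℝ)..1, ((v ^ (1 - α) : ℝ) : ℂ) * ((v : ℂ) + ξ) ^ (pb α b)) +
    ∫ v in Set.Ioi (1 : ℝ), (((v ^ (1 - α) : ℝ) : ℂ) * ((v : ℂ) + ξ) ^ (pb α b) - (v : ℂ) ^ (-1 - (b : ℂ) * I))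

/-- The class `S`. -/
def ClassS (f : ℂ → ℂ) : Prop :=
  DifferentiableOn ℂ f (Metric.ball 0 1) ∧ Set.InjOn f (Metric.ball 0 1) ∧ f 0 = 0 ∧ deriv f 0 = 1

/-- The spiral functions. -/
noncomputable def fb (α b : ℝ) (x ζ : ℂ) : ℂ :=
  ((1 - conj x * ζ) ^ (-(((1 - α : ℝ) : ℂ) + (b : ℂ) * I)) - 1) / ((((1 - α : ℝ) : ℂ) + (b : ℂ) * I) * conj x)

/-- K (kernel bound). `|(1+z)^p| = |1+z|^{Re p} e^{-Im p arg(1+z)} ≤ e^{π/2} ≤ 5`, `|1+z| ≥ 1`, `|arg(1+z)| ≤ π/2`; the second: mean value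
inequality on the segment `[0,z]` (derivative `p (1+z)^{p-1}`, `|p| ≤ √10`, `√10 e^{π/2} ≤ 16`). -/
def S_K : Prop :=
  ∀ p : ℂ, -3 ≤ p.re → p.re ≤ 0 → |p.im| ≤ 1 → ∀ z : ℂ, 0 ≤ z.re →
    ‖(1 + z) ^ p‖ ≤ 5 ∧ ‖(1 + z) ^ p - 1‖ ≤ 16 * ‖z‖

/-- LTA: the part with `(1-u)^{α-1} - 1`. The integrand difference is `g(u) u^{1-α} ((u+tξ)^p - u^p)`, `g(u) = (1-u)^{α-1}-1`, `0 ≤ g(u) ≤ C u (1-u)^{α-1}`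
(e.g. `1 - (1-u)^{1-α} ≤ u`, so `g(u) = (1-u)^{α-1}(1-(1-u)^{1-α}) ≤ u (1-u)^{α-1}`), and
`|(u+tξ)^p - u^p| = u^{-(2-α)} |(1+tξ/u)^p - 1| ≤ u^{-(2-α)} min(6, 32 t/u)` (`S_K`; `(u (1+z))^p = u^p (1+z)^p` for `u > 0`). So the difference is at most
`∫_0^1 (1-u)^{α-1} min(6, 32 t/u) du → 0` (split at `√t`, or dominated convergence with the bound `6 (1-u)^{α-1}`). -/
def S_LTA : Prop :=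
  ∀ α b : ℝ, 0 < α → α < 1 → 0 < b → b ≤ 1 → ∀ ε : ℝ, 0 < ε → ∃ t0 : ℝ, 0 < t0 ∧ ∀ t : ℝ, 0 < t → t < t0 → ∀ ξ : ℂ, ‖ξ - 1‖ ≤ 1 / 2 →
    ‖(∫ u in (0 : ℝ)..1, (((1 - u) ^ (α - 1) - 1 : ℝ) : ℂ) * ((u ^ (1 - α) : ℝ) : ℂ) * ((u : ℂ) + (t : ℂ) * ξ) ^ (pb α b)) - Mc α b‖ ≤ ε

/-- LTB: the main part. Substitute `u = tv`: `∫_0^1 u^{1-α}(u+tξ)^p du = t^{-ib} ∫_0^{1/t} v^{1-α}(v+ξ)^p dv` (`(t w)^p = t^p w^p` for `t > 0`,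
`t^{1-α} t^p t = t^{-ib}`), and `∫_0^{1/t} = ∫_0^1 + ∫_1^{1/t}(v^{1-α}(v+ξ)^p - v^{-1-ib}) dv + ∫_1^{1/t} v^{-1-ib} dv`, the last is `(1 - t^{ib})/(ib)`, and
`|v^{1-α}(v+ξ)^p - v^{-1-ib}| = v^{-1} |(1+ξ/v)^p - 1| ≤ 16 (3/2) v^{-2}` (`S_K`), so the tail `∫_{1/t}^∞` is `≤ 24 t`. `t^{-ib} t^{ib} = 1`, `|t^{-ib}| = 1`. -/
def S_LTB : Prop :=
  ∀ α b : ℝ, 0 < α → α < 1 → 0 < b → b ≤ 1 → ∀ t : ℝ, 0 < t → t < 1 → ∀ ξ : ℂ, ‖ξ - 1‖ ≤ 1 / 2 →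
    ‖(∫ u in (0 : ℝ)..1, ((u ^ (1 - α) : ℝ) : ℂ) * ((u : ℂ) + (t : ℂ) * ξ) ^ (pb α b)) -
      (-1 / ((b : ℂ) * I) + (t : ℂ) ^ (-((b : ℂ) * I)) * (1 / ((b : ℂ) * I) + Nc α b ξ))‖ ≤ 24 * t

/-- LT: combine (`wt α (1-u) = ((1-u)^{α-1} - 1) u^{1-α} + u^{1-α}`, both integrable). -/
def S_LT : Prop :=
  ∀ α b : ℝ, 0 < α → α < 1 → 0 < b → b ≤ 1 → ∀ ε : ℝ, 0 < ε → ∃ t0 : ℝ, 0 < t0 ∧ ∀ t : ℝ, 0 < t → t < t0 → ∀ ξ : ℂ, ‖ξ - 1‖ ≤ 1 / 2 →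
    ‖Psi α b ((t : ℂ) * ξ) - (-1 / ((b : ℂ) * I) + Mc α b + (t : ℂ) ^ (-((b : ℂ) * I)) * (1 / ((b : ℂ) * I) + Nc α b ξ))‖ ≤ ε

/-- BM: `|u^{-ib} - 1| ≤ b |log u|` and `((1-u)^{α-1}-1) u^{-1} ≤ (1-u)^{α-1}`; `∫_0^1 (1-u)^{α-1} |log u| du < ∞`. -/
def S_BM : Prop :=
  ∀ α : ℝ, 0 < α → α < 1 → ∃ C : ℝ, 0 < C ∧ ∀ b : ℝ, 0 < b → b ≤ 1 → ‖Mc α b - Mc α 0‖ ≤ C * b

/-- BN: on `(0,1)`: `|(v+ξ)^{p_b} - (v+ξ)^{p_0}| ≤ |v+ξ|^{-(2-α)} |e^{-ib log(v+ξ)} - 1| ≤ C b`; on `(1,∞)` the difference of the integrands is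
`v^{-1}[v^{-ib}((1+ξ/v)^{p_b} - 1) - ((1+ξ/v)^{p_0} - 1)]`, at most `b log v · 24 v^{-2} + C b v^{-2}` (`S_K`, `|log(1+ξ/v)| ≤ C/v`,
`|e^{w} - 1| ≤ |w| e^{|w|}`). Integrable majorant `C b (1+log v) v^{-2}`. -/
def S_BN : Prop :=
  ∀ α : ℝ, 0 < α → α < 1 → ∃ C : ℝ, 0 < C ∧ ∀ b : ℝ, 0 < b → b ≤ 1 → ∀ ξ : ℂ, ‖ξ - 1‖ ≤ 1 / 2 → ‖Nc α b ξ - Nc α 0 ξ‖ ≤ C * b

/-- RE: for `b = 0` and real `ξ > 0` all integrands are real (real base, real exponent `cpow` = `rpow`), and `v^{1-α}(v+ξ)^{-(2-α)}` is strictly decreasing in `ξ`,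
so `N(0,3/2) < N(0,1)`. -/
def S_RE : Prop :=
  ∀ α : ℝ, 0 < α → α < 1 → (Nc α 0 1).im = 0 ∧ (Mc α 0).im = 0 ∧ Nc α 0 (3 / 2) ≠ Nc α 0 1

/-- ANN: `N(0,·)` is holomorphic on the right half plane (differentiate under the integral: `hasDerivAt_integral_of_dominated_loc_of_deriv_le`; the derivative of
the integrand is `v^{1-α} p (v+ξ)^{p-1}`, `O(v^{-2})`; for `Re ξ ≥ r`, `|v+ξ| ≥ v + r`). -/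
def S_ANN : Prop :=
  ∀ α : ℝ, 0 < α → α < 1 → DifferentiableOn ℂ (Nc α 0) {ξ : ℂ | 0 < ξ.re}

/-- ANP: `Ψ_b` is holomorphic on the right half plane. -/
def S_ANP : Prop :=
  ∀ α b : ℝ, 0 < α → α < 1 → 0 < b → b ≤ 1 → DifferentiableOn ℂ (Psi α b) {η : ℂ | 0 < η.re}

/-- MM (minimum modulus): otherwise `1/f` is holomorphic in the ball, contradiction with the maximum principle. -/
def S_MM : Prop :=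
  ∀ (f : ℂ → ℂ) (c : ℂ) (ρ m : ℝ), 0 < ρ → DifferentiableOn ℂ f (Metric.closedBall c ρ) →
    (∀ ξ : ℂ, ‖ξ - c‖ = ρ → m ≤ ‖f ξ‖) → ‖f c‖ < m → ∃ ξ ∈ Metric.ball c ρ, f ξ = 0

/-- CORE. Choose `ρ ∈ (0, min(1/2, ε/4))` with `N(0,ξ) ≠ N(0,1)` on `|ξ-1| = ρ` (isolated zeros, `N(0,·)` holomorphic on the connected right half plane and not
constant: `S_ANN`, `S_RE`), `δ = min_{|ξ-1|=ρ} |N(0,ξ) - N(0,1)| > 0`. `θ = Re N(0,1) + Re M(0)`. `G_b(ξ) = N(b,ξ) - (e^{ibθ}(1-ibM(b)) - 1)/(ib)` tends to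
`N(0,ξ) - N(0,1)` uniformly on `|ξ-1| ≤ 1/2` as `b → 0` (`S_BM`, `S_BN`; `(e^{ibθ}(1-ibM(b))-1)/(ib) → θ - M(0) = N(0,1)`, all real by `S_RE`). Fix
`b < min(ε,1)` with difference `< δ/8`. `t = exp(θ - 2πk/b)`, `t^{-ib} = e^{-ibθ}`, and
`-1/(ib) + M(b) + t^{-ib}(1/(ib)+N(b,ξ)) = e^{-ibθ} G_b(ξ)`. For `k` large `S_LT` with `δ/8`: `|Ψ(tξ)| ≥ δ - δ/4` on the circle, `|Ψ(t)| ≤ δ/4`: `S_MM` for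
`ξ ↦ Ψ(tξ)` (`S_ANP`) gives a zero `η = tξ`, `|ξ-1| < ρ`, `|Im η| ≤ tρ ≤ ε t/2 ≤ ε Re η`, `|η| ≤ 2t < ε`. -/
def S_CORE : Prop :=
  ∀ α : ℝ, 0 < α → α < 1 → ∀ ε : ℝ, 0 < ε → ∃ (b : ℝ) (η : ℂ), 0 < b ∧ b < ε ∧ b ≤ 1 ∧ 0 < η.re ∧ |η.im| ≤ ε * η.re ∧ ‖η‖ < ε ∧ Psi α b η = 0

/-- FEY (Euler/Feynman). `D = 1 - (sx+(1-s)y)z = sP+(1-s)Q`, `P = 1-xz`, `Q = 1-yz`. Let `L(z)` be the left side. From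
`d/ds [s^α (1-s)^{2-α} D^{-2}] = wt D^{-3} (αD - 2sP)` (the bracket vanishes at `s = 0, 1`) `∫ wt D^{-3} s = (α/(2P)) L`, and symmetrically
`∫ wt D^{-3}(1-s) = ((2-α)/(2Q)) L`. So `L' = 2∫ wt D^{-3}(sx+(1-s)y) = (αx/P + (2-α)y/Q) L`, the logarithmic derivative of the right side; both are `Bc α` at `z = 0`. -/
def S_FEY : Prop :=
  ∀ (α : ℝ) (x y z : ℂ), 0 < α → α < 1 → ‖x‖ ≤ 1 → ‖y‖ ≤ 1 → ‖z‖ < 1 →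
    ∫ s in (0 : ℝ)..1, ((wt α s : ℝ) : ℂ) / (1 - ((s : ℂ) * x + (1 - s) * y) * z) ^ 2 =
      (Bc α : ℂ) * (1 - x * z) ^ (-(α : ℂ)) * (1 - y * z) ^ (-(2 - (α : ℂ)))

/-- BC: `wt` is integrable on `(0,1)` with positive integral (`0 < α < 1`). -/
def S_BC : Prop :=
  ∀ α : ℝ, 0 < α → α < 1 → IntervalIntegrable (wt α) volume 0 1 ∧ 0 < Bc α

/-- COEF: expand `(1 - mz)^{-2} = ∑ (n+1) m^n z^n`, `m = sx+(1-s)y`, `|m| ≤ 1`, integrate termwise (`S_FEY`, `S_BC`), uniqueness of power series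
(`HasFPowerSeriesOnBall`, or `HasSum` for all `|z| < 1` identifies the coefficients). -/
def S_COEF : Prop :=
  ∀ (α : ℝ) (x y : ℂ), 0 < α → α < 1 → ‖x‖ ≤ 1 → ‖y‖ ≤ 1 →
    DifferentiableOn ℂ (Ff α x y) (Metric.ball 0 1) ∧ cf (Ff α x y) 0 = 0 ∧
    ∀ n : ℕ, cf (Ff α x y) (n + 1) = ((n + 1 : ℕ) : ℂ) / (Bc α : ℂ) * ∫ s in (0 : ℝ)..1, ((wt α s : ℝ) : ℂ) * ((s : ℂ) * x + (1 - s) * y) ^ n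

/-- HADI: `f'(w) = ∑ (n+1) a_{n+1} w^n` on the disc; insert `w = mz`, `|m| ≤ 1`, and integrate termwise (`∑ (n+1)|a_{n+1}||z|^n < ∞`). -/
def S_HADI : Prop :=
  ∀ (α : ℝ) (x y : ℂ) (f : ℂ → ℂ), 0 < α → α < 1 → ‖x‖ ≤ 1 → ‖y‖ ≤ 1 → DifferentiableOn ℂ f (Metric.ball 0 1) → ∀ z : ℂ, ‖z‖ < 1 →
    Summable (fun n => cf (Ff α x y) n * cf f n * z ^ n) ∧
    had (Ff α x y) f z = z / (Bc α : ℂ) * ∫ s in (0 : ℝ)..1, ((wt α s : ℝ) : ℂ) * deriv f (((s : ℂ) * x + (1 - s) * y) * z)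

/-- UNIV: `c = 1-α+ib`, `|c|² = (1-α)²+b² ≤ 2(1-α)`. `(1-conj x ζ)^{-c} = exp(c τ)`, `τ = -log(1-conj x ζ)`, `|Im τ| < π/2`. Equal values: `c(τ1-τ2) = 2πik`; if `k ≠ 0`
then `|Im(τ1-τ2)| = 2π|k| Re c/|c|² ≥ π`, impossible. So `τ1 = τ2`, `ζ1 = ζ2`. Derivative by the chain rule, `-c-1 = pb α b`. -/
def S_UNIV : Prop :=
  ∀ (α b : ℝ) (x : ℂ), 0 < α → α < 1 → 0 < b → b ^ 2 ≤ 1 - α ^ 2 → ‖x‖ = 1 →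
    ClassS (fb α b x) ∧ ∀ ζ ∈ Metric.ball (0 : ℂ) 1, deriv (fb α b x) ζ = (1 - conj x * ζ) ^ (pb α b)

/-- REL: `d = 1 - conj x y`, `Re d > 0` (`|conj x y| = 1`, `≠ 1`). `z = 1/(1+dη)`: `Re (dη) = Re d Re η - Im d Im η ≥ (Re d - ε|Im d|) Re η > 0`, so `|1+dη| > 1`.
`Re (dz) > 0` for `|η|` small by continuity (`|dz - d| ≤ |d|²|η|`). `1 - conj x (sx+(1-s)y) z = 1 - z + (1-s) d z` and `1 - z = dηz`. -/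
def S_REL : Prop :=
  ∀ x y : ℂ, ‖x‖ = 1 → ‖y‖ = 1 → x ≠ y → ∃ ε : ℝ, 0 < ε ∧ ∀ η : ℂ, 0 < η.re → |η.im| ≤ ε * η.re → ‖η‖ < ε →
    ∃ z : ℂ, z ≠ 0 ∧ ‖z‖ < 1 ∧ 0 < ((1 - conj x * y) * z).re ∧
      ∀ s : ℝ, 1 - conj x * (((s : ℂ) * x + (1 - s) * y) * z) = ((1 - conj x * y) * z) * (((1 - s : ℝ) : ℂ) + η)

/-- FIN. Take `ε` from `S_REL`, `ε' ≤ ε`, `ε'^2 ≤ 1-α²`, `b, η` from `S_CORE`, `z` from `S_REL`, `f = fb α b x`. By `S_HADI`, `S_UNIV` the Hadamard product at `z` is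
`z/B ∫ wt(s) (dz((1-s)+η))^p ds = z/B (dz)^p ∫ wt(s) ((1-s)+η)^p ds` (both factors have positive real part, so `mul_cpow` holds: the sum of the arguments is in
`(-π, π)`), and `∫ wt(s)((1-s)+η)^p ds = Psi α b η = 0` (substitution `u = 1-s`). -/
def S_FIN : Prop :=
  ∀ (α : ℝ) (x y : ℂ), 0 < α → α < 1 → ‖x‖ = 1 → ‖y‖ = 1 → x ≠ y →
    ∃ f : ℂ → ℂ, ClassS f ∧ ∃ z : ℂ, z ≠ 0 ∧ ‖z‖ < 1 ∧ Summable (fun n => cf (Ff α x y) n * cf f n * z ^ n) ∧ had (Ff α x y) f z = 0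

/-- STAR: `F = Ff α x y` is star-like: `F 0 = 0`, `F'(0) = 1`, `F ≠ 0` off `0`, `z F'/F = 1 + αxz/(1-xz) + (2-α)yz/(1-yz)`, real part `> 1 - α/2 - (2-α)/2 = 0`
(`Re(w/(1-w)) > -1/2` for `|w| < 1`). -/
def S_STAR : Prop :=
  ∀ (α : ℝ) (x y : ℂ), 0 < α → α < 2 → ‖x‖ = 1 → ‖y‖ = 1 →
    DifferentiableOn ℂ (Ff α x y) (Metric.ball 0 1) ∧ Ff α x y 0 = 0 ∧ deriv (Ff α x y) 0 = 1 ∧
    ∀ z : ℂ, z ≠ 0 → ‖z‖ < 1 → Ff α x y z ≠ 0 ∧ 0 < (z * deriv (Ff α x y) z / Ff α x y z).re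

end Pool.Agent.H212.SN
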