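import Mathlib
import Pool.Agent.H212.SN.Stm

/-! Final assembly (SN, FIN). -/

set_option autoImplicit false

open Complex Set Filter Topology MeasureTheory
open scoped ComplexConjugate

namespace Pool.Agent.H212.SN

theorem FIN_mul_cpow {a b p : ℂ} (ha : 0 < a.re) (hb : 0 < b.re) :
    (a * b) ^ p = a ^ p * b ^ p := by
  have ha0 : a ≠ 0 := by
    rintro rfl
    simp at ha
  have hb0 : b ≠ 0 := by
    rintro rfl
    simp at hb
  have h1 := Complex.abs_arg_lt_pi_div_two_iff.2 (Or.inl ha : 0 < a.re ∨ a = 0)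
  have h2 := Complex.abs_arg_lt_pi_div_two_iff.2 (Or.inl hb : 0 < b.re ∨ b = 0)
  rw [abs_lt] at h1 h2
  have h3 : Complex.log (a * b) = Complex.log a + Complex.log b := by
    apply Complex.log_mul ha0 hb0
    constructor
    · linarith [h1.1, h2.1]
    · linarith [h1.2, h2.2]
  rw [Complex.cpow_def_of_ne_zero (mul_ne_zero ha0 hb0), Complex.cpow_def_of_ne_zero ha0,
    Complex.cpow_def_of_ne_zero hb0, h3, add_mul, Complex.exp_add]

theorem FIN_norm {x y z : ℂ} (hx : ‖x‖ = 1) (hy : ‖y‖ = 1) (hz : ‖z‖ < 1) {s : ℝ}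
    (hs : s ∈ Set.Icc (0 : ℝ) 1) : ((s : ℂ) * x + (1 - s) * y) * z ∈ Metric.ball (0 : ℂ) 1 := by
  rw [mem_ball_zero_iff, norm_mul]
  have h1 : ‖(s : ℂ) * x + (1 - s) * y‖ ≤ 1 := by
    have e : (1 - (s : ℂ)) = ((1 - s : ℝ) : ℂ) := by push_cast; ring
    calc ‖(s : ℂ) * x + (1 - s) * y‖ ≤ ‖(s : ℂ) * x‖ + ‖(1 - (s : ℂ)) * y‖ := norm_add_le _ _
      _ = s * 1 + (1 - s) * 1 := by
          rw [e, norm_mul, norm_mul, hx, hy, Complex.norm_real, Complex.norm_real,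
            Real.norm_of_nonneg hs.1, Real.norm_of_nonneg (by linarith [hs.2])]
      _ = 1 := by ring
  calc ‖(s : ℂ) * x + (1 - s) * y‖ * ‖z‖ ≤ 1 * ‖z‖ :=
        mul_le_mul_of_nonneg_right h1 (norm_nonneg _)
    _ < 1 := by linarith

theorem t_FIN (hCORE : S_CORE) (hHADI : S_HADI) (hUNIV : S_UNIV) (hREL : S_REL) : S_FIN := by
  intro α x y h0 h1 hx hy hxy
  obtain ⟨ε, hε, hR⟩ := hREL x y hx hy hxy
  have h2 : 0 < 1 - α ^ 2 := by nlinarith
  have hsq : 0 < Real.sqrt (1 - α ^ 2) := Real.sqrt_pos.2 h2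
  obtain ⟨b, η, hb0, hb1, hb2, hη0, hη1, hη2, hPsi⟩ :=
    hCORE α h0 h1 (min ε (Real.sqrt (1 - α ^ 2))) (lt_min hε hsq)
  have hbb : b ^ 2 ≤ 1 - α ^ 2 := by
    have h3 : b ≤ Real.sqrt (1 - α ^ 2) := (hb1.trans_le (min_le_right _ _)).le
    calc b ^ 2 ≤ Real.sqrt (1 - α ^ 2) ^ 2 := pow_le_pow_left₀ hb0.le h3 2
      _ = 1 - α ^ 2 := Real.sq_sqrt h2.le
  obtain ⟨hS, hder⟩ := hUNIV α b x h0 h1 hb0 hbb hx
  obtain ⟨z, hz0, hz1, hzre, hzs⟩ := hR η hη0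
    (hη1.trans (mul_le_mul_of_nonneg_right (min_le_left _ _) hη0.le))
    (hη2.trans_le (min_le_left _ _))
  obtain ⟨hsum, hhad⟩ := hHADI α x y (fb α b x) h0 h1 hx.le hy.le hS.1 z hz1
  refine ⟨fb α b x, hS, z, hz0, hz1, hsum, ?_⟩
  rw [hhad]
  have hint : ∫ s in (0 : ℝ)..1, ((wt α s : ℝ) : ℂ) *
      deriv (fb α b x) (((s : ℂ) * x + (1 - s) * y) * z) = 0 := by
    have e1 : ∫ s in (0 : ℝ)..1, ((wt α s : ℝ) : ℂ) *
        deriv (fb α b x) (((s : ℂ) * x + (1 - s) * y) * z) =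
        ∫ s in (0 : ℝ)..1, ((1 - conj x * y) * z) ^ (pb α b) *
          (((wt α (1 - (1 - s)) : ℝ) : ℂ) * (((1 - s : ℝ) : ℂ) + η) ^ (pb α b)) := by
      apply intervalIntegral.integral_congr
      intro s hs
      rw [Set.uIcc_of_le zero_le_one] at hs
      have h3 : 0 < ((((1 - s : ℝ) : ℂ) + η)).re := by
        rw [Complex.add_re, Complex.ofReal_re]
        linarith [hs.2]
      show ((wt α s : ℝ) : ℂ) * deriv (fb α b x) (((s : ℂ) * x + (1 - s) * y) * z) = _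
      rw [hder _ (FIN_norm hx hy hz1 hs), hzs s, FIN_mul_cpow hzre h3]
      simp only [sub_sub_cancel]
      ring
    have e2 : ∫ s in (0 : ℝ)..1, (((wt α (1 - (1 - s)) : ℝ) : ℂ) *
        (((1 - s : ℝ) : ℂ) + η) ^ (pb α b)) = Psi α b η := by
      have h4 := intervalIntegral.integral_comp_sub_left (a := 0) (b := 1)
        (fun u : ℝ => ((wt α (1 - u) : ℝ) : ℂ) * ((u : ℂ) + η) ^ (pb α b)) 1
      rw [sub_self, sub_zero] at h4
      exact h4
    rw [e1, intervalIntegral.integral_const_mul, e2, hPsi, mul_zero]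
  rw [hint, mul_zero]

end Pool.Agent.H212.SN
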