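import Pool.Agent.H212.SN.Stm

open Complex Set Filter Topology MeasureTheory
open scoped ComplexConjugate

namespace Pool.Agent.H212.SN

theorem LT_re {ξ : ℂ} (hξ : ‖ξ - 1‖ ≤ 1 / 2) : 1 / 2 ≤ ξ.re := by
  have h : |(ξ - 1).re| ≤ 1 / 2 := (Complex.abs_re_le_norm _).trans hξ
  rw [Complex.sub_re, Complex.one_re, abs_le] at h
  linarith [h.1]

theorem LT_cont {α b t : ℝ} (hα1 : α < 1) (ht : 0 < t) {ξ : ℂ} (hξ : ‖ξ - 1‖ ≤ 1 / 2) :
    ContinuousOn (fun u : ℝ => ((u ^ (1 - α) : ℝ) : ℂ) * ((u : ℂ) + (t : ℂ) * ξ) ^ (pb α b))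
      (Icc 0 1) := by
  have hre := LT_re hξ
  apply ContinuousOn.mul
  · exact (Complex.continuous_ofReal.comp
      (continuous_id.rpow_const (fun _ => Or.inr (by linarith)))).continuousOn
  · refine ContinuousOn.cpow (by fun_prop) continuousOn_const fun u hu => Or.inl ?_
    have h1 : ((u : ℂ) + (t : ℂ) * ξ).re = u + t * ξ.re := by simp
    rw [h1]
    have := mul_pos ht (by linarith : (0 : ℝ) < ξ.re)
    linarith [hu.1]

theorem LT_int (α : ℝ) (hα : 0 < α) :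
    IntervalIntegrable (fun u : ℝ => (((1 - u) ^ (α - 1) : ℝ) : ℂ)) volume 0 1 := by
  have h1 := (intervalIntegral.intervalIntegrable_rpow' (a := 0) (b := 1) (r := α - 1)
    (by linarith)).comp_sub_left 1
  have h2 : IntervalIntegrable (fun u : ℝ => (1 - u) ^ (α - 1)) volume 0 1 := by
    simpa using h1.symm
  exact ⟨h2.1.ofReal, h2.2.ofReal⟩

/-- LT: combine. -/
theorem t_LT (hLTA : S_LTA) (hLTB : S_LTB) : S_LT := by
  intro α b hα hα1 hb hb1 ε hε
  obtain ⟨t0, ht0, h0⟩ := hLTA α b hα hα1 hb hb1 (ε / 2) (by positivity)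
  refine ⟨min t0 (min 1 (ε / 48)), by positivity, fun t ht htt ξ hξ => ?_⟩
  have ht1 : t < t0 := lt_of_lt_of_le htt (min_le_left _ _)
  have ht2 : t < 1 := lt_of_lt_of_le htt ((min_le_right _ _).trans (min_le_left _ _))
  have ht3 : t < ε / 48 := lt_of_lt_of_le htt ((min_le_right _ _).trans (min_le_right _ _))
  have hA := h0 t ht ht1 ξ hξ
  have hB := hLTB α b hα hα1 hb hb1 t ht ht2 ξ hξ
  have hc := LT_cont (b := b) hα1 ht hξ
  have hc' : ContinuousOn (fun u : ℝ => ((u ^ (1 - α) : ℝ) : ℂ) *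
      ((u : ℂ) + (t : ℂ) * ξ) ^ (pb α b)) (uIcc 0 1) := by
    rw [uIcc_of_le (zero_le_one)]; exact hc
  have hf2 := hc'.intervalIntegrable (μ := volume)
  have hf1 : IntervalIntegrable (fun u : ℝ => (((1 - u) ^ (α - 1) - 1 : ℝ) : ℂ) *
      ((u ^ (1 - α) : ℝ) : ℂ) * ((u : ℂ) + (t : ℂ) * ξ) ^ (pb α b)) volume 0 1 := by
    have h1 := ((LT_int α hα).mul_continuousOn hc').sub hf2
    refine h1.congr ?_
    intro u _
    simp only [Complex.ofReal_sub, Complex.ofReal_one]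
    ring
  have e : Psi α b ((t : ℂ) * ξ) =
      (∫ u in (0 : ℝ)..1, (((1 - u) ^ (α - 1) - 1 : ℝ) : ℂ) * ((u ^ (1 - α) : ℝ) : ℂ) *
        ((u : ℂ) + (t : ℂ) * ξ) ^ (pb α b)) +
      ∫ u in (0 : ℝ)..1, ((u ^ (1 - α) : ℝ) : ℂ) * ((u : ℂ) + (t : ℂ) * ξ) ^ (pb α b) := by
    rw [Psi, ← intervalIntegral.integral_add hf1 hf2]
    congr 1
    funext u
    have h1 : wt α (1 - u) = (1 - u) ^ (α - 1) * u ^ (1 - α) := by
      rw [wt, sub_sub_cancel]
    rw [h1]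
    simp only [Complex.ofReal_sub, Complex.ofReal_one, Complex.ofReal_mul]
    ring
  rw [e]
  have h2 := norm_add_le_of_le hA hB
  refine le_trans (le_of_eq ?_) (h2.trans (by linarith))
  congr 1
  ring

end Pool.Agent.H212.SN
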