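import Pool.Agent.H212.SN.Stm

set_option autoImplicit false

open Complex Set Filter Topology MeasureTheory
open scoped ComplexConjugate

namespace Pool.Agent.H212.SN

theorem LTA_g {α u : ℝ} (h0 : 0 < α) (h1 : α < 1) (hu0 : 0 < u) (hu1 : u < 1) :
    0 ≤ (1 - u) ^ (α - 1) - 1 ∧ (1 - u) ^ (α - 1) - 1 ≤ u * (1 - u) ^ (α - 1) := by
  have hv : 0 < 1 - u := by linarith
  have hX : 1 ≤ (1 - u) ^ (α - 1) :=
    Real.one_le_rpow_of_pos_of_le_one_of_nonpos hv (by linarith) (by linarith)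
  have h2 : (1 - u) ^ (α - 1) * (1 - u) ^ (1 - α) = 1 := by
    rw [← Real.rpow_add hv]
    have : α - 1 + (1 - α) = 0 := by ring
    rw [this, Real.rpow_zero]
  have h3 : 1 - u ≤ (1 - u) ^ (1 - α) := by
    have := Real.rpow_le_rpow_of_exponent_ge hv (by linarith) (show 1 - α ≤ 1 by linarith)
    rwa [Real.rpow_one] at this
  refine ⟨by linarith, ?_⟩
  nlinarith

theorem LTA_split {α u : ℝ} (h0 : 0 < α) (h1 : α < 1) (hu0 : 0 < u) (hu1 : u < 1) :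
    (1 - u) ^ (α - 1) * u ^ (-(1 / 2) : ℝ) ≤
      2 * u ^ (-(1 / 2) : ℝ) + 2 * (1 - u) ^ (α - 1) := by
  have hv : 0 < 1 - u := by linarith
  have hX : 0 ≤ (1 - u) ^ (α - 1) := Real.rpow_nonneg hv.le _
  have hY : 0 ≤ u ^ (-(1 / 2) : ℝ) := Real.rpow_nonneg hu0.le _
  have h2 : ((1 / 2 : ℝ)) ^ (-1 : ℝ) = 2 := by
    rw [Real.rpow_neg_one]
    norm_num
  rcases le_total u (1 / 2) with h | h
  · have h3 : (1 - u) ^ (α - 1) ≤ 2 := by
      have h4 : (1 - u) ^ (α - 1) ≤ (1 / 2 : ℝ) ^ (α - 1) :=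
        Real.rpow_le_rpow_of_nonpos (by norm_num) (by linarith) (by linarith)
      have h5 : (1 / 2 : ℝ) ^ (α - 1) ≤ (1 / 2 : ℝ) ^ (-1 : ℝ) :=
        Real.rpow_le_rpow_of_exponent_ge (by norm_num) (by norm_num) (by linarith)
      linarith
    nlinarith
  · have h3 : u ^ (-(1 / 2) : ℝ) ≤ 2 := by
      have h4 : u ^ (-(1 / 2) : ℝ) ≤ (1 / 2 : ℝ) ^ (-(1 / 2) : ℝ) :=
        Real.rpow_le_rpow_of_nonpos (by norm_num) h (by norm_num)
      have h5 : (1 / 2 : ℝ) ^ (-(1 / 2) : ℝ) ≤ (1 / 2 : ℝ) ^ (-1 : ℝ) :=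
        Real.rpow_le_rpow_of_exponent_ge (by norm_num) (by norm_num) (by norm_num)
      linarith
    nlinarith

theorem LTA_bound (hK : S_K) {α b : ℝ} (h0 : 0 < α) (h1 : α < 1) (hb : 0 < b) (hb1 : b ≤ 1)
    {t : ℝ} (ht : 0 < t) {ξ : ℂ} (hξ : ‖ξ - 1‖ ≤ 1 / 2) {u : ℝ} (hu0 : 0 < u) (hu1 : u < 1) :
    ‖(((1 - u) ^ (α - 1) - 1 : ℝ) : ℂ) * (u : ℂ) ^ (-1 - (b : ℂ) * I)‖ ≤ (1 - u) ^ (α - 1) ∧
    ‖(((1 - u) ^ (α - 1) - 1 : ℝ) : ℂ) * ((u ^ (1 - α) : ℝ) : ℂ) *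
      ((u : ℂ) + (t : ℂ) * ξ) ^ (pb α b)‖ ≤ 5 * (1 - u) ^ (α - 1) ∧
    ‖(((1 - u) ^ (α - 1) - 1 : ℝ) : ℂ) * ((u ^ (1 - α) : ℝ) : ℂ) *
      ((u : ℂ) + (t : ℂ) * ξ) ^ (pb α b) -
      (((1 - u) ^ (α - 1) - 1 : ℝ) : ℂ) * (u : ℂ) ^ (-1 - (b : ℂ) * I)‖ ≤
      12 * √t * (2 * u ^ (-(1 / 2) : ℝ) + 2 * (1 - u) ^ (α - 1)) := by
  have hv : 0 < 1 - u := by linarith
  have hX : 0 ≤ (1 - u) ^ (α - 1) := Real.rpow_nonneg hv.le _
  obtain ⟨g0, g1⟩ := LTA_g h0 h1 hu0 hu1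
  have hs := LTA_split h0 h1 hu0 hu1
  have huc : (u : ℂ) ≠ 0 := by exact_mod_cast hu0.ne'
  obtain ⟨w, hw⟩ : ∃ w : ℂ, w = ((t / u : ℝ) : ℂ) * ξ := ⟨_, rfl⟩
  have hξre : 1 / 2 ≤ ξ.re := by
    have h3 := (Complex.abs_re_le_norm (ξ - 1)).trans hξ
    rw [Complex.sub_re, Complex.one_re, abs_le] at h3
    linarith [h3.1]
  have hξn : ‖ξ‖ ≤ 3 / 2 := by
    have h3 := norm_add_le (ξ - 1) 1
    rw [sub_add_cancel, norm_one] at h3
    linarith
  have hwre : 0 ≤ w.re := by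
    rw [hw, Complex.re_ofReal_mul]
    have : 0 ≤ t / u := by positivity
    nlinarith
  have hwn : ‖w‖ ≤ 3 / 2 * (t / u) := by
    rw [hw, norm_mul, Complex.norm_real, Real.norm_of_nonneg (by positivity)]
    have : 0 ≤ t / u := by positivity
    nlinarith
  have hpre : (pb α b).re = -(2 - α) := by
    unfold pb
    simp
  have hpim : (pb α b).im = -b := by
    unfold pb
    simp
  obtain ⟨k1, k2⟩ := hK (pb α b) (by rw [hpre]; linarith) (by rw [hpre]; linarith)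
    (by rw [hpim, abs_neg, abs_of_pos hb]; exact hb1) w hwre
  have k3 : ‖(1 + w) ^ (pb α b) - 1‖ ≤ 6 := by
    have := norm_sub_le ((1 + w) ^ (pb α b)) 1
    rw [norm_one] at this
    linarith
  have e1 : (u : ℂ) + (t : ℂ) * ξ = (u : ℂ) * (1 + w) := by
    rw [hw]
    push_cast
    field_simp
  have e2 : ((u : ℂ) * (1 + w)) ^ (pb α b) = (u : ℂ) ^ (pb α b) * (1 + w) ^ (pb α b) := by
    have hw1 : 1 + w ≠ 0 := by
      intro h
      have := congrArg Complex.re h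
      rw [Complex.add_re, Complex.one_re, Complex.zero_re] at this
      linarith
    rw [Complex.cpow_def_of_ne_zero (mul_ne_zero huc hw1), Complex.cpow_def_of_ne_zero huc,
      Complex.cpow_def_of_ne_zero hw1, Complex.log_ofReal_mul hu0 hw1, ← Complex.exp_add,
      Complex.ofReal_log hu0.le, add_mul]
  have e3 : ((u ^ (1 - α) : ℝ) : ℂ) * (u : ℂ) ^ (pb α b) = (u : ℂ) ^ (-1 - (b : ℂ) * I) := by
    rw [Complex.ofReal_cpow hu0.le, ← Complex.cpow_add _ _ huc]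
    congr 1
    unfold pb
    push_cast
    ring
  have e4 : ‖(u : ℂ) ^ (-1 - (b : ℂ) * I)‖ = u⁻¹ := by
    rw [Complex.norm_cpow_eq_rpow_re_of_pos hu0]
    have : (-1 - (b : ℂ) * I).re = -1 := by simp
    rw [this, Real.rpow_neg_one]
  have e5 : (((1 - u) ^ (α - 1) - 1 : ℝ) : ℂ) * ((u ^ (1 - α) : ℝ) : ℂ) *
      ((u : ℂ) + (t : ℂ) * ξ) ^ (pb α b) =
      (((1 - u) ^ (α - 1) - 1 : ℝ) : ℂ) * (u : ℂ) ^ (-1 - (b : ℂ) * I) * (1 + w) ^ (pb α b) := by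
    rw [e1, e2, ← e3]
    ring
  have hB : ‖(((1 - u) ^ (α - 1) - 1 : ℝ) : ℂ) * (u : ℂ) ^ (-1 - (b : ℂ) * I)‖ ≤
      (1 - u) ^ (α - 1) := by
    rw [norm_mul, e4, Complex.norm_real, Real.norm_of_nonneg g0, ← div_eq_mul_inv,
      div_le_iff₀ hu0]
    linarith
  have hr0 : 0 ≤ √t * u ^ (-(1 / 2) : ℝ) :=
    mul_nonneg (Real.sqrt_nonneg _) (Real.rpow_nonneg hu0.le _)
  have hr2 : (√t * u ^ (-(1 / 2) : ℝ)) ^ 2 = t / u := by
    rw [mul_pow, Real.sq_sqrt ht.le, ← Real.rpow_natCast, ← Real.rpow_mul hu0.le]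
    have : (-(1 / 2) : ℝ) * ((2 : ℕ) : ℝ) = -1 := by norm_num
    rw [this, Real.rpow_neg_one]
    rfl
  have hmin : ‖(1 + w) ^ (pb α b) - 1‖ ≤ 12 * (√t * u ^ (-(1 / 2) : ℝ)) := by
    rcases le_total (√t * u ^ (-(1 / 2) : ℝ)) (1 / 2) with h | h
    · nlinarith
    · linarith
  refine ⟨hB, ?_, ?_⟩
  · rw [e5, norm_mul]
    calc _ ≤ (1 - u) ^ (α - 1) * 5 := mul_le_mul hB k1 (norm_nonneg _) hX
      _ = _ := by ring
  · rw [e5, ← mul_sub_one, norm_mul]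
    calc _ ≤ (1 - u) ^ (α - 1) * (12 * (√t * u ^ (-(1 / 2) : ℝ))) :=
          mul_le_mul hB hmin (norm_nonneg _) hX
      _ = 12 * √t * ((1 - u) ^ (α - 1) * u ^ (-(1 / 2) : ℝ)) := by ring
      _ ≤ _ := mul_le_mul_of_nonneg_left hs (by positivity)

theorem LTA_X {α : ℝ} (h0 : 0 < α) :
    IntervalIntegrable (fun u : ℝ => (1 - u) ^ (α - 1)) volume 0 1 := by
  have h := (intervalIntegral.intervalIntegrable_rpow' (a := 0) (b := 1) (r := α - 1)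
    (by linarith)).comp_sub_left 1
  rw [sub_zero, sub_self] at h
  exact h.symm

theorem t_LTA (hK : S_K) : S_LTA := by
  intro α b h0 h1 hb hb1 ε hε
  obtain ⟨h, hh⟩ : ∃ h : ℝ → ℝ, h = fun u => 2 * u ^ (-(1 / 2) : ℝ) + 2 * (1 - u) ^ (α - 1) :=
    ⟨_, rfl⟩
  have hhi : IntervalIntegrable h volume 0 1 := by
    rw [hh]
    exact ((intervalIntegral.intervalIntegrable_rpow' (by norm_num)).const_mul 2).add
      ((LTA_X h0).const_mul 2)
  obtain ⟨K, hKd⟩ : ∃ K : ℝ, K = ∫ u in (0 : ℝ)..1, h u := ⟨_, rfl⟩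
  have hK0 : 0 ≤ |K| := abs_nonneg K
  refine ⟨(ε / (12 * (|K| + 1))) ^ 2, by positivity, ?_⟩
  intro t ht htt ξ hξ
  have hsq : √t ≤ ε / (12 * (|K| + 1)) := by
    rw [Real.sqrt_le_left (by positivity)]
    exact htt.le
  have hne : ∀ᵐ u : ℝ, u ≠ 1 := by
    have := (Set.countable_singleton (1 : ℝ)).ae_notMem volume
    filter_upwards [this] with u hu
    exact hu
  have hcond : ∀ u : ℝ, u ≠ 1 → u ∈ Set.Ioc (0 : ℝ) 1 → 0 < u ∧ u < 1 := fun u h2 h3 =>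
    ⟨h3.1, lt_of_le_of_ne h3.2 h2⟩
  have hBi : IntervalIntegrable (fun u : ℝ => (((1 - u) ^ (α - 1) - 1 : ℝ) : ℂ) *
      (u : ℂ) ^ (-1 - (b : ℂ) * I)) volume 0 1 := by
    refine (LTA_X h0).mono_fun' ?_ ?_
    · refine Measurable.aestronglyMeasurable ?_
      refine Measurable.mul ?_ (Complex.measurable_ofReal.pow_const _)
      exact Complex.measurable_ofReal.comp (((measurable_const.sub measurable_id).pow_const _).sub
        measurable_const)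
    · rw [Set.uIoc_of_le zero_le_one]
      refine (ae_restrict_iff' measurableSet_Ioc).2 ?_
      filter_upwards [hne] with u h2 h3
      obtain ⟨h4, h5⟩ := hcond u h2 h3
      exact (LTA_bound hK h0 h1 hb hb1 ht hξ h4 h5).1
  have hAi : IntervalIntegrable (fun u : ℝ => (((1 - u) ^ (α - 1) - 1 : ℝ) : ℂ) *
      ((u ^ (1 - α) : ℝ) : ℂ) * ((u : ℂ) + (t : ℂ) * ξ) ^ (pb α b)) volume 0 1 := by
    refine ((LTA_X h0).const_mul 5).mono_fun' ?_ ?_
    · refine Measurable.aestronglyMeasurable ?_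
      refine Measurable.mul (Measurable.mul ?_ ?_) ?_
      · exact Complex.measurable_ofReal.comp
          (((measurable_const.sub measurable_id).pow_const _).sub measurable_const)
      · exact Complex.measurable_ofReal.comp (measurable_id.pow_const _)
      · exact (Complex.measurable_ofReal.add measurable_const).pow_const _
    · rw [Set.uIoc_of_le zero_le_one]
      refine (ae_restrict_iff' measurableSet_Ioc).2 ?_
      filter_upwards [hne] with u h2 h3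
      obtain ⟨h4, h5⟩ := hcond u h2 h3
      exact (LTA_bound hK h0 h1 hb hb1 ht hξ h4 h5).2.1
  unfold Mc
  rw [← intervalIntegral.integral_sub hAi hBi]
  have hb2 := intervalIntegral.norm_integral_le_of_norm_le (a := 0) (b := 1) (μ := volume)
    (f := fun u : ℝ => (((1 - u) ^ (α - 1) - 1 : ℝ) : ℂ) *
      ((u ^ (1 - α) : ℝ) : ℂ) * ((u : ℂ) + (t : ℂ) * ξ) ^ (pb α b) -
      (((1 - u) ^ (α - 1) - 1 : ℝ) : ℂ) * (u : ℂ) ^ (-1 - (b : ℂ) * I))
    (g := fun u => 12 * √t * h u) zero_le_one (by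
      filter_upwards [hne] with u h2 h3
      obtain ⟨h4, h5⟩ := hcond u h2 h3
      rw [hh]
      exact (LTA_bound hK h0 h1 hb hb1 ht hξ h4 h5).2.2) (hhi.const_mul _)
  refine hb2.trans ?_
  rw [intervalIntegral.integral_const_mul, ← hKd]
  have hs0 : 0 ≤ √t := Real.sqrt_nonneg t
  rw [le_div_iff₀ (by positivity)] at hsq
  have hKa := le_abs_self K
  calc 12 * √t * K ≤ 12 * √t * |K| := mul_le_mul_of_nonneg_left hKa (by positivity)
    _ ≤ √t * (12 * (|K| + 1)) := by nlinarith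
    _ ≤ ε := hsq

end Pool.Agent.H212.SN
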