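import Pool.Agent.H212.SN.Stm

set_option autoImplicit false

open Complex Set Filter Topology MeasureTheory
open scoped ComplexConjugate

namespace Pool.Agent.H212.SN

noncomputable def LTB_h (α b : ℝ) (ξ : ℂ) (v : ℝ) : ℂ :=
  ((v ^ (1 - α) : ℝ) : ℂ) * ((v : ℂ) + ξ) ^ (pb α b)

noncomputable def LTB_g (b : ℝ) (v : ℝ) : ℂ := (v : ℂ) ^ (-1 - (b : ℂ) * I)

theorem LTB_mul_cpow (r : ℝ) (hr : 0 < r) (w : ℂ) (hw : w ≠ 0) (p : ℂ) :
    ((r : ℂ) * w) ^ p = (r : ℂ) ^ p * w ^ p := by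
  have hr0 : (r : ℂ) ≠ 0 := by exact_mod_cast hr.ne'
  rw [cpow_def_of_ne_zero (mul_ne_zero hr0 hw), cpow_def_of_ne_zero hr0, cpow_def_of_ne_zero hw,
    Complex.log_ofReal_mul hr hw, ← Complex.exp_add, Complex.ofReal_log hr.le]
  congr 1
  ring

theorem LTB_re {ξ : ℂ} (h : ‖ξ - 1‖ ≤ 1 / 2) : 1 / 2 ≤ ξ.re := by
  have h1 := Complex.abs_re_le_norm (ξ - 1)
  rw [Complex.sub_re, Complex.one_re] at h1
  have h2 := abs_le.1 (h1.trans h)
  linarith [h2.1]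

theorem LTB_norm {ξ : ℂ} (h : ‖ξ - 1‖ ≤ 1 / 2) : ‖ξ‖ ≤ 3 / 2 := by
  have h1 : ‖ξ‖ ≤ ‖ξ - 1‖ + ‖(1 : ℂ)‖ := by
    have := norm_add_le (ξ - 1) 1
    rwa [sub_add_cancel] at this
  rw [norm_one] at h1
  linarith

theorem LTB_cont (α b : ℝ) (h1 : α < 1) {ξ : ℂ} (hξ : 1 / 2 ≤ ξ.re) :
    ContinuousOn (LTB_h α b ξ) (Ici 0) := by
  unfold LTB_h
  refine ContinuousOn.mul ?_ ?_
  · exact (Complex.continuous_ofReal.comp
      (Real.continuous_rpow_const (by linarith))).continuousOn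
  · intro v hv
    refine ContinuousAt.continuousWithinAt ?_
    refine ContinuousAt.cpow ?_ continuousAt_const ?_
    · fun_prop
    · rw [Complex.mem_slitPlane_iff]
      left
      rw [Complex.add_re, Complex.ofReal_re]
      have := mem_Ici.1 hv
      linarith

theorem LTB_contg (b : ℝ) : ContinuousOn (LTB_g b) (Ioi 0) := by
  intro v hv
  refine ContinuousAt.continuousWithinAt ?_
  unfold LTB_g
  refine ContinuousAt.cpow ?_ continuousAt_const ?_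
  · fun_prop
  · rw [Complex.mem_slitPlane_iff]
    left
    rw [Complex.ofReal_re]
    exact hv

theorem LTB_bound (hK : S_K) {α b : ℝ} (h0 : 0 < α) (h1 : α < 1) (hb : 0 < b) (hb1 : b ≤ 1)
    {ξ : ℂ} (hξ : ‖ξ - 1‖ ≤ 1 / 2) (v : ℝ) (hv : 1 ≤ v) :
    ‖LTB_h α b ξ v - LTB_g b v‖ ≤ 24 * v ^ (-2 : ℝ) := by
  have hv0 : 0 < v := by linarith
  have hvc : (v : ℂ) ≠ 0 := by exact_mod_cast hv0.ne'
  have hre := LTB_re hξ
  have hn := LTB_norm hξ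
  have hre2 : 0 ≤ ξ.re / v := div_nonneg (by linarith) hv0.le
  have e1 : (v : ℂ) + ξ = (v : ℂ) * (1 + ξ / v) := by field_simp
  have hw : (1 + ξ / (v : ℂ)) ≠ 0 := by
    intro h
    have h2 := congrArg Complex.re h
    rw [add_re, one_re, zero_re, Complex.div_ofReal_re] at h2
    linarith
  have e2 : LTB_h α b ξ v = LTB_g b v * (1 + ξ / (v : ℂ)) ^ (pb α b) := by
    unfold LTB_h LTB_g
    rw [e1, LTB_mul_cpow v hv0 _ hw, Complex.ofReal_cpow hv0.le, ← mul_assoc,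
      ← Complex.cpow_add _ _ hvc]
    congr 2
    unfold pb
    push_cast
    ring
  have e3 : (-1 - (b : ℂ) * I).re = -1 := by simp
  have e4 : ‖LTB_g b v‖ = v ^ (-1 : ℝ) := by
    unfold LTB_g
    rw [Complex.norm_cpow_eq_rpow_re_of_pos hv0, e3]
  have p1 : (pb α b).re = -(2 - α) := by simp [pb]
  have p2 : (pb α b).im = -b := by simp [pb]
  have h3 := (hK (pb α b) (by rw [p1]; linarith) (by rw [p1]; linarith)
    (by rw [p2, abs_neg, abs_of_pos hb]; exact hb1) (ξ / (v : ℂ))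
    (by rw [Complex.div_ofReal_re]; exact hre2)).2
  have h4 : ‖ξ / (v : ℂ)‖ ≤ 3 / 2 / v := by
    rw [norm_div, Complex.norm_real, Real.norm_of_nonneg hv0.le]
    gcongr
  have e5 : LTB_h α b ξ v - LTB_g b v = LTB_g b v * ((1 + ξ / (v : ℂ)) ^ (pb α b) - 1) := by
    rw [e2]
    ring
  rw [e5, norm_mul, e4]
  have h5 : ‖(1 + ξ / (v : ℂ)) ^ (pb α b) - 1‖ ≤ 16 * (3 / 2 / v) := h3.trans (by gcongr)
  have h6 : v ^ (-2 : ℝ) = v⁻¹ * v⁻¹ := by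
    rw [Real.rpow_neg hv0.le, Real.rpow_two, ← mul_inv, sq]
  rw [h6, Real.rpow_neg_one]
  calc v⁻¹ * ‖(1 + ξ / (v : ℂ)) ^ (pb α b) - 1‖ ≤ v⁻¹ * (16 * (3 / 2 / v)) := by gcongr
    _ = 24 * (v⁻¹ * v⁻¹) := by
      rw [div_eq_mul_inv (3 / 2 : ℝ) v]
      ring

theorem LTB_int (hK : S_K) {α b : ℝ} (h0 : 0 < α) (h1 : α < 1) (hb : 0 < b) (hb1 : b ≤ 1)
    {ξ : ℂ} (hξ : ‖ξ - 1‖ ≤ 1 / 2) :
    IntegrableOn (fun v => LTB_h α b ξ v - LTB_g b v) (Ioi 1) := by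
  have hi : IntegrableOn (fun v : ℝ => 24 * v ^ (-2 : ℝ)) (Ioi 1) :=
    (integrableOn_Ioi_rpow_of_lt (by norm_num) one_pos).const_mul 24
  refine Integrable.mono' hi ?_ ?_
  · refine ContinuousOn.aestronglyMeasurable ?_ measurableSet_Ioi
    refine ContinuousOn.sub ?_ ?_
    · exact (LTB_cont α b h1 (LTB_re hξ)).mono fun v hv => mem_Ici.2 (zero_lt_one.trans (mem_Ioi.1 hv)).le
    · exact (LTB_contg b).mono fun v hv => mem_Ioi.2 (zero_lt_one.trans (mem_Ioi.1 hv))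
  · refine (ae_restrict_iff' measurableSet_Ioi).2 (ae_of_all _ fun v hv => ?_)
    exact LTB_bound hK h0 h1 hb hb1 hξ v (le_of_lt hv)

theorem LTB_tail (hK : S_K) {α b : ℝ} (h0 : 0 < α) (h1 : α < 1) (hb : 0 < b) (hb1 : b ≤ 1)
    {ξ : ℂ} (hξ : ‖ξ - 1‖ ≤ 1 / 2) (t : ℝ) (ht : 0 < t) (ht1 : t < 1) :
    ‖∫ v in Ioi (1 / t), (LTB_h α b ξ v - LTB_g b v)‖ ≤ 24 * t := by
  have hT : 1 ≤ 1 / t := by
    rw [le_div_iff₀ ht]
    linarith
  have hT0 : 0 < 1 / t := by positivity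
  have hi : IntegrableOn (fun v : ℝ => 24 * v ^ (-2 : ℝ)) (Ioi (1 / t)) :=
    (integrableOn_Ioi_rpow_of_lt (by norm_num) hT0).const_mul 24
  have h2 : ‖∫ v in Ioi (1 / t), (LTB_h α b ξ v - LTB_g b v)‖ ≤
      ∫ v in Ioi (1 / t), 24 * v ^ (-2 : ℝ) := by
    refine norm_integral_le_of_norm_le hi ?_
    refine (ae_restrict_iff' measurableSet_Ioi).2 (ae_of_all _ fun v hv => ?_)
    exact LTB_bound hK h0 h1 hb hb1 hξ v (hT.trans (le_of_lt hv))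
  refine h2.trans (le_of_eq ?_)
  rw [integral_const_mul, integral_Ioi_rpow_of_lt (by norm_num) hT0]
  have e : (1 / t : ℝ) ^ (-2 + 1 : ℝ) = t := by
    rw [show (-2 + 1 : ℝ) = -1 by norm_num, Real.rpow_neg_one, one_div, inv_inv]
  rw [e]
  ring

theorem LTB_scale (α b : ℝ) (ξ : ℂ) (hξ : 1 / 2 ≤ ξ.re) (t : ℝ) (ht : 0 < t) :
    (∫ u in (0 : ℝ)..1, ((u ^ (1 - α) : ℝ) : ℂ) * ((u : ℂ) + (t : ℂ) * ξ) ^ (pb α b)) =
      (t : ℂ) ^ (-((b : ℂ) * I)) * ∫ v in (0 : ℝ)..(1 / t), LTB_h α b ξ v := by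
  have htc : (t : ℂ) ≠ 0 := by exact_mod_cast ht.ne'
  have h1 := intervalIntegral.smul_integral_comp_mul_left (a := 0) (b := 1 / t)
    (fun u : ℝ => ((u ^ (1 - α) : ℝ) : ℂ) * ((u : ℂ) + (t : ℂ) * ξ) ^ (pb α b)) t
  rw [mul_zero, mul_one_div_cancel ht.ne'] at h1
  rw [← h1]
  have h2 : (∫ v in (0 : ℝ)..(1 / t), (((t * v) ^ (1 - α) : ℝ) : ℂ) *
      (((t * v : ℝ) : ℂ) + (t : ℂ) * ξ) ^ (pb α b)) =
      ∫ v in (0 : ℝ)..(1 / t), ((t : ℂ) ^ ((1 - α : ℝ) : ℂ) * (t : ℂ) ^ (pb α b)) *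
        LTB_h α b ξ v := by
    refine intervalIntegral.integral_congr fun v hv => ?_
    rw [uIcc_of_le (by positivity)] at hv
    have hv0 : 0 ≤ v := hv.1
    have hw : (v : ℂ) + ξ ≠ 0 := by
      intro h
      have h2 := congrArg Complex.re h
      rw [add_re, ofReal_re, zero_re] at h2
      linarith
    have e1 : ((t * v : ℝ) : ℂ) + (t : ℂ) * ξ = (t : ℂ) * ((v : ℂ) + ξ) := by
      push_cast
      ring
    simp only [LTB_h]
    rw [e1, LTB_mul_cpow t ht _ hw, Real.mul_rpow ht.le hv0, Complex.ofReal_mul,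
      Complex.ofReal_cpow ht.le]
    ring
  rw [h2, intervalIntegral.integral_const_mul, Complex.real_smul, ← mul_assoc]
  congr 1
  have e2 : (t : ℂ) = (t : ℂ) ^ (1 : ℂ) := (Complex.cpow_one _).symm
  conv_lhs => 
    rw [← Complex.cpow_add _ _ htc]
    arg 1
    rw [e2]
  rw [← Complex.cpow_add _ _ htc]
  congr 1
  unfold pb
  push_cast
  ring

theorem t_LTB (hK : S_K) : S_LTB := by
  intro α b h0 h1 hb hb1 t ht ht1 ξ hξ
  have hre := LTB_re hξ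
  have htc : (t : ℂ) ≠ 0 := by exact_mod_cast ht.ne'
  have hbc : (b : ℂ) * I ≠ 0 := mul_ne_zero (by exact_mod_cast hb.ne') I_ne_zero
  have hT : 1 ≤ 1 / t := by
    rw [le_div_iff₀ ht]
    linarith
  have hT0 : 0 < 1 / t := by positivity
  have hc := LTB_cont α b h1 hre
  have hcg := LTB_contg b
  have i1 : IntervalIntegrable (LTB_h α b ξ) volume 0 1 :=
    (hc.mono fun v hv => by rw [uIcc_of_le zero_le_one] at hv; exact hv.1).intervalIntegrable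
  have i2 : IntervalIntegrable (LTB_h α b ξ) volume 1 (1 / t) :=
    (hc.mono fun v hv => by
      rw [uIcc_of_le hT] at hv; exact zero_le_one.trans hv.1).intervalIntegrable
  have i3 : IntervalIntegrable (LTB_g b) volume 1 (1 / t) :=
    (hcg.mono fun v hv => by
      rw [uIcc_of_le hT] at hv; exact zero_lt_one.trans_le hv.1).intervalIntegrable
  have s1 : (∫ v in (0 : ℝ)..(1 / t), LTB_h α b ξ v) = (∫ v in (0 : ℝ)..1, LTB_h α b ξ v) +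
      ((∫ v in (1 : ℝ)..(1 / t), (LTB_h α b ξ v - LTB_g b v)) +
        ∫ v in (1 : ℝ)..(1 / t), LTB_g b v) := by
    rw [← intervalIntegral.integral_add_adjacent_intervals i1 i2,
      intervalIntegral.integral_sub i2 i3]
    ring
  have s2 : (∫ v in (1 : ℝ)..(1 / t), LTB_g b v) =
      (1 - (t : ℂ) ^ ((b : ℂ) * I)) / ((b : ℂ) * I) := by
    unfold LTB_g
    rw [integral_cpow]
    · have e1 : (-1 - (b : ℂ) * I) + 1 = -((b : ℂ) * I) := by ring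
      rw [e1, Complex.ofReal_one, Complex.one_cpow]
      have e2 : ((1 / t : ℝ) : ℂ) ^ (-((b : ℂ) * I)) = (t : ℂ) ^ ((b : ℂ) * I) := by
        rw [one_div, Complex.ofReal_inv, Complex.inv_cpow, Complex.cpow_neg, inv_inv]
        rw [Complex.arg_ofReal_of_nonneg ht.le]
        exact Real.pi_pos.ne
      rw [e2, div_neg, ← neg_div, neg_sub]
    · right
      refine ⟨?_, ?_⟩
      · intro h
        apply hbc
        linear_combination -h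
      · rw [uIcc_of_le hT]
        intro h
        have := h.1
        linarith
  have s3 : (∫ v in Ioi (1 : ℝ), (LTB_h α b ξ v - LTB_g b v)) =
      (∫ v in (1 : ℝ)..(1 / t), (LTB_h α b ξ v - LTB_g b v)) +
        ∫ v in Ioi (1 / t), (LTB_h α b ξ v - LTB_g b v) := by
    have hI := LTB_int hK h0 h1 hb hb1 hξ
    exact (intervalIntegral.integral_interval_add_Ioi hI
      (hI.mono_set (Ioi_subset_Ioi hT))).symm
  have hN : Nc α b ξ = (∫ v in (0 : ℝ)..1, LTB_h α b ξ v) +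
      ∫ v in Ioi (1 : ℝ), (LTB_h α b ξ v - LTB_g b v) := rfl
  have hTT : (t : ℂ) ^ (-((b : ℂ) * I)) * (t : ℂ) ^ ((b : ℂ) * I) = 1 := by
    rw [← Complex.cpow_add _ _ htc, neg_add_cancel, Complex.cpow_zero]
  have hTn : ‖(t : ℂ) ^ (-((b : ℂ) * I))‖ = 1 := by
    rw [Complex.norm_cpow_eq_rpow_re_of_pos ht]
    simp
  rw [LTB_scale α b ξ hre t ht, s1, s2, hN, s3]
  obtain ⟨A, hA⟩ : ∃ A : ℂ, A = ∫ v in (0 : ℝ)..1, LTB_h α b ξ v := ⟨_, rfl⟩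
  obtain ⟨B, hB⟩ : ∃ B : ℂ, B = ∫ v in (1 : ℝ)..(1 / t), (LTB_h α b ξ v - LTB_g b v) := ⟨_, rfl⟩
  obtain ⟨R, hR⟩ : ∃ R : ℂ, R = ∫ v in Ioi (1 / t), (LTB_h α b ξ v - LTB_g b v) := ⟨_, rfl⟩
  have hRt : ‖R‖ ≤ 24 * t := by
    rw [hR]
    exact LTB_tail hK h0 h1 hb hb1 hξ t ht ht1
  rw [← hA, ← hB, ← hR]
  have e : (t : ℂ) ^ (-((b : ℂ) * I)) * (A + (B + (1 - (t : ℂ) ^ ((b : ℂ) * I)) / ((b : ℂ) * I))) -
      (-1 / ((b : ℂ) * I) + (t : ℂ) ^ (-((b : ℂ) * I)) * (1 / ((b : ℂ) * I) + (A + (B + R)))) =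
      -((t : ℂ) ^ (-((b : ℂ) * I)) * R) := by
    have e1 : (t : ℂ) ^ (-((b : ℂ) * I)) * ((1 - (t : ℂ) ^ ((b : ℂ) * I)) / ((b : ℂ) * I)) =
        ((t : ℂ) ^ (-((b : ℂ) * I)) - 1) / ((b : ℂ) * I) := by
      rw [← mul_div_assoc, mul_sub, mul_one, hTT]
    have e2 : (t : ℂ) ^ (-((b : ℂ) * I)) * (A + (B + (1 - (t : ℂ) ^ ((b : ℂ) * I)) / ((b : ℂ) * I))) =
        (t : ℂ) ^ (-((b : ℂ) * I)) * (A + B) + (t : ℂ) ^ (-((b : ℂ) * I)) *
          ((1 - (t : ℂ) ^ ((b : ℂ) * I)) / ((b : ℂ) * I)) := by ring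
    rw [e2, e1]
    field_simp
    ring
  rw [e, norm_neg, norm_mul, hTn, one_mul]
  exact hRt

end Pool.Agent.H212.SN
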