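import Mathlib
import Pool.Agent.H212.SN.Stm

/-!
# Job MM of project SN (helper212), by helper633: minimum modulus
-/

open Complex Set Filter Topology MeasureTheory

namespace Pool.Agent.H212.SN

theorem t_MM : S_MM := by
  intro f c ρ m hρ hf hs hc
  by_contra hne
  have hne : ∀ ξ ∈ Metric.ball c ρ, f ξ ≠ 0 := fun ξ hξ h0 => hne ⟨ξ, hξ, h0⟩
  have hm : 0 < m := lt_of_le_of_lt (norm_nonneg _) hc
  have hnz : ∀ ξ ∈ Metric.closedBall c ρ, f ξ ≠ 0 := by
    intro ξ hξ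
    rcases lt_or_eq_of_le (Metric.mem_closedBall.1 hξ) with h | h
    · exact hne ξ (Metric.mem_ball.2 h)
    · intro h0
      have h1 := hs ξ (by rw [← dist_eq_norm]; exact h)
      rw [h0, norm_zero] at h1
      linarith
  have hg : DifferentiableOn ℂ (fun ξ => (f ξ)⁻¹) (Metric.closedBall c ρ) := hf.inv hnz
  have hcl : closure (Metric.ball c ρ) ⊆ Metric.closedBall c ρ := Metric.closure_ball_subset_closedBall
  have hd : DiffContOnCl ℂ (fun ξ => (f ξ)⁻¹) (Metric.ball c ρ) :=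
    ⟨hg.mono Metric.ball_subset_closedBall, hg.continuousOn.mono hcl⟩
  have hb : ∀ z ∈ frontier (Metric.ball c ρ), ‖(fun ξ => (f ξ)⁻¹) z‖ ≤ m⁻¹ := by
    intro z hz
    have hz2 : z ∈ Metric.sphere c ρ := Metric.frontier_ball_subset_sphere hz
    have h1 := hs z (by rw [← dist_eq_norm]; exact hz2)
    show ‖(f z)⁻¹‖ ≤ m⁻¹
    rw [norm_inv]
    exact inv_anti₀ hm h1
  have hcc : c ∈ closure (Metric.ball c ρ) := subset_closure (Metric.mem_ball_self hρ)
  have h2 := Complex.norm_le_of_forall_mem_frontier_norm_le Metric.isBounded_ball hd hb hcc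
  have h3 : ‖(f c)⁻¹‖ ≤ m⁻¹ := h2
  rw [norm_inv] at h3
  have h4 : 0 < ‖f c‖ := norm_pos_iff.2 (hnz c (Metric.mem_closedBall_self hρ.le))
  have h5 := (inv_le_inv₀ h4 hm).1 h3
  linarith

end Pool.Agent.H212.SN
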