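import Pool.Agent.H212.SN.Stm

open Complex Set Filter Topology MeasureTheory
open scoped ComplexConjugate Real

namespace Pool.Agent.H212.SN

/-- The real kernel. -/
noncomputable def RE_g (α ξ v : ℝ) : ℝ := v ^ (1 - α) * (v + ξ) ^ (-(2 - α))

lemma RE_pb (α : ℝ) : pb α 0 = ((-(2 - α) : ℝ) : ℂ) := by
  simp [pb]

lemma RE_kernel {α ξ v : ℝ} (hξ : 0 < ξ) (hv : 0 ≤ v) :
    ((v ^ (1 - α) : ℝ) : ℂ) * ((v : ℂ) + (ξ : ℂ)) ^ (pb α 0) = ((RE_g α ξ v : ℝ) : ℂ) := by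
  rw [RE_pb, RE_g, Complex.ofReal_mul]
  congr 1
  rw [← Complex.ofReal_add, Complex.ofReal_cpow (by linarith)]

lemma RE_one (v : ℝ) : (v : ℂ) ^ (-1 - ((0 : ℝ) : ℂ) * I) = ((v⁻¹ : ℝ) : ℂ) := by
  simp [Complex.cpow_neg_one]

lemma RE_Nc {α ξ : ℝ} (hξ : 0 < ξ) :
    Nc α 0 (ξ : ℂ) = (((∫ v in (0 : ℝ)..1, RE_g α ξ v) + ∫ v in Set.Ioi (1 : ℝ), (RE_g α ξ v - v⁻¹) : ℝ) : ℂ) := by
  unfold Nc
  rw [Complex.ofReal_add]
  congr 1
  · rw [← intervalIntegral.integral_ofReal]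
    apply intervalIntegral.integral_congr
    intro v hv
    rw [Set.uIcc_of_le zero_le_one] at hv
    exact RE_kernel hξ hv.1
  · rw [← integral_complex_ofReal]
    apply setIntegral_congr_fun measurableSet_Ioi
    intro v hv
    have hv' : (1 : ℝ) < v := hv
    simp only
    rw [RE_kernel hξ (by linarith), RE_one]
    push_cast
    rfl

lemma RE_Mc (α : ℝ) : Mc α 0 = ((∫ u in (0 : ℝ)..1, ((1 - u) ^ (α - 1) - 1) * u⁻¹ : ℝ) : ℂ) := by
  unfold Mc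
  rw [← intervalIntegral.integral_ofReal]
  apply intervalIntegral.integral_congr
  intro u _
  simp only
  rw [RE_one]
  push_cast
  rfl

lemma RE_g_eq {α ξ v : ℝ} (hξ : 0 < ξ) (hv : 0 < v) :
    RE_g α ξ v = (v + ξ)⁻¹ * (v / (v + ξ)) ^ (1 - α) := by
  have h : 0 < v + ξ := by linarith
  rw [RE_g, Real.div_rpow hv.le h.le, show -(2 - α) = -1 - (1 - α) by ring, Real.rpow_sub h, Real.rpow_neg_one]
  field_simp

lemma RE_bound {α ξ v : ℝ} (h0 : 0 < α) (h1 : α < 1) (hξ : 0 < ξ) (hv : 0 < v) :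
    ‖RE_g α ξ v - v⁻¹‖ ≤ 2 * ξ * v ^ (-2 : ℝ) := by
  have h : 0 < v + ξ := by linarith
  have hx0 : 0 < v / (v + ξ) := by positivity
  have hx1 : v / (v + ξ) ≤ 1 := by
    rw [div_le_one h]; linarith
  have hup : (v / (v + ξ)) ^ (1 - α) ≤ 1 := Real.rpow_le_one hx0.le hx1 (by linarith)
  have hlo : v / (v + ξ) ≤ (v / (v + ξ)) ^ (1 - α) := by
    calc v / (v + ξ) = (v / (v + ξ)) ^ (1 : ℝ) := (Real.rpow_one _).symm
      _ ≤ _ := Real.rpow_le_rpow_of_exponent_ge hx0 hx1 (by linarith)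
  have hv2 : v ^ (-2 : ℝ) = (v ^ 2)⁻¹ := by
    rw [Real.rpow_neg hv.le]
    norm_num
  rw [RE_g_eq hξ hv, hv2, Real.norm_eq_abs, abs_le]
  constructor
  · have e1 : (v + ξ)⁻¹ * (v / (v + ξ)) ≤ (v + ξ)⁻¹ * (v / (v + ξ)) ^ (1 - α) :=
      mul_le_mul_of_nonneg_left hlo (inv_nonneg.2 h.le)
    have e2 : v⁻¹ - (v + ξ)⁻¹ * (v / (v + ξ)) ≤ 2 * ξ * (v ^ 2)⁻¹ := by
      rw [← sub_nonneg]
      have : 2 * ξ * (v ^ 2)⁻¹ - (v⁻¹ - (v + ξ)⁻¹ * (v / (v + ξ)))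
          = ξ ^ 2 * (3 * v + 2 * ξ) / (v ^ 2 * (v + ξ) ^ 2) := by
        field_simp
        ring
      rw [this]
      positivity
    linarith
  · have e1 : (v + ξ)⁻¹ * (v / (v + ξ)) ^ (1 - α) ≤ (v + ξ)⁻¹ * 1 :=
      mul_le_mul_of_nonneg_left hup (inv_nonneg.2 h.le)
    have e2 : (v + ξ)⁻¹ ≤ v⁻¹ := inv_anti₀ hv (by linarith)
    have e3 : 0 ≤ 2 * ξ * (v ^ 2)⁻¹ := by positivity
    linarith

lemma RE_int {α ξ : ℝ} (h0 : 0 < α) (h1 : α < 1) (hξ : 0 < ξ) :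
    IntegrableOn (fun v : ℝ => RE_g α ξ v - v⁻¹) (Set.Ioi (1 : ℝ)) := by
  have hb : IntegrableOn (fun v : ℝ => 2 * ξ * v ^ (-2 : ℝ)) (Set.Ioi (1 : ℝ)) :=
    (integrableOn_Ioi_rpow_of_lt (by norm_num) one_pos).const_mul (2 * ξ)
  refine Integrable.mono' hb ?_ ?_
  · apply Measurable.aestronglyMeasurable
    unfold RE_g
    fun_prop
  · rw [ae_restrict_iff' measurableSet_Ioi]
    refine Filter.Eventually.of_forall fun v hv => ?_
    have hv' : (1 : ℝ) < v := hv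
    exact RE_bound h0 h1 hξ (by linarith)

lemma RE_cont {α ξ : ℝ} (h1 : α < 1) (hξ : 0 < ξ) :
    ContinuousOn (fun v : ℝ => RE_g α ξ v) (Set.Icc 0 1) := by
  unfold RE_g
  apply ContinuousOn.mul
  · exact (Real.continuous_rpow_const (by linarith)).continuousOn
  · apply ContinuousOn.rpow_const
    · fun_prop
    · intro v hv
      left
      have : 0 ≤ v := hv.1
      linarith

lemma RE_lt {α v : ℝ} (h1 : α < 1) (hv : 0 < v) : RE_g α (3 / 2) v < RE_g α 1 v := by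
  unfold RE_g
  apply mul_lt_mul_of_pos_left
  · exact Real.rpow_lt_rpow_of_neg (by linarith) (by linarith) (by linarith)
  · exact Real.rpow_pos_of_pos hv _

theorem t_RE : S_RE := by
  intro α h0 h1
  have hN1 := RE_Nc (α := α) (ξ := 1) one_pos
  have hN2 := RE_Nc (α := α) (ξ := 3 / 2) (by norm_num)
  rw [Complex.ofReal_one] at hN1
  have hc : ((3 / 2 : ℝ) : ℂ) = 3 / 2 := by push_cast; rfl
  rw [hc] at hN2
  refine ⟨?_, ?_, ?_⟩
  · rw [hN1]; exact Complex.ofReal_im _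
  · rw [RE_Mc]; exact Complex.ofReal_im _
  · intro h
    rw [hN1, hN2] at h
    have h' := Complex.ofReal_injective h
    have a1 : (∫ v in (0 : ℝ)..1, RE_g α (3 / 2) v) < ∫ v in (0 : ℝ)..1, RE_g α 1 v := by
      apply intervalIntegral.integral_lt_integral_of_continuousOn_of_le_of_exists_lt one_pos
        (RE_cont h1 (by norm_num)) (RE_cont h1 one_pos)
      · intro x hx
        exact (RE_lt h1 hx.1).le
      · exact ⟨1, ⟨zero_le_one, le_rfl⟩, RE_lt h1 one_pos⟩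
    have a2 : (∫ v in Set.Ioi (1 : ℝ), (RE_g α (3 / 2) v - v⁻¹)) ≤ ∫ v in Set.Ioi (1 : ℝ), (RE_g α 1 v - v⁻¹) := by
      apply setIntegral_mono_on (RE_int h0 h1 (by norm_num)) (RE_int h0 h1 one_pos) measurableSet_Ioi
      intro x hx
      have hx' : (1 : ℝ) < x := hx
      have := (RE_lt (α := α) h1 (show (0 : ℝ) < x by linarith)).le
      linarith
    linarith

end Pool.Agent.H212.SN
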