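import Pool.Agent.H212.SN.Stm

set_option autoImplicit false

open Complex Set Filter Topology MeasureTheory
open scoped ComplexConjugate

namespace Pool.Agent.H212.SN

theorem t_REL : S_REL := by
  intro x y hx hy hxy
  have hxx : conj x * x = 1 := by
    rw [mul_comm, Complex.mul_conj, Complex.normSq_eq_norm_sq, hx]
    norm_num
  obtain ⟨w, hw⟩ : ∃ w, w = conj x * y := ⟨_, rfl⟩
  rw [← hw]
  have hw1 : ‖w‖ = 1 := by rw [hw, norm_mul, Complex.norm_conj, hx, hy, mul_one]
  have hwn : w ≠ 1 := by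
    intro h
    apply hxy
    have h1 : x * (conj x * y) = y := by rw [← mul_assoc, mul_comm x, hxx, one_mul]
    rw [← hw, h, mul_one] at h1
    exact h1
  have hre : w.re < 1 := by
    by_contra h
    have h0 : 1 ≤ w.re := not_lt.1 h
    have h1 : w.re ≤ 1 := by rw [← hw1]; exact Complex.re_le_norm w
    have h2 : w.re = 1 := le_antisymm h1 h0
    have h3 : w.im = 0 := by
      have h4 : ‖w‖ ^ 2 = w.re ^ 2 + w.im ^ 2 := by
        rw [← Complex.normSq_eq_norm_sq, Complex.normSq_apply]
        ring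
      rw [hw1, h2] at h4
      nlinarith
    exact hwn (Complex.ext h2 h3)
  refine ⟨(1 - w.re) / 2, by linarith, ?_⟩
  intro η h1 h2 h3
  have him : |w.im| ≤ 1 := by rw [← hw1]; exact Complex.abs_im_le_norm w
  have hd1 : (1 - w).re = 1 - w.re := by rw [Complex.sub_re, Complex.one_re]
  have hd2 : (1 - w).im = -w.im := by rw [Complex.sub_im, Complex.one_im, zero_sub]
  obtain ⟨d, hd⟩ : ∃ d, d = 1 - w := ⟨_, rfl⟩
  rw [← hd] at hd1 hd2 ⊢
  have hu : 0 < (d * η).re := by
    rw [Complex.mul_re, hd1, hd2]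
    have h4 : |w.im * η.im| ≤ (1 - w.re) / 2 * η.re := by
      rw [abs_mul]
      calc |w.im| * |η.im| ≤ 1 * |η.im| := mul_le_mul_of_nonneg_right him (abs_nonneg _)
        _ = |η.im| := one_mul _
        _ ≤ _ := h2
    have h5 := neg_abs_le (w.im * η.im)
    nlinarith [mul_pos (sub_pos.2 hre) h1]
  have h1u : 1 < (1 + d * η).re := by
    rw [Complex.add_re, Complex.one_re]
    linarith
  have hne : 1 + d * η ≠ 0 := by
    intro h
    rw [h, Complex.zero_re] at h1u
    linarith
  have hnorm : 1 < ‖1 + d * η‖ := h1u.trans_le (Complex.re_le_norm _)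
  refine ⟨(1 + d * η)⁻¹, inv_ne_zero hne, ?_, ?_, ?_⟩
  · rw [norm_inv]
    exact inv_lt_one_of_one_lt₀ hnorm
  · rw [← div_eq_mul_inv, Complex.div_re, ← add_div]
    refine div_pos ?_ (Complex.normSq_pos.2 hne)
    have h4 : d.re * (1 + d * η).re + d.im * (1 + d * η).im = d.re + (d.re ^ 2 + d.im ^ 2) * η.re := by
      rw [Complex.add_re, Complex.add_im, Complex.mul_re, Complex.mul_im, Complex.one_re, Complex.one_im]
      ring
    rw [h4]
    have h5 : 0 < d.re := by rw [hd1]; linarith
    positivity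
  · intro s
    have hz : (1 + d * η) * (1 + d * η)⁻¹ = 1 := mul_inv_cancel₀ hne
    have h4 : conj x * ((((s : ℂ) * x + (1 - s) * y)) * (1 + d * η)⁻¹) =
        (s + (1 - s) * (1 - d)) * (1 + d * η)⁻¹ := by
      have h5 : (1 : ℂ) - d = conj x * y := by rw [hd, ← hw]; ring
      rw [h5]
      linear_combination (s * (1 + d * η)⁻¹) * hxx
    rw [h4]
    push_cast
    linear_combination -hz

end Pool.Agent.H212.SN
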