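import Pool.Agent.H212.SN.Stm

open Complex Set Filter Topology MeasureTheory
open scoped ComplexConjugate

namespace Pool.Agent.H212.SN

theorem STAR_re_gt (w : ℂ) (hw : ‖w‖ < 1) : -(1 / 2) < (w / (1 - w)).re := by
  have h1 : w.re * w.re + w.im * w.im < 1 := by
    rw [← Complex.normSq_apply, ← Complex.sq_norm]
    nlinarith [norm_nonneg w]
  have h2 : w ≠ 1 := by
    rintro rfl
    simp at hw
  have h3 : 0 < Complex.normSq (1 - w) := Complex.normSq_pos.2 (sub_ne_zero.2 h2.symm)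
  rw [Complex.div_re, ← add_div, lt_div_iff₀ h3, Complex.normSq_apply]
  simp only [Complex.sub_re, Complex.one_re, Complex.sub_im, Complex.one_im]
  nlinarith

theorem STAR_pos (x z : ℂ) (hx : ‖x‖ = 1) (hz : ‖z‖ < 1) : 0 < (1 - x * z).re := by
  have h1 : ‖x * z‖ < 1 := by
    rw [norm_mul, hx, one_mul]
    exact hz
  have h2 := Complex.abs_re_le_norm (x * z)
  have h3 := le_abs_self (x * z).re
  rw [Complex.sub_re, Complex.one_re]
  linarith

theorem STAR_ne (x z : ℂ) (hx : ‖x‖ = 1) (hz : ‖z‖ < 1) : 1 - x * z ≠ 0 := by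
  intro h
  have h1 := STAR_pos x z hx hz
  rw [h] at h1
  simp at h1

theorem STAR_lin (x z : ℂ) : HasDerivAt (fun z : ℂ => 1 - x * z) (-x) z := by
  have h := ((hasDerivAt_id z).const_mul x).const_sub 1
  rw [mul_one] at h
  exact h

theorem STAR_alg (z x y a P Q A B : ℂ) (hP : P ≠ 0) (hQ : Q ≠ 0) :
    (1 * A + z * (-a * (A / P) * -x)) * B + z * A * (-(2 - a) * (B / Q) * -y) =
      A * B * (1 + a * (x * z / P) + (2 - a) * (y * z / Q)) := by
  field_simp

theorem STAR_der (α : ℝ) (x y z : ℂ) (hx : ‖x‖ = 1) (hy : ‖y‖ = 1) (hz : ‖z‖ < 1) :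
    HasDerivAt (Ff α x y) ((1 - x * z) ^ (-(α : ℂ)) * (1 - y * z) ^ (-(2 - (α : ℂ))) *
      (1 + (α : ℂ) * (x * z / (1 - x * z)) + (2 - (α : ℂ)) * (y * z / (1 - y * z)))) z := by
  have hP0 := STAR_ne x z hx hz
  have hQ0 := STAR_ne y z hy hz
  have h1 := (STAR_lin x z).cpow_const (c := -(α : ℂ))
    (Complex.mem_slitPlane_iff.2 (Or.inl (STAR_pos x z hx hz)))
  have h2 := (STAR_lin y z).cpow_const (c := -(2 - (α : ℂ)))
    (Complex.mem_slitPlane_iff.2 (Or.inl (STAR_pos y z hy hz)))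
  have h3 := ((hasDerivAt_id z).mul h1).mul h2
  have e1 : (1 - x * z) ^ (-(α : ℂ) - 1) = (1 - x * z) ^ (-(α : ℂ)) / (1 - x * z) := by
    rw [Complex.cpow_sub _ _ hP0, Complex.cpow_one]
  have e2 : (1 - y * z) ^ (-(2 - (α : ℂ)) - 1) =
      (1 - y * z) ^ (-(2 - (α : ℂ))) / (1 - y * z) := by
    rw [Complex.cpow_sub _ _ hQ0, Complex.cpow_one]
  have h4 : HasDerivAt (Ff α x y) _ z := h3
  refine h4.congr_deriv ?_
  rw [e1, e2]
  exact STAR_alg z x y α _ _ _ _ hP0 hQ0

theorem t_STAR : S_STAR := by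
  intro α x y hα0 hα2 hx hy
  refine ⟨?_, ?_, ?_, ?_⟩
  · intro z hz
    have hz' : ‖z‖ < 1 := by simpa using hz
    exact (STAR_der α x y z hx hy hz').differentiableAt.differentiableWithinAt
  · unfold Ff
    simp
  · rw [(STAR_der α x y 0 hx hy (by simp)).deriv]
    simp
  · intro z hz0 hz
    have hP0 := STAR_ne x z hx hz
    have hQ0 := STAR_ne y z hy hz
    have hA : (1 - x * z) ^ (-(α : ℂ)) ≠ 0 := by
      rw [Ne, Complex.cpow_eq_zero_iff]
      exact fun h => hP0 h.1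
    have hB : (1 - y * z) ^ (-(2 - (α : ℂ))) ≠ 0 := by
      rw [Ne, Complex.cpow_eq_zero_iff]
      exact fun h => hQ0 h.1
    have hF : Ff α x y z ≠ 0 := by
      unfold Ff
      exact mul_ne_zero (mul_ne_zero hz0 hA) hB
    refine ⟨hF, ?_⟩
    have h1 : z * deriv (Ff α x y) z / Ff α x y z =
        1 + (α : ℂ) * (x * z / (1 - x * z)) + (2 - (α : ℂ)) * (y * z / (1 - y * z)) := by
      rw [(STAR_der α x y z hx hy hz).deriv, div_eq_iff hF]
      unfold Ff
      ring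
    rw [h1]
    have hw1 : ‖x * z‖ < 1 := by
      rw [norm_mul, hx, one_mul]
      exact hz
    have hw2 : ‖y * z‖ < 1 := by
      rw [norm_mul, hy, one_mul]
      exact hz
    have k1 := STAR_re_gt (x * z) hw1
    have k2 := STAR_re_gt (y * z) hw2
    have e2 : (2 - (α : ℂ)) = ((2 - α : ℝ) : ℂ) := by push_cast; rfl
    rw [e2, Complex.add_re, Complex.add_re, Complex.re_ofReal_mul, Complex.re_ofReal_mul,
      Complex.one_re]
    have k3 : α * -(1 / 2) < α * (x * z / (1 - x * z)).re := mul_lt_mul_of_pos_left k1 hα0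
    have k4 : (2 - α) * -(1 / 2) < (2 - α) * (y * z / (1 - y * z)).re :=
      mul_lt_mul_of_pos_left k2 (by linarith)
    linarith

end Pool.Agent.H212.SN
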