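import Pool.Agent.H212.SN.T_K
import Pool.Agent.H212.SN.T_LTA
import Pool.Agent.H212.SN.T_LTB
import Pool.Agent.H212.SN.T_LT
import Pool.Agent.H212.SN.T_BM
import Pool.Agent.H212.SN.T_BN
import Pool.Agent.H212.SN.T_RE
import Pool.Agent.H212.SN.T_ANN
import Pool.Agent.H212.SN.T_ANP
import Pool.Agent.H212.SN.T_MM
import Pool.Agent.H212.SN.T_CORE
import Pool.Agent.H212.SN.T_FEY
import Pool.Agent.H212.SN.T_BC
import Pool.Agent.H212.SN.T_COEF
import Pool.Agent.H212.SN.T_HADI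
import Pool.Agent.H212.SN.T_UNIV
import Pool.Agent.H212.SN.T_REL
import Pool.Agent.H212.SN.T_FIN
import Pool.Agent.H212.SN.T_STAR

open Complex Set Filter Topology
open scoped ComplexConjugate

namespace Pool.Agent.H212.SN

theorem fin : S_FIN := by
  have hLT : S_LT := t_LT (t_LTA t_K) (t_LTB t_K)
  have hCORE : S_CORE := t_CORE hLT t_BM (t_BN t_K) t_RE t_ANN t_ANP t_MM
  have hHADI : S_HADI := t_HADI t_BC (t_COEF t_FEY t_BC)
  exact t_FIN hCORE hHADI t_UNIV t_REL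

theorem Ff_symm (α : ℝ) (x y : ℂ) : Ff (2 - α) y x = Ff α x y := by
  funext z
  unfold Ff
  push_cast
  have h : -(2 - (2 - (α : ℂ))) = -(α : ℂ) := by ring
  rw [h]
  ring

theorem main (α : ℝ) (x y : ℂ) (h0 : 0 < α) (h2 : α < 2) (h1 : α ≠ 1) (hx : ‖x‖ = 1) (hy : ‖y‖ = 1) (hxy : x ≠ y) :
    ∃ f : ℂ → ℂ, ClassS f ∧ ∃ z : ℂ, z ≠ 0 ∧ ‖z‖ < 1 ∧ Summable (fun n => cf (Ff α x y) n * cf f n * z ^ n) ∧
      had (Ff α x y) f z = 0 := by
  rcases lt_or_gt_of_ne h1 with h | h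
  · exact fin α x y h0 h hx hy hxy
  · have := fin (2 - α) y x (by linarith) (by linarith) hy hx hxy.symm
    rwa [Ff_symm] at this

end Pool.Agent.H212.SN
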