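import Pool.Agent.H212.SN.Stm

set_option autoImplicit false

open Complex Set Filter Topology MeasureTheory
open scoped ComplexConjugate

namespace Pool.Agent.H212.SN

theorem HADI_deriv (f : ℂ → ℂ) (hf : DifferentiableOn ℂ f (Metric.ball 0 1)) (w : ℂ)
    (hw : ‖w‖ < 1) :
    HasSum (fun n : ℕ => (((n + 1 : ℕ) : ℂ) * cf f (n + 1)) * w ^ n) (deriv f w) := by
  have h1 : DifferentiableOn ℂ (deriv f) (Metric.ball 0 1) := hf.deriv Metric.isOpen_ball
  have hw' : w ∈ Metric.ball (0 : ℂ) 1 := by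
    rw [Metric.mem_ball, dist_zero_right]
    exact hw
  have h2 := Complex.hasSum_taylorSeries_on_ball h1 hw'
  refine h2.congr_fun ?_ |> fun h => h
  intro n
  have h3 : iteratedDeriv n (deriv f) 0 = iteratedDeriv (n + 1) f 0 := by
    rw [iteratedDeriv_succ']
  have h4 : ((n + 1 : ℕ) : ℂ) ≠ 0 := Nat.cast_ne_zero.2 (Nat.succ_ne_zero n)
  have h5 : ((n.factorial : ℕ) : ℂ) ≠ 0 := Nat.cast_ne_zero.2 (Nat.factorial_ne_zero n)
  show ((n + 1 : ℕ) : ℂ) * (iteratedDeriv (n + 1) f 0 / ((n + 1).factorial : ℂ)) * w ^ n =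
    ((n.factorial : ℕ) : ℂ)⁻¹ • (w - 0) ^ n • iteratedDeriv n (deriv f) 0
  rw [h3, sub_zero, smul_eq_mul, smul_eq_mul, Nat.factorial_succ, Nat.cast_mul]
  field_simp

theorem t_HADI (hBC : S_BC) (hCOEF : S_COEF) : S_HADI := by
  intro α x y f hα0 hα1 hx hy hf z hz
  obtain ⟨hint, hB⟩ := hBC α hα0 hα1
  obtain ⟨-, h0, hc⟩ := hCOEF α x y hα0 hα1 hx hy
  have hB' : (Bc α : ℂ) ≠ 0 := by exact_mod_cast hB.ne'
  obtain ⟨c, hcd⟩ : ∃ c : ℕ → ℂ, ∀ n, c n = ((n + 1 : ℕ) : ℂ) * cf f (n + 1) := ⟨_, fun _ => rfl⟩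
  have habs : Summable (fun n : ℕ => ‖c n‖ * ‖z‖ ^ n) := by
    have h1 : ‖((‖z‖ : ℝ) : ℂ)‖ < 1 := by
      rw [Complex.norm_real, norm_norm]
      exact hz
    have h2 := (HADI_deriv f hf _ h1).summable.norm
    refine h2.congr fun n => ?_
    rw [norm_mul, norm_pow, Complex.norm_real, norm_norm, hcd]
  have hm : ∀ s ∈ Set.Icc (0 : ℝ) 1, ‖(s : ℂ) * x + (1 - s) * y‖ ≤ 1 := by
    intro s hs
    have h1 : ‖(s : ℂ)‖ = s := by
      rw [Complex.norm_real, Real.norm_of_nonneg hs.1]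
    have h2 : ‖(1 - (s : ℂ))‖ = 1 - s := by
      have : (1 - (s : ℂ)) = ((1 - s : ℝ) : ℂ) := by push_cast; ring
      rw [this, Complex.norm_real, Real.norm_of_nonneg (by linarith [hs.2])]
    calc ‖(s : ℂ) * x + (1 - s) * y‖ ≤ ‖(s : ℂ) * x‖ + ‖(1 - (s : ℂ)) * y‖ := norm_add_le _ _
      _ = s * ‖x‖ + (1 - s) * ‖y‖ := by rw [norm_mul, norm_mul, h1, h2]
      _ ≤ s * 1 + (1 - s) * 1 := by
        have := hs.1
        have := hs.2
        gcongr
      _ = 1 := by ring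
  have hmz : ∀ s ∈ Set.Icc (0 : ℝ) 1, ‖((s : ℂ) * x + (1 - s) * y) * z‖ ≤ ‖z‖ := by
    intro s hs
    rw [norm_mul]
    have := hm s hs
    have := norm_nonneg z
    nlinarith
  have hI : Set.uIoc (0 : ℝ) 1 = Set.Ioc 0 1 := Set.uIoc_of_le zero_le_one
  have hsub : ∀ t : ℝ, t ∈ Set.uIoc (0 : ℝ) 1 → t ∈ Set.Icc (0 : ℝ) 1 := by
    intro t ht
    rw [hI] at ht
    exact ⟨ht.1.le, ht.2⟩
  have key : HasSum (fun n : ℕ => ∫ s in (0 : ℝ)..1,
      ((wt α s : ℝ) : ℂ) * (c n * (((s : ℂ) * x + (1 - s) * y) * z) ^ n))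
      (∫ s in (0 : ℝ)..1, ((wt α s : ℝ) : ℂ) * deriv f (((s : ℂ) * x + (1 - s) * y) * z)) := by
    refine intervalIntegral.hasSum_integral_of_dominated_convergence
      (fun n t => |wt α t| * (‖c n‖ * ‖z‖ ^ n)) ?_ ?_ ?_ ?_ ?_
    · intro n
      rw [hI]
      refine (Complex.continuous_ofReal.comp_aestronglyMeasurable
        hint.1.aestronglyMeasurable).mul ?_
      exact Continuous.aestronglyMeasurable (by fun_prop)
    · intro n
      refine Filter.Eventually.of_forall fun t ht => ?_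
      rw [norm_mul, Complex.norm_real, Real.norm_eq_abs, norm_mul, norm_pow]
      have h1 := hmz t (hsub t ht)
      gcongr
    · refine Filter.Eventually.of_forall fun t _ => ?_
      exact habs.mul_left _
    · have e : (fun t : ℝ => ∑' n : ℕ, |wt α t| * (‖c n‖ * ‖z‖ ^ n)) =
          fun t => |wt α t| * ∑' n : ℕ, ‖c n‖ * ‖z‖ ^ n := by
        funext t
        exact tsum_mul_left
      rw [e]
      exact hint.abs.mul_const _
    · refine Filter.Eventually.of_forall fun t ht => ?_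
      have h1 := HADI_deriv f hf (((t : ℂ) * x + (1 - t) * y) * z)
        ((hmz t (hsub t ht)).trans_lt hz)
      have h2 := h1.mul_left ((wt α t : ℝ) : ℂ)
      simp only [← hcd] at h2
      exact h2
  have key2 : HasSum (fun n : ℕ => cf (Ff α x y) (n + 1) * cf f (n + 1) * z ^ (n + 1))
      (z / (Bc α : ℂ) * ∫ s in (0 : ℝ)..1,
        ((wt α s : ℝ) : ℂ) * deriv f (((s : ℂ) * x + (1 - s) * y) * z)) := by
    have h1 := key.mul_left (z / (Bc α : ℂ))
    refine h1.congr_fun ?_ |> fun h => h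
    intro n
    have h2 : (∫ s in (0 : ℝ)..1,
        ((wt α s : ℝ) : ℂ) * (c n * (((s : ℂ) * x + (1 - s) * y) * z) ^ n)) =
        (c n * z ^ n) * ∫ s in (0 : ℝ)..1, ((wt α s : ℝ) : ℂ) * ((s : ℂ) * x + (1 - s) * y) ^ n := by
      rw [← intervalIntegral.integral_const_mul]
      congr 1
      funext s
      rw [mul_pow]
      ring
    show cf (Ff α x y) (n + 1) * cf f (n + 1) * z ^ (n + 1) = z / (Bc α : ℂ) * _
    rw [h2, hc n, hcd]
    ring
  have key3 : HasSum (fun n : ℕ => cf (Ff α x y) n * cf f n * z ^ n)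
      (z / (Bc α : ℂ) * ∫ s in (0 : ℝ)..1,
        ((wt α s : ℝ) : ℂ) * deriv f (((s : ℂ) * x + (1 - s) * y) * z)) := by
    have h1 := (hasSum_nat_add_iff (f := fun n : ℕ => cf (Ff α x y) n * cf f n * z ^ n) 1).1 key2
    simpa [h0] using h1
  exact ⟨key3.summable, key3.tsum_eq⟩

end Pool.Agent.H212.SN
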