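import Pool.Agent.H212.SN.Stm

set_option autoImplicit false

open Complex Set Filter Topology MeasureTheory
open scoped ComplexConjugate

namespace Pool.Agent.H212.SN

theorem K_num : Real.exp (Real.pi / 2) ≤ 5 := by
  have h1 : Real.pi / 2 ≤ 8 / 5 := by
    have := Real.pi_lt_d2
    linarith
  have h2 : Real.exp (8 / 5) ≤ 5 := by
    have h3 : Real.exp (8 / 5) ^ 5 ≤ 5 ^ 5 := by
      have h4 : Real.exp (8 / 5) ^ 5 = Real.exp 1 ^ 8 := by
        rw [← Real.exp_nat_mul, ← Real.exp_nat_mul]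
        congr 1
        norm_num
      rw [h4]
      have h5 : Real.exp 1 ≤ 2.7182818286 := Real.exp_one_lt_d9.le
      calc Real.exp 1 ^ 8 ≤ (2.7182818286 : ℝ) ^ 8 := by
            gcongr
        _ ≤ 5 ^ 5 := by norm_num
    exact le_of_pow_le_pow_left₀ (by norm_num) (by norm_num) h3
  exact (Real.exp_le_exp.2 h1).trans h2

theorem K_bd (p : ℂ) (h2 : p.re ≤ 0) (h3 : |p.im| ≤ 1) (z : ℂ) (hz : 0 ≤ z.re) :
    ‖(1 + z) ^ p‖ ≤ 5 := by
  have hre : (1 + z).re = 1 + z.re := by simp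
  have hne : (1 + z) ≠ 0 := by
    intro h
    have h4 := congrArg Complex.re h
    rw [hre, Complex.zero_re] at h4
    linarith
  rw [Complex.norm_cpow_of_ne_zero hne]
  have hn : 1 ≤ ‖1 + z‖ := by
    have := Complex.re_le_norm (1 + z)
    rw [hre] at this
    linarith
  have h4 : ‖1 + z‖ ^ p.re ≤ 1 := Real.rpow_le_one_of_one_le_of_nonpos hn h2
  have h5 : |arg (1 + z)| ≤ Real.pi / 2 := by
    rw [Complex.abs_arg_le_pi_div_two_iff, hre]
    linarith
  have h6 : -(Real.pi / 2) ≤ arg (1 + z) * p.im := by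
    have h7 : |arg (1 + z) * p.im| ≤ Real.pi / 2 := by
      rw [abs_mul]
      calc |arg (1 + z)| * |p.im| ≤ Real.pi / 2 * 1 := by gcongr
        _ = Real.pi / 2 := mul_one _
    exact (abs_le.1 h7).1
  rw [div_le_iff₀ (Real.exp_pos _)]
  have h8 : Real.exp (-(Real.pi / 2)) ≤ Real.exp (arg (1 + z) * p.im) := Real.exp_le_exp.2 h6
  have h9 : 1 ≤ 5 * Real.exp (-(Real.pi / 2)) := by
    rw [Real.exp_neg]
    have := K_num
    rw [← div_eq_mul_inv, le_div_iff₀ (Real.exp_pos _)]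
    linarith
  linarith

theorem t_K : S_K := by
  intro p h1 h2 h3 z hz
  refine ⟨K_bd p h2 h3 z hz, ?_⟩
  have hp : ‖p‖ ≤ 16 / 5 := by
    have h4 : ‖p‖ ^ 2 ≤ (16 / 5) ^ 2 := by
      rw [← Complex.normSq_eq_norm_sq, Complex.normSq_apply]
      have h5 := (abs_le.1 h3).1
      have h6 := (abs_le.1 h3).2
      nlinarith
    exact le_of_pow_le_pow_left₀ (by norm_num) (by norm_num) h4
  have hconv : Convex ℝ {w : ℂ | 0 ≤ w.re} := convex_halfSpace_re_ge 0
  have hder : ∀ w ∈ {w : ℂ | 0 ≤ w.re}, HasDerivWithinAt (fun w : ℂ => (1 + w) ^ p)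
      (p * (1 + w) ^ (p - 1)) {w : ℂ | 0 ≤ w.re} w := by
    intro w hw
    have hw' : 0 ≤ w.re := hw
    have hs : (1 + w) ∈ slitPlane := by
      left
      simp
      linarith
    have h5 : HasDerivAt (fun w : ℂ => 1 + w) 1 w := (hasDerivAt_id w).const_add 1
    have h6 := h5.cpow_const (c := p) hs
    rw [mul_one] at h6
    exact h6.hasDerivWithinAt
  have hbd : ∀ w ∈ {w : ℂ | 0 ≤ w.re}, ‖p * (1 + w) ^ (p - 1)‖ ≤ 16 := by
    intro w hw
    have h5 : ‖(1 + w) ^ (p - 1)‖ ≤ 5 := by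
      refine K_bd (p - 1) ?_ ?_ w hw
      · rw [Complex.sub_re, Complex.one_re]
        linarith
      · rw [Complex.sub_im, Complex.one_im, sub_zero]
        exact h3
    rw [norm_mul]
    calc ‖p‖ * ‖(1 + w) ^ (p - 1)‖ ≤ 16 / 5 * 5 := by gcongr
      _ = 16 := by norm_num
  have h7 := hconv.norm_image_sub_le_of_norm_hasDerivWithin_le (f := fun w : ℂ => (1 + w) ^ p)
    hder hbd (x := 0) (y := z) (by simp) hz
  simpa using h7

end Pool.Agent.H212.SN
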